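import Pool.Agent.Lib.MP_798203_nt.AB.Cnt

/-!
The limit for one test. Let `Λ k = log (1/ρ k)`, `S X = ‖∑_{n < cnt s X} f n‖`. `Λ (k+1) ≥ Λ k` and `Λ (k+1) ≥ k + 1`.
For `k ≥ k0`: `S (1/ρ (k+1)) ≤ S (1/ρ k) + Λ (k+1)/(k+1) + C k ≤ (2 Λ k + 1) + C k + Λ (k+1)/(k+1) ≤ 2 Λ (k+1)/(k+1)` (`cnt_le`, `hgrow`;
`log (X ρ k) ≤ log X`). For `1/ρ (k+1) ≤ X ≤ 1/ρ (k+2)`: `S X ≤ 2 Λ (k+1)/(k+1) + log X/(k+2) + C (k+1) ≤ 4 log X/(k+1)`.
For `N`: `X = s^N`, `cnt s X = N` (`cnt_pow`), `log X = N log s`. Given `ε`: `k1 ≥ k0` with `4 log s/(k1+1) < ε`; for all `N` with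
`s^N ≥ 1/ρ (k1+1)` there is `k ≥ k1` with `1/ρ (k+1) ≤ s^N ≤ 1/ρ (k+2)` (as `1/ρ k → ∞`; `Nat.find`).
-/

namespace MP798203.AB

open Real Finset Filter Topology

theorem lim_of_stages {s : ℕ} (hs : 2 ≤ s) (f : ℕ → ℂ) (hf : ∀ n, ‖f n‖ ≤ 1) (ρ C : ℕ → ℝ)
    (hρ : ∀ k, 0 < ρ k ∧ ρ k ≤ 1) (hC : ∀ k, 0 ≤ C k)
    (hgrow : ∀ k : ℕ, ((k : ℝ) + 1) * (2 * Real.log (1 / ρ k) + 1 + C k + C (k + 1)) ≤
      Real.log (1 / ρ (k + 1)))
    (k0 : ℕ) (hsum : ∀ k : ℕ, k0 ≤ k → ∀ X : ℝ, 1 / ρ k ≤ X → X ≤ 1 / ρ (k + 1) →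
      ‖∑ n ∈ Ico (cnt s (1 / ρ k)) (cnt s X), f n‖ ≤ 1 / ((k : ℝ) + 1) * Real.log (X * ρ k) + C k) :
    Tendsto (fun N : ℕ => ‖∑ n ∈ range N, f n‖ / N) atTop (𝓝 0) := by
  have h1ρ : ∀ k, 1 ≤ 1 / ρ k := fun k => by
    rw [le_div_iff₀ (hρ k).1]; linarith [(hρ k).2]
  have hΛ0 : ∀ k, 0 ≤ Real.log (1 / ρ k) := fun k => Real.log_nonneg (h1ρ k)
  have hk1 : ∀ k : ℕ, (1 : ℝ) ≤ (k : ℝ) + 1 := fun k => by
    have : (0 : ℝ) ≤ (k : ℝ) := Nat.cast_nonneg k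
    linarith
  have hgr : ∀ k : ℕ, 2 * Real.log (1 / ρ k) + 1 + C k + C (k + 1) ≤ Real.log (1 / ρ (k + 1)) := by
    intro k
    refine le_trans ?_ (hgrow k)
    have h0 : 0 ≤ 2 * Real.log (1 / ρ k) + 1 + C k + C (k + 1) := by
      have := hΛ0 k; have := hC k; have := hC (k + 1); linarith
    nlinarith [hk1 k]
  have hmono : ∀ k, 1 / ρ k ≤ 1 / ρ (k + 1) := by
    intro k
    have h1 : Real.log (1 / ρ k) ≤ Real.log (1 / ρ (k + 1)) := by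
      have := hgr k; have := hΛ0 k; have := hC k; have := hC (k + 1); linarith
    exact (Real.log_le_log_iff (by linarith [h1ρ k]) (by linarith [h1ρ (k + 1)])).1 h1
  have hA : ∀ k : ℕ, k0 ≤ k → ∀ X : ℝ, 1 / ρ k ≤ X → X ≤ 1 / ρ (k + 1) →
      ‖∑ n ∈ range (cnt s X), f n‖ ≤ ‖∑ n ∈ range (cnt s (1 / ρ k)), f n‖ +
        1 / ((k : ℝ) + 1) * Real.log X + C k := by
    intro k hk X h1 h2
    have h3 := hsum k hk X h1 h2
    have hX0 : 0 < X := by linarith [h1ρ k]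
    have h4 : Real.log (X * ρ k) ≤ Real.log X := by
      apply Real.log_le_log (mul_pos hX0 (hρ k).1)
      nlinarith [(hρ k).2]
    have h5 : 1 / ((k : ℝ) + 1) * Real.log (X * ρ k) ≤ 1 / ((k : ℝ) + 1) * Real.log X :=
      mul_le_mul_of_nonneg_left h4 (by have := hk1 k; positivity)
    have h6 : ∑ n ∈ range (cnt s X), f n = ∑ n ∈ range (cnt s (1 / ρ k)), f n +
        ∑ n ∈ Ico (cnt s (1 / ρ k)) (cnt s X), f n := by
      rw [Finset.sum_range_add_sum_Ico _ (cnt_mono hs h1)]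
    rw [h6]
    have h7 := norm_add_le (∑ n ∈ range (cnt s (1 / ρ k)), f n)
      (∑ n ∈ Ico (cnt s (1 / ρ k)) (cnt s X), f n)
    linarith
  have hS : ∀ k : ℕ, ‖∑ n ∈ range (cnt s (1 / ρ k)), f n‖ ≤ 2 * Real.log (1 / ρ k) + 1 := by
    intro k
    refine le_trans (norm_sum_le_of_le (range (cnt s (1 / ρ k))) (fun n _ => hf n)) ?_
    rw [Finset.sum_const, Finset.card_range, nsmul_eq_mul, mul_one]
    exact cnt_le hs (h1ρ k)
  have hB : ∀ k : ℕ, k0 ≤ k → ‖∑ n ∈ range (cnt s (1 / ρ (k + 1))), f n‖ ≤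
      2 * Real.log (1 / ρ k) + 1 + 1 / ((k : ℝ) + 1) * Real.log (1 / ρ (k + 1)) + C k := by
    intro k hk
    have h1 := hA k hk (1 / ρ (k + 1)) (hmono k) le_rfl
    have h2 := hS k
    linarith
  have hD : ∀ k : ℕ, k0 ≤ k → ∀ X : ℝ, 1 / ρ (k + 1) ≤ X → X ≤ 1 / ρ (k + 2) →
      ‖∑ n ∈ range (cnt s X), f n‖ ≤ 3 / ((k : ℝ) + 1) * Real.log X := by
    intro k hk X h1 h2
    have h3 := hA (k + 1) (by omega) X h1 h2
    have h4 := hB k hk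
    have h5 := hgrow k
    have hkp : (0 : ℝ) < (k : ℝ) + 1 := by linarith [hk1 k]
    have h6 : 2 * Real.log (1 / ρ k) + 1 + C k + C (k + 1) ≤
        1 / ((k : ℝ) + 1) * Real.log (1 / ρ (k + 1)) := by
      rw [show 1 / ((k : ℝ) + 1) * Real.log (1 / ρ (k + 1)) =
        Real.log (1 / ρ (k + 1)) / ((k : ℝ) + 1) by ring, le_div_iff₀ hkp]
      linarith
    have h7 : Real.log (1 / ρ (k + 1)) ≤ Real.log X :=
      Real.log_le_log (by linarith [h1ρ (k + 1)]) h1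
    have h8 : 1 / ((k : ℝ) + 1) * Real.log (1 / ρ (k + 1)) ≤ 1 / ((k : ℝ) + 1) * Real.log X :=
      mul_le_mul_of_nonneg_left h7 (by positivity)
    have hX0 : 0 ≤ Real.log X := (hΛ0 (k + 1)).trans h7
    have h9 : 1 / (((k + 1 : ℕ) : ℝ) + 1) * Real.log X ≤ 1 / ((k : ℝ) + 1) * Real.log X := by
      apply mul_le_mul_of_nonneg_right _ hX0
      apply one_div_le_one_div_of_le hkp
      push_cast
      linarith
    have h10 : 3 / ((k : ℝ) + 1) * Real.log X = 3 * (1 / ((k : ℝ) + 1) * Real.log X) := by ring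
    rw [h10]
    linarith
  have hunb : ∀ k : ℕ, Real.exp ((k : ℝ) + 1) ≤ 1 / ρ (k + 1) := by
    intro k
    have h1 : (k : ℝ) + 1 ≤ Real.log (1 / ρ (k + 1)) := by
      refine le_trans ?_ (hgrow k)
      have h0 : 1 ≤ 2 * Real.log (1 / ρ k) + 1 + C k + C (k + 1) := by
        have := hΛ0 k; have := hC k; have := hC (k + 1); linarith
      nlinarith [hk1 k]
    rw [← Real.exp_log (show 0 < 1 / ρ (k + 1) by linarith [h1ρ (k + 1)])]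
    exact Real.exp_le_exp.2 h1
  have hs1 : (1 : ℝ) < s := by
    have : (2 : ℝ) ≤ s := by exact_mod_cast hs
    linarith
  have hls : 0 < Real.log s := Real.log_pos hs1
  rw [Metric.tendsto_atTop]
  intro ε hε
  obtain ⟨k2, hk2⟩ := exists_nat_gt (3 * Real.log s / ε)
  set k1 := max k0 k2 with hk1def
  have hk1k : (k2 : ℝ) ≤ (k1 : ℝ) := by exact_mod_cast le_max_right k0 k2
  obtain ⟨N0, hN0⟩ := pow_unbounded_of_one_lt (1 / ρ (k1 + 1)) hs1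
  refine ⟨N0 + 1, fun N hN => ?_⟩
  have hNX : 1 / ρ (k1 + 1) ≤ (s : ℝ) ^ N :=
    hN0.le.trans (pow_le_pow_right₀ hs1.le (by omega))
  have hex : ∃ m : ℕ, (s : ℝ) ^ N ≤ 1 / ρ (k1 + m + 2) := by
    obtain ⟨m, hm⟩ := exists_nat_gt ((s : ℝ) ^ N)
    refine ⟨m, ?_⟩
    refine le_trans hm.le (le_trans ?_ (hunb (k1 + m + 1)))
    have h1 := Real.add_one_le_exp (((k1 + m + 1 : ℕ) : ℝ) + 1)
    push_cast at h1 ⊢
    have : (0 : ℝ) ≤ (k1 : ℝ) := Nat.cast_nonneg k1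
    linarith
  obtain ⟨k, hkk, hka, hkb⟩ : ∃ k : ℕ, k1 ≤ k ∧ 1 / ρ (k + 1) ≤ (s : ℝ) ^ N ∧
      (s : ℝ) ^ N ≤ 1 / ρ (k + 2) := by
    classical
    refine ⟨k1 + Nat.find hex, Nat.le_add_right _ _, ?_, Nat.find_spec hex⟩
    rcases Nat.eq_zero_or_pos (Nat.find hex) with h0 | hpos
    · rw [h0]; exact hNX
    · have h1 := Nat.find_min hex (m := Nat.find hex - 1) (by omega)
      rw [not_le] at h1
      have h2 : k1 + (Nat.find hex - 1) + 2 = k1 + Nat.find hex + 1 := by omega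
      rw [h2] at h1
      exact h1.le
  have h1 := hD k ((le_max_left k0 k2).trans hkk) _ hka hkb
  rw [cnt_pow hs, Real.log_pow] at h1
  have hNpos : (0 : ℝ) < (N : ℝ) := by
    have : 0 < N := by omega
    exact_mod_cast this
  rw [Real.dist_eq, sub_zero, abs_of_nonneg (by positivity), div_lt_iff₀ hNpos]
  refine lt_of_le_of_lt h1 ?_
  have hkp : (0 : ℝ) < (k : ℝ) + 1 := by linarith [hk1 k]
  have hkk' : (k1 : ℝ) ≤ (k : ℝ) := by exact_mod_cast hkk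
  have h2 : 3 / ((k : ℝ) + 1) * (N * Real.log s) = (3 * Real.log s / ((k : ℝ) + 1)) * N := by ring
  rw [h2]
  apply mul_lt_mul_of_pos_right _ hNpos
  rw [div_lt_iff₀ hkp]
  rw [div_lt_iff₀ hε] at hk2
  nlinarith

end MP798203.AB
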