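import Pool.Agent.Lib.MP_798203_nt.AB.Ball
import Pool.Agent.Lib.MP_798203_nt.AB.Lim

/-!
Nested balls. Choose `C k` from `ball_stage` (for `a k, r k, T k`, `ε = 1/(k+1)`) for all `k`. Construct `(p k, ρ k)`, `0 < ρ k ≤ 1`,
recursively (start `p = 0`, `ρ = 1`): `ball_stage` at stage `k` with `d k`, `K = k` and
`ρs = exp (-((k+1) (2 log (1/ρ k) + 1 + C k + C (k+1))))`. The intersection of the compact nested balls is nonempty
(`IsCompact.nonempty_iInter_of_sequence_nonempty_isCompact_isClosed`): `x`. First claim: `lim_of_stages` with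
`f n = ee (t.2^n (t.1 ⬝ᵥ x))` (if `t ∈ T k` for `k ≥ k0`; `2 ≤ t.2` by `hT`). Second claim: stage `k` (`x` lies in the ball number `k+1`).
-/

namespace MP798203.AB

open Real Finset Filter Topology

theorem assembly {n : ℕ} (a : ℕ → Fin n → ℝ) (ha : ∀ k, a k ≠ 0) (r : ℕ → ℕ) (hr : ∀ k, 2 ≤ r k)
    (d : ℕ → ℕ → ℕ) (hd : ∀ k j, d k j < r k) (T : ℕ → Finset ((Fin n → ℝ) × ℕ))
    (hT : ∀ k, ∀ t ∈ T k, 2 ≤ t.2 ∧ t.1 ≠ 0 ∧ ∀ c : ℚ, t.1 = (c : ℝ) • a k → ¬ MulDep (r k) t.2) :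
    ∃ x : Fin n → ℝ,
      (∀ t : (Fin n → ℝ) × ℕ, (∃ k0 : ℕ, ∀ k, k0 ≤ k → t ∈ T k) →
        Tendsto (fun N : ℕ => ‖∑ n ∈ range N, ee ((t.2 : ℝ) ^ n * (t.1 ⬝ᵥ x))‖ / N) atTop (𝓝 0)) ∧
      ∀ k : ℕ, ∃ M : ℕ, k ≤ M ∧
        (((range M).filter (fun j => dg (r k) (a k ⬝ᵥ x) j ≠ (d k j : ℤ))).card : ℝ) ≤
          1 / ((k : ℝ) + 1) * M := by
  have hbs := fun k : ℕ => ball_stage (a k) (ha k) (hr k) (T k) (hT k)
    (ε := 1 / ((k : ℝ) + 1)) (by positivity)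
  choose C hC0 hC using hbs
  -- one step
  have step : ∀ (k : ℕ) (s : (Fin n → ℝ) × {ρ : ℝ // 0 < ρ ∧ ρ ≤ 1}),
      ∃ s' : (Fin n → ℝ) × {ρ : ℝ // 0 < ρ ∧ ρ ≤ 1},
        (s'.2 : ℝ) ≤ Real.exp (-(((k : ℝ) + 1) *
          (2 * Real.log (1 / (s.2 : ℝ)) + 1 + C k + C (k + 1)))) ∧
        Metric.closedBall s'.1 (s'.2 : ℝ) ⊆ Metric.closedBall s.1 (s.2 : ℝ) ∧
        (∃ M : ℕ, k ≤ M ∧ ∀ x ∈ Metric.closedBall s'.1 (s'.2 : ℝ),
          (((range M).filter (fun j => dg (r k) (a k ⬝ᵥ x) j ≠ (d k j : ℤ))).card : ℝ) ≤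
            1 / ((k : ℝ) + 1) * M) ∧
        (∀ x ∈ Metric.closedBall s'.1 (s'.2 : ℝ), ∀ t ∈ T k, ∀ X : ℝ, 1 / (s.2 : ℝ) ≤ X →
          X ≤ 1 / (s'.2 : ℝ) →
          ‖∑ n ∈ Ico (cnt t.2 (1 / (s.2 : ℝ))) (cnt t.2 X), ee ((t.2 : ℝ) ^ n * (t.1 ⬝ᵥ x))‖ ≤
            1 / ((k : ℝ) + 1) * Real.log (X * (s.2 : ℝ)) + C k) := by
    intro k s
    obtain ⟨p', ρ', M, h1, h2, h3, h4, h5, h6, h7⟩ := hC k (d k) (hd k) s.1 (s.2 : ℝ) s.2.2.1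
      s.2.2.2 (Real.exp (-(((k : ℝ) + 1) *
          (2 * Real.log (1 / (s.2 : ℝ)) + 1 + C k + C (k + 1))))) (Real.exp_pos _) k
    exact ⟨(p', ⟨ρ', h1, h3⟩), h2, h4, ⟨M, h5, h6⟩, h7⟩
  choose next hnext using step
  obtain ⟨S, hS⟩ : ∃ S : ℕ → (Fin n → ℝ) × {ρ : ℝ // 0 < ρ ∧ ρ ≤ 1},
      ∀ k, S (k + 1) = next k (S k) :=
    ⟨fun k => Nat.rec ((0 : Fin n → ℝ), ⟨1, one_pos, le_rfl⟩) (fun k s => next k s) k,
      fun k => rfl⟩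
  have hst := fun k => hnext k (S k)
  have hne : (⋂ k, Metric.closedBall (S k).1 ((S k).2 : ℝ)).Nonempty := by
    apply IsCompact.nonempty_iInter_of_sequence_nonempty_isCompact_isClosed
    · intro k
      rw [hS k]
      exact (hst k).2.1
    · intro k
      exact ⟨(S k).1, Metric.mem_closedBall_self (S k).2.2.1.le⟩
    · exact isCompact_closedBall _ _
    · intro k
      exact Metric.isClosed_closedBall
  obtain ⟨x, hx⟩ := hne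
  rw [Set.mem_iInter] at hx
  refine ⟨x, ?_, ?_⟩
  · rintro t ⟨k0, hk0⟩
    have ht2 : 2 ≤ t.2 := (hT k0 t (hk0 k0 le_rfl)).1
    refine lim_of_stages ht2 (fun n => ee ((t.2 : ℝ) ^ n * (t.1 ⬝ᵥ x)))
      (fun n => (norm_ee _).le) (fun k => ((S k).2 : ℝ)) C
      (fun k => ⟨(S k).2.2.1, (S k).2.2.2⟩) hC0 ?_ k0 ?_
    · intro k
      have h1 := (hst k).1
      rw [← hS k] at h1
      have h2 : 0 < ((S (k + 1)).2 : ℝ) := (S (k + 1)).2.2.1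
      have h3 := Real.log_le_log h2 h1
      rw [Real.log_exp] at h3
      have h4 : Real.log (1 / ((S (k + 1)).2 : ℝ)) = - Real.log ((S (k + 1)).2 : ℝ) := by
        rw [one_div, Real.log_inv]
      show ((k : ℝ) + 1) * (2 * Real.log (1 / ((S k).2 : ℝ)) + 1 + C k + C (k + 1)) ≤
        Real.log (1 / ((S (k + 1)).2 : ℝ))
      rw [h4]
      linarith
    · intro k hk X hX1 hX2
      have h1 := (hst k).2.2.2
      rw [← hS k] at h1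
      exact h1 x (hx (k + 1)) t (hk0 k hk) X hX1 hX2
  · intro k
    obtain ⟨M, hM, h⟩ := (hst k).2.2.1
    rw [← hS k] at h
    exact ⟨M, hM, h x (hx (k + 1))⟩

end MP798203.AB
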