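import Pool.Agent.Lib.MP_798203_nt.AB.BallJ
import Pool.Agent.Lib.MP_798203_nt.AB.Lim

/-!
Nested balls, as `assembly` (file `Asm.lean`, delivered): `C k` from `ball_stageJ` (for `T k`, `ε = 1/(k+1)`), recursion for `(p k, ρ k)` with
`ρs = exp (-((k+1) (2 log (1/ρ k) + 1 + C k + C (k+1))))`. First claim: `lim_of_stages` with `f n = ee (t.2^n (t.1 ⬝ᵥ x))`. Second claim: `lim_of_stages`
for the base `r` with `f j = if dg r (a i ⬝ᵥ x) j ≠ d i j then 1 else 0` (the norm of the sum is the number of bad `j`).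
-/

namespace MP798203.AB

open Real Finset Filter Topology

theorem assemblyJ {n m : ℕ} (hm : 0 < m) (a v : Fin m → Fin n → ℝ)
    (hv : ∀ i j, a i ⬝ᵥ v j = if i = j then 1 else 0) {r : ℕ} (hr : 2 ≤ r)
    (d : Fin m → ℕ → ℕ) (hd : ∀ i j, d i j < r) (T : ℕ → Finset ((Fin n → ℝ) × ℕ))
    (hT : ∀ k, ∀ t ∈ T k, 2 ≤ t.2 ∧ ∃ i, Adm r t.2 (t.1 ⬝ᵥ v i)) :
    ∃ x : Fin n → ℝ,
      (∀ t : (Fin n → ℝ) × ℕ, (∃ k0 : ℕ, ∀ k, k0 ≤ k → t ∈ T k) →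
        Tendsto (fun N : ℕ => ‖∑ n ∈ range N, ee ((t.2 : ℝ) ^ n * (t.1 ⬝ᵥ x))‖ / N) atTop (𝓝 0)) ∧
      ∀ i, Tendsto (fun N : ℕ => (((range N).filter
        (fun j => dg r (a i ⬝ᵥ x) j ≠ (d i j : ℤ))).card : ℝ) / N) atTop (𝓝 0) := by
  classical
  have hbs := fun k : ℕ => ball_stageJ hm a v hv hr (T k) (hT k)
    (ε := 1 / ((k : ℝ) + 1)) (by positivity)
  choose C hC0 hC using hbs
  -- one step
  have step : ∀ (k : ℕ) (s : (Fin n → ℝ) × {ρ : ℝ // 0 < ρ ∧ ρ ≤ 1}),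
      ∃ s' : (Fin n → ℝ) × {ρ : ℝ // 0 < ρ ∧ ρ ≤ 1},
        (s'.2 : ℝ) ≤ Real.exp (-(((k : ℝ) + 1) *
          (2 * Real.log (1 / (s.2 : ℝ)) + 1 + C k + C (k + 1)))) ∧
        Metric.closedBall s'.1 (s'.2 : ℝ) ⊆ Metric.closedBall s.1 (s.2 : ℝ) ∧
        (∀ x ∈ Metric.closedBall s'.1 (s'.2 : ℝ), ∀ i, ∀ X : ℝ, 1 / (s.2 : ℝ) ≤ X →
          X ≤ 1 / (s'.2 : ℝ) →
          (((Ico (cnt r (1 / (s.2 : ℝ))) (cnt r X)).filter
            (fun j => dg r (a i ⬝ᵥ x) j ≠ (d i j : ℤ))).card : ℝ) ≤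
            1 / ((k : ℝ) + 1) * Real.log (X * (s.2 : ℝ)) + C k) ∧
        (∀ x ∈ Metric.closedBall s'.1 (s'.2 : ℝ), ∀ t ∈ T k, ∀ X : ℝ, 1 / (s.2 : ℝ) ≤ X →
          X ≤ 1 / (s'.2 : ℝ) →
          ‖∑ n ∈ Ico (cnt t.2 (1 / (s.2 : ℝ))) (cnt t.2 X), ee ((t.2 : ℝ) ^ n * (t.1 ⬝ᵥ x))‖ ≤
            1 / ((k : ℝ) + 1) * Real.log (X * (s.2 : ℝ)) + C k) := by
    intro k s
    obtain ⟨p', ρ', h1, h2, h3, h4, h5, h6⟩ := hC k d hd s.1 (s.2 : ℝ) s.2.2.1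
      s.2.2.2 (Real.exp (-(((k : ℝ) + 1) *
          (2 * Real.log (1 / (s.2 : ℝ)) + 1 + C k + C (k + 1))))) (Real.exp_pos _)
    exact ⟨(p', ⟨ρ', h1, h3⟩), h2, h4, h5, h6⟩
  choose next hnext using step
  obtain ⟨S, hS⟩ : ∃ S : ℕ → (Fin n → ℝ) × {ρ : ℝ // 0 < ρ ∧ ρ ≤ 1},
      ∀ k, S (k + 1) = next k (S k) :=
    ⟨fun k => Nat.rec ((0 : Fin n → ℝ), ⟨1, one_pos, le_rfl⟩) (fun k s => next k s) k,
      fun k => rfl⟩
  have hst := fun k => hnext k (S k)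
  have hne : (⋂ k, Metric.closedBall (S k).1 ((S k).2 : ℝ)).Nonempty := by
    apply IsCompact.nonempty_iInter_of_sequence_nonempty_isCompact_isClosed
    · intro k
      rw [hS k]
      exact (hst k).2.1
    · intro k
      exact ⟨(S k).1, Metric.mem_closedBall_self (S k).2.2.1.le⟩
    · exact isCompact_closedBall _ _
    · intro k
      exact Metric.isClosed_closedBall
  obtain ⟨x, hx⟩ := hne
  rw [Set.mem_iInter] at hx
  have hgrow : ∀ k : ℕ, ((k : ℝ) + 1) * (2 * Real.log (1 / ((S k).2 : ℝ)) + 1 + C k + C (k + 1)) ≤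
      Real.log (1 / ((S (k + 1)).2 : ℝ)) := by
    intro k
    have h1 := (hst k).1
    rw [← hS k] at h1
    have h2 : 0 < ((S (k + 1)).2 : ℝ) := (S (k + 1)).2.2.1
    have h3 := Real.log_le_log h2 h1
    rw [Real.log_exp] at h3
    have h4 : Real.log (1 / ((S (k + 1)).2 : ℝ)) = - Real.log ((S (k + 1)).2 : ℝ) := by
      rw [one_div, Real.log_inv]
    rw [h4]
    linarith
  refine ⟨x, ?_, ?_⟩
  · rintro t ⟨k0, hk0⟩
    have ht2 : 2 ≤ t.2 := (hT k0 t (hk0 k0 le_rfl)).1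
    refine lim_of_stages ht2 (fun n => ee ((t.2 : ℝ) ^ n * (t.1 ⬝ᵥ x)))
      (fun n => (norm_ee _).le) (fun k => ((S k).2 : ℝ)) C
      (fun k => ⟨(S k).2.2.1, (S k).2.2.2⟩) hC0 hgrow k0 ?_
    intro k hk X hX1 hX2
    have h1 := (hst k).2.2.2
    rw [← hS k] at h1
    exact h1 x (hx (k + 1)) t (hk0 k hk) X hX1 hX2
  · intro i
    have hnorm : ∀ s : Finset ℕ,
        ‖∑ j ∈ s, (if dg r (a i ⬝ᵥ x) j ≠ (d i j : ℤ) then (1 : ℂ) else 0)‖ =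
          ((s.filter (fun j => dg r (a i ⬝ᵥ x) j ≠ (d i j : ℤ))).card : ℝ) := by
      intro s
      rw [Finset.sum_boole]
      exact Complex.norm_natCast _
    have hlim := lim_of_stages hr
      (fun j => if dg r (a i ⬝ᵥ x) j ≠ (d i j : ℤ) then (1 : ℂ) else 0)
      (fun j => by
        show ‖(if dg r (a i ⬝ᵥ x) j ≠ (d i j : ℤ) then (1 : ℂ) else 0)‖ ≤ 1
        by_cases hj : dg r (a i ⬝ᵥ x) j ≠ (d i j : ℤ)
        · rw [if_pos hj, norm_one]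
        · rw [if_neg hj, norm_zero]; exact zero_le_one)
      (fun k => ((S k).2 : ℝ)) C (fun k => ⟨(S k).2.2.1, (S k).2.2.2⟩) hC0 hgrow 0
      (by
        intro k _ X hX1 hX2
        have h1 := (hst k).2.2.1
        rw [← hS k] at h1
        rw [hnorm]
        exact h1 x (hx (k + 1)) i X hX1 hX2)
    refine hlim.congr (fun N => ?_)
    rw [hnorm]

end MP798203.AB
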