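import Pool.Agent.Lib.MP_798203_nt.AB.Defs

/-!
A good direction. Let `v0 = (a ⬝ᵥ a)⁻¹ • a`, `a ⬝ᵥ v0 = 1`. For real `x` let `u(x) = (x, x², …, x^n)` and
`v(x) = v0 + u(x) - (a ⬝ᵥ u(x)) • v0`, so `a ⬝ᵥ v(x) = 1`. For `b`: `b ⬝ᵥ v(x) = b ⬝ᵥ v0 + b' ⬝ᵥ u(x)`, `b' = b - (b ⬝ᵥ v0) • a`.
If `b' ≠ 0` (`b` is not a real multiple of `a`), then for every rational `c` the equation `b ⬝ᵥ v(x) = c` is polynomial in
`x` of degree at least one (the coefficient of `x^(i+1)` is `b' i`), so it has finitely many solutions; countably many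
`x` are bad for all `b ∈ T`, `c ∈ ℚ`; take another `x` (`Set.Countable.dense_compl`, see `exists_avoid` in `Final.lean`). If `b = λ • a` then
`b ⬝ᵥ v = λ`, irrational by hypothesis.
-/

namespace MP798203.AB

open Real Finset

theorem exists_dir {n : ℕ} (a : Fin n → ℝ) (ha : a ≠ 0) (T : Set (Fin n → ℝ)) (hT : T.Countable) :
    ∃ v : Fin n → ℝ, a ⬝ᵥ v = 1 ∧
      ∀ b ∈ T, (∀ c : ℚ, b ≠ (c : ℝ) • a) → Irrational (b ⬝ᵥ v) := by
  have haa : a ⬝ᵥ a ≠ 0 := fun h => ha (dotProduct_self_eq_zero.1 h)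
  obtain ⟨v0, hav0⟩ : ∃ v0 : Fin n → ℝ, a ⬝ᵥ v0 = 1 :=
    ⟨(a ⬝ᵥ a)⁻¹ • a, by rw [dotProduct_smul, smul_eq_mul, inv_mul_cancel₀ haa]⟩
  set u : ℝ → Fin n → ℝ := fun x i => x ^ ((i : ℕ) + 1) with hu
  set v : ℝ → Fin n → ℝ := fun x => v0 + u x - (a ⬝ᵥ u x) • v0 with hv
  have hav : ∀ x, a ⬝ᵥ v x = 1 := by
    intro x
    rw [hv]
    simp only
    rw [dotProduct_sub, dotProduct_add, dotProduct_smul, hav0, smul_eq_mul]
    ring
  have hbv : ∀ (b : Fin n → ℝ) (x : ℝ),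
      b ⬝ᵥ v x = b ⬝ᵥ v0 + (b - (b ⬝ᵥ v0) • a) ⬝ᵥ u x := by
    intro b x
    rw [hv]
    simp only
    rw [dotProduct_sub, dotProduct_add, dotProduct_smul, sub_dotProduct, smul_dotProduct,
      smul_eq_mul, smul_eq_mul]
    ring
  have hcount : (⋃ b ∈ T, ⋃ c : ℚ,
      {x : ℝ | b - (b ⬝ᵥ v0) • a ≠ 0 ∧ b ⬝ᵥ v x = (c : ℝ)}).Countable := by
    apply Set.Countable.biUnion hT
    intro b _
    refine Set.countable_iUnion fun c => ?_
    by_cases hb : b - (b ⬝ᵥ v0) • a = 0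
    · have : {x : ℝ | b - (b ⬝ᵥ v0) • a ≠ 0 ∧ b ⬝ᵥ v x = (c : ℝ)} = ∅ := by
        ext x
        simp [hb]
      rw [this]
      exact Set.countable_empty
    · apply Set.Finite.countable
      obtain ⟨i, hi⟩ : ∃ i, (b - (b ⬝ᵥ v0) • a) i ≠ 0 := by
        by_contra hcon
        push Not at hcon
        exact hb (funext hcon)
      set P : Polynomial ℝ := Polynomial.C (b ⬝ᵥ v0 - (c : ℝ)) +
        ∑ j : Fin n, Polynomial.C ((b - (b ⬝ᵥ v0) • a) j) * Polynomial.X ^ ((j : ℕ) + 1) with hP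
      have hcoef : P.coeff ((i : ℕ) + 1) = (b - (b ⬝ᵥ v0) • a) i := by
        rw [hP, Polynomial.coeff_add, Polynomial.coeff_C, if_neg (by omega), zero_add,
          Polynomial.finsetSum_coeff, Finset.sum_eq_single i]
        · rw [Polynomial.coeff_C_mul_X_pow, if_pos rfl]
        · intro j _ hj
          rw [Polynomial.coeff_C_mul_X_pow, if_neg]
          intro h
          apply hj
          apply Fin.ext
          omega
        · intro h
          exact absurd (Finset.mem_univ i) h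
      have hP0 : P ≠ 0 := by
        intro h
        rw [h, Polynomial.coeff_zero] at hcoef
        exact hi hcoef.symm
      refine (P.roots.toFinset.finite_toSet).subset ?_
      rintro x ⟨-, hx⟩
      rw [Finset.mem_coe, Multiset.mem_toFinset, Polynomial.mem_roots hP0, Polynomial.IsRoot.def,
        hP, Polynomial.eval_add, Polynomial.eval_C, Polynomial.eval_finsetSum]
      rw [hbv] at hx
      have : ∑ j : Fin n, Polynomial.eval x (Polynomial.C ((b - (b ⬝ᵥ v0) • a) j) *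
          Polynomial.X ^ ((j : ℕ) + 1)) = (b - (b ⬝ᵥ v0) • a) ⬝ᵥ u x := by
        rw [dotProduct]
        refine Finset.sum_congr rfl fun j _ => ?_
        rw [Polynomial.eval_mul, Polynomial.eval_C, Polynomial.eval_pow, Polynomial.eval_X]
      rw [this]
      linarith
  obtain ⟨x, hx⟩ := (hcount.dense_compl ℝ).nonempty
  refine ⟨v x, hav x, fun b hb hbc => ?_⟩
  rintro ⟨c, hc⟩
  by_cases hb0 : b - (b ⬝ᵥ v0) • a = 0
  · apply hbc c
    rw [hbv, hb0, zero_dotProduct, add_zero] at hc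
    rw [hc]
    exact sub_eq_zero.1 hb0
  · apply hx
    simp only [Set.mem_iUnion]
    exact ⟨b, hb, c, hb0, hc.symm⟩

end MP798203.AB
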