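import Pool.Agent.Lib.MP_798203_nt.AB.IterX
import Pool.Agent.Lib.MP_798203_nt.AB.Vec

/-!
A stage in `ℝ^n` (sup norm). `exists_scale`: the least `J` with `κ / ρ ≤ r^J` (`Nat.find`); if `J = 0` then `r^0 = 1 < r κ / ρ`.
`dot_le`: `|b ⬝ᵥ x| ≤ (∑ |b i|) ‖x‖`.
`ball_stage`: let `v` be as in `exists_dir` for `{t.1 : t ∈ T}`, `β t = t.1 ⬝ᵥ v`: `Adm r t.2 (β t)` (if `t.1 = c • a`, `c ∈ ℚ`, then
`β t = c ≠ 0` and not `MulDep`; otherwise `β t` is irrational). Apply `iterX` with `ε/2`: `H, C_H`.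
`V = ‖v‖`, `κ = max 1 (4V)`, `A₁ = ∑ |a i|`, `κ' = 1/(4(A₁+1))`, `C = 2 log (rκ) + 2 log (1/κ') + 2 + C_H + 4π ∑_{t∈T} ∑_i |t.1 i|`.
Given `d, p, ρ, ρs, K`: `J` with `κ/ρ ≤ r^J < rκ/ρ`, `y0 = a ⬝ᵥ p`, `m0 = ⌊y0 r^J⌋`, `p0 = p - y0 • v`, `φ t n = ee (t.2^n (t.1 ⬝ᵥ p0))`;
`B` large; `m` from `iterX`; `M = J + B H`, `y1 = (m + 1/2)/r^M`, `p' = p0 + y1 • v`, `ρ' = κ'/r^M`.
(a) `y0, y1 ∈ [m0/r^J, (m0+1)/r^J]`, so `‖p' - p‖ = |y1 - y0| V ≤ V/r^J ≤ ρ/4`, `ρ' ≤ κ'/r^J ≤ ρ/4`: the balls are nested.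
(b) for `x` in the small ball `|a ⬝ᵥ x - y1| ≤ A₁ ρ' < 1/(4 r^M)` (`a ⬝ᵥ p' = y1`), so `m/r^M ≤ a ⬝ᵥ x < (m+1)/r^M`, `dg_eq_di`: at most
`J + (ε/2) B H ≤ ε M` bad digits if `J ≤ (ε/2) M`.
(c) sums: split at `min X (r^J)` and `min X (r^M)` (`cnt_mono`, `Finset.sum_Ico_consecutive`). First part `≤ 2 log (r^J ρ) + 1 ≤ 2 log (rκ) + 1`, last part
`≤ 2 log (X/r^M) + 1 ≤ 2 log (1/κ') + 1` (`norm_sum_cnt_le`). Middle part: `ee (s^n t.1⬝x)` and `ee (s^n t.1⬝p') = φ t n ee (β t s^n y1)` differ by at most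
`2π s^n |t.1|₁ ρ'`, in total `≤ 4π |t.1|₁ ρ' X ≤ 4π |t.1|₁` (`sum_pow_le`), and `iterX` gives `(ε/2) log (X'/r^J) + C_H ≤ ε log (X ρ) + C_H`
(`r^J ≥ 1/ρ`).
-/

namespace MP798203.AB

open Real Finset

theorem exists_scale {r : ℕ} (hr : 2 ≤ r) {κ ρ : ℝ} (hκ : 1 ≤ κ) (hρ : 0 < ρ) (hρ1 : ρ ≤ 1) :
    ∃ J : ℕ, κ / ρ ≤ (r : ℝ) ^ J ∧ (r : ℝ) ^ J < r * κ / ρ := by
  have hr1 : (1 : ℝ) < r := by exact_mod_cast (by omega : 1 < r)
  have hr2 : (2 : ℝ) ≤ r := by exact_mod_cast hr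
  have hκρ : 1 ≤ κ / ρ := by
    rw [le_div_iff₀ hρ]
    linarith
  classical
  have hex : ∃ J : ℕ, κ / ρ ≤ (r : ℝ) ^ J := by
    obtain ⟨J, hJ⟩ := pow_unbounded_of_one_lt (κ / ρ) hr1
    exact ⟨J, hJ.le⟩
  refine ⟨Nat.find hex, Nat.find_spec hex, ?_⟩
  have e1 : (r : ℝ) * κ / ρ = r * (κ / ρ) := by ring
  rw [e1]
  rcases Nat.eq_zero_or_pos (Nat.find hex) with h0 | h0
  · rw [h0, pow_zero]
    nlinarith
  · obtain ⟨J, hJ⟩ : ∃ J, Nat.find hex = J + 1 := ⟨Nat.find hex - 1, by omega⟩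
    have h1 : ¬ κ / ρ ≤ (r : ℝ) ^ J := Nat.find_min hex (by omega)
    rw [hJ, pow_succ']
    exact mul_lt_mul_of_pos_left (not_le.1 h1) (by linarith)

theorem dot_le {n : ℕ} (b x : Fin n → ℝ) : |b ⬝ᵥ x| ≤ (∑ i, |b i|) * ‖x‖ := by
  unfold dotProduct
  rw [Finset.sum_mul]
  refine (Finset.abs_sum_le_sum_abs _ _).trans (Finset.sum_le_sum fun i _ => ?_)
  rw [abs_mul]
  exact mul_le_mul_of_nonneg_left (norm_le_pi_norm x i) (abs_nonneg _)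

/-- splitting a sum over scales at `RJ` and `RM` -/
private theorem split_sum {s : ℕ} (hs : 2 ≤ s) {X0 RJ RM X : ℝ} (hX0 : 0 < X0) (h01 : X0 ≤ RJ)
    (hJM : RJ ≤ RM) (hX : X0 ≤ X) (f : ℕ → ℂ) (hf : ∀ n, ‖f n‖ ≤ 1) {E : ℝ} (hE : 0 ≤ E)
    (hmid : ∀ Y, RJ ≤ Y → Y ≤ RM → Y ≤ X → ‖∑ n ∈ Ico (cnt s RJ) (cnt s Y), f n‖ ≤ E)
    {k1 k2 : ℝ} (hk1 : RJ / X0 ≤ k1) (hk2 : 1 ≤ k2) (hX2 : X ≤ k2 * RM) :
    ‖∑ n ∈ Ico (cnt s X0) (cnt s X), f n‖ ≤ 2 * Real.log k1 + 1 + E + (2 * Real.log k2 + 1) := by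
  set Y1 := min X RJ with hY1
  set Y2 := min X RM with hY2
  have hRJ : 0 < RJ := hX0.trans_le h01
  have hRM : 0 < RM := hRJ.trans_le hJM
  have hXpos : 0 < X := hX0.trans_le hX
  have a1 : X0 ≤ Y1 := le_min hX h01
  have a2 : Y1 ≤ Y2 := min_le_min_left X hJM
  have a3 : Y2 ≤ X := min_le_left _ _
  have hY1pos : 0 < Y1 := hX0.trans_le a1
  have hY2pos : 0 < Y2 := hY1pos.trans_le a2
  have e1 : ∑ n ∈ Ico (cnt s X0) (cnt s X), f n =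
      ∑ n ∈ Ico (cnt s X0) (cnt s Y1), f n + ∑ n ∈ Ico (cnt s Y1) (cnt s Y2), f n +
        ∑ n ∈ Ico (cnt s Y2) (cnt s X), f n := by
    rw [Finset.sum_Ico_consecutive f (cnt_mono hs a1) (cnt_mono hs a2),
      Finset.sum_Ico_consecutive f ((cnt_mono hs a1).trans (cnt_mono hs a2)) (cnt_mono hs a3)]
  have b1 : ‖∑ n ∈ Ico (cnt s X0) (cnt s Y1), f n‖ ≤ 2 * Real.log k1 + 1 := by
    refine (norm_sum_cnt_le hs hX0 a1 f hf).trans ?_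
    have h1 : Y1 / X0 ≤ k1 :=
      (div_le_div_of_nonneg_right (min_le_right X RJ) hX0.le).trans hk1
    have h2 : Real.log (Y1 / X0) ≤ Real.log k1 := Real.log_le_log (div_pos hY1pos hX0) h1
    linarith
  have b2 : ‖∑ n ∈ Ico (cnt s Y1) (cnt s Y2), f n‖ ≤ E := by
    rcases le_total X RJ with h | h
    · have h1 : Y1 = X := min_eq_left h
      have h2 : Y2 = X := min_eq_left (h.trans hJM)
      rw [h1, h2, Finset.Ico_self, Finset.sum_empty, norm_zero]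
      exact hE
    · have h1 : Y1 = RJ := min_eq_right h
      rw [h1]
      exact hmid Y2 (by rw [← h1]; exact a2) (min_le_right _ _) a3
  have b3 : ‖∑ n ∈ Ico (cnt s Y2) (cnt s X), f n‖ ≤ 2 * Real.log k2 + 1 := by
    refine (norm_sum_cnt_le hs hY2pos a3 f hf).trans ?_
    have h1 : X / Y2 ≤ k2 := by
      rw [div_le_iff₀ hY2pos]
      rcases le_total X RM with h | h
      · have h2 : Y2 = X := min_eq_left h
        rw [h2]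
        nlinarith
      · have h2 : Y2 = RM := min_eq_right h
        rw [h2]
        exact hX2
    have h2 : Real.log (X / Y2) ≤ Real.log k2 := Real.log_le_log (div_pos hXpos hY2pos) h1
    linarith
  rw [e1]
  refine (norm_add_le _ _).trans ?_
  have := norm_add_le (∑ n ∈ Ico (cnt s X0) (cnt s Y1), f n)
    (∑ n ∈ Ico (cnt s Y1) (cnt s Y2), f n)
  linarith

/-- comparison of the exponential sums at two near points -/
private theorem near_sum {s : ℕ} (hs : 2 ≤ s) {Y : ℝ} (hY : 0 ≤ Y) (N0 : ℕ) {u w δ : ℝ}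
    (h : |u - w| ≤ δ) :
    ‖∑ n ∈ Ico N0 (cnt s Y), ee ((s : ℝ) ^ n * u)‖ ≤
      ‖∑ n ∈ Ico N0 (cnt s Y), ee ((s : ℝ) ^ n * w)‖ + 4 * π * δ * Y := by
  have hδ : 0 ≤ δ := (abs_nonneg _).trans h
  have h1 : ‖∑ n ∈ Ico N0 (cnt s Y), ee ((s : ℝ) ^ n * u) -
      ∑ n ∈ Ico N0 (cnt s Y), ee ((s : ℝ) ^ n * w)‖ ≤ 4 * π * δ * Y := by
    rw [← Finset.sum_sub_distrib]
    calc ‖∑ n ∈ Ico N0 (cnt s Y), (ee ((s : ℝ) ^ n * u) - ee ((s : ℝ) ^ n * w))‖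
        ≤ ∑ n ∈ Ico N0 (cnt s Y), ‖ee ((s : ℝ) ^ n * u) - ee ((s : ℝ) ^ n * w)‖ :=
          norm_sum_le _ _
      _ ≤ ∑ n ∈ Ico N0 (cnt s Y), 2 * π * δ * (s : ℝ) ^ n := by
          refine Finset.sum_le_sum fun n _ => ?_
          refine (norm_ee_sub_le _ _).trans ?_
          have h2 : |(s : ℝ) ^ n * u - (s : ℝ) ^ n * w| ≤ (s : ℝ) ^ n * δ := by
            rw [← mul_sub, abs_mul, abs_of_nonneg (by positivity : (0 : ℝ) ≤ (s : ℝ) ^ n)]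
            exact mul_le_mul_of_nonneg_left h (by positivity)
          calc 2 * π * |(s : ℝ) ^ n * u - (s : ℝ) ^ n * w| ≤ 2 * π * ((s : ℝ) ^ n * δ) :=
                mul_le_mul_of_nonneg_left h2 (by positivity)
            _ = 2 * π * δ * (s : ℝ) ^ n := by ring
      _ ≤ ∑ n ∈ range (cnt s Y), 2 * π * δ * (s : ℝ) ^ n := by
          refine Finset.sum_le_sum_of_subset_of_nonneg ?_ (fun n _ _ => by positivity)
          intro n hn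
          rw [Finset.mem_Ico] at hn
          exact Finset.mem_range.2 hn.2
      _ = 2 * π * δ * ∑ n ∈ range (cnt s Y), (s : ℝ) ^ n := by rw [Finset.mul_sum]
      _ ≤ 2 * π * δ * (2 * Y) :=
          mul_le_mul_of_nonneg_left (sum_pow_le hs hY) (by positivity)
      _ = 4 * π * δ * Y := by ring
  have h2 := norm_sub_norm_le (∑ n ∈ Ico N0 (cnt s Y), ee ((s : ℝ) ^ n * u))
    (∑ n ∈ Ico N0 (cnt s Y), ee ((s : ℝ) ^ n * w))
  linarith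

/-- the size of the new scale -/
private theorem exists_B {r : ℕ} (hr : 2 ≤ r) {H : ℕ} (hH : 0 < H) (J K : ℕ) {ε κ' ρs : ℝ}
    (hε : 0 < ε) (hρs : 0 < ρs) : ∃ B : ℕ, K ≤ J + B * H ∧
      (J : ℝ) ≤ ε / 2 * ((J + B * H : ℕ) : ℝ) ∧ κ' / (r : ℝ) ^ (J + B * H) ≤ ρs := by
  have hr1 : (1 : ℝ) < r := by exact_mod_cast (by omega : 1 < r)
  obtain ⟨B2, hB2⟩ := pow_unbounded_of_one_lt (κ' / ρs) hr1
  refine ⟨K + ⌈2 * (J : ℝ) / ε⌉₊ + B2, ?_, ?_, ?_⟩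
  · have : (K + ⌈2 * (J : ℝ) / ε⌉₊ + B2) * 1 ≤ (K + ⌈2 * (J : ℝ) / ε⌉₊ + B2) * H :=
      Nat.mul_le_mul_left _ hH
    omega
  · have h1 : (K + ⌈2 * (J : ℝ) / ε⌉₊ + B2) * 1 ≤ (K + ⌈2 * (J : ℝ) / ε⌉₊ + B2) * H :=
      Nat.mul_le_mul_left _ hH
    have h2 : ⌈2 * (J : ℝ) / ε⌉₊ ≤ J + (K + ⌈2 * (J : ℝ) / ε⌉₊ + B2) * H := by omega
    have h3 : 2 * (J : ℝ) / ε ≤ ((J + (K + ⌈2 * (J : ℝ) / ε⌉₊ + B2) * H : ℕ) : ℝ) :=
      (Nat.le_ceil _).trans (by exact_mod_cast h2)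
    rw [div_le_iff₀ hε] at h3
    linarith
  · have h1 : (K + ⌈2 * (J : ℝ) / ε⌉₊ + B2) * 1 ≤ (K + ⌈2 * (J : ℝ) / ε⌉₊ + B2) * H :=
      Nat.mul_le_mul_left _ hH
    have h2 : (r : ℝ) ^ B2 ≤ (r : ℝ) ^ (J + (K + ⌈2 * (J : ℝ) / ε⌉₊ + B2) * H) :=
      pow_le_pow_right₀ hr1.le (by omega)
    rw [div_le_iff₀ (by positivity)]
    rw [div_lt_iff₀ hρs] at hB2
    nlinarith

theorem ball_stage {n : ℕ} (a : Fin n → ℝ) (ha : a ≠ 0) {r : ℕ} (hr : 2 ≤ r)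
    (T : Finset ((Fin n → ℝ) × ℕ))
    (hT : ∀ t ∈ T, 2 ≤ t.2 ∧ t.1 ≠ 0 ∧ ∀ c : ℚ, t.1 = (c : ℝ) • a → ¬ MulDep r t.2)
    {ε : ℝ} (hε : 0 < ε) :
    ∃ C : ℝ, 0 ≤ C ∧ ∀ d : ℕ → ℕ, (∀ j, d j < r) → ∀ (p : Fin n → ℝ) (ρ : ℝ), 0 < ρ → ρ ≤ 1 →
      ∀ (ρs : ℝ), 0 < ρs → ∀ K : ℕ,
      ∃ (p' : Fin n → ℝ) (ρ' : ℝ) (M : ℕ), 0 < ρ' ∧ ρ' ≤ ρs ∧ ρ' ≤ 1 ∧
        Metric.closedBall p' ρ' ⊆ Metric.closedBall p ρ ∧ K ≤ M ∧
        (∀ x ∈ Metric.closedBall p' ρ',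
          (((range M).filter (fun j => dg r (a ⬝ᵥ x) j ≠ (d j : ℤ))).card : ℝ) ≤ ε * M) ∧
        (∀ x ∈ Metric.closedBall p' ρ', ∀ t ∈ T, ∀ X : ℝ, 1 / ρ ≤ X → X ≤ 1 / ρ' →
          ‖∑ n ∈ Ico (cnt t.2 (1 / ρ)) (cnt t.2 X), ee ((t.2 : ℝ) ^ n * (t.1 ⬝ᵥ x))‖ ≤
            ε * Real.log (X * ρ) + C) := by
  classical
  obtain ⟨v, hav, hv⟩ := exists_dir a ha {b | ∃ t ∈ T, t.1 = b}
    ((T.finite_toSet.image Prod.fst).countable.mono (by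
      rintro b ⟨t, ht, rfl⟩
      exact ⟨t, ht, rfl⟩))
  have hadm : ∀ t ∈ T, 2 ≤ t.2 ∧ Adm r t.2 (t.1 ⬝ᵥ v) := by
    intro t ht
    obtain ⟨h1, h2, h3⟩ := hT t ht
    refine ⟨h1, ?_⟩
    by_cases hc : ∃ c : ℚ, t.1 = (c : ℝ) • a
    · obtain ⟨c, hc⟩ := hc
      have h4 : t.1 ⬝ᵥ v = c := by
        rw [hc, smul_dotProduct, hav, smul_eq_mul, mul_one]
      refine ⟨?_, Or.inr (h3 c hc)⟩
      rw [h4]
      intro h5
      apply h2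
      rw [hc, h5, zero_smul]
    · push Not at hc
      have h4 := hv t.1 ⟨t, ht, rfl⟩ hc
      exact ⟨h4.ne_zero, Or.inl h4⟩
  obtain ⟨H, CH, hH, hCH, hiter⟩ := iterX hr T (fun t => t.1 ⬝ᵥ v) (fun t => t.2) hadm
    (half_pos hε)
  set V := ‖v‖ with hV
  have hV0 : 0 ≤ V := norm_nonneg _
  set κ := max 1 (4 * V) with hκ
  have hκ1 : 1 ≤ κ := le_max_left _ _
  have hκV : 4 * V ≤ κ := le_max_right _ _
  set A := ∑ i, |a i| with hA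
  have hA0 : 0 ≤ A := Finset.sum_nonneg fun i _ => abs_nonneg _
  set κ' := 1 / (4 * (A + 1)) with hκ'
  have hκ'0 : 0 < κ' := by positivity
  have hκ'4 : κ' ≤ 1 / 4 := by
    rw [hκ', div_le_div_iff₀ (by positivity) (by norm_num)]
    linarith
  have hAκ' : A * κ' < 1 / 4 := by
    rw [hκ', mul_one_div, div_lt_div_iff₀ (by positivity) (by norm_num)]
    linarith
  have hκ'inv : 1 ≤ 1 / κ' := by
    rw [le_div_iff₀ hκ'0]
    linarith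
  set L := ∑ t ∈ T, ∑ i, |t.1 i| with hL
  have hL0 : 0 ≤ L := Finset.sum_nonneg fun t _ => Finset.sum_nonneg fun i _ => abs_nonneg _
  have hr1 : (1 : ℝ) < r := by exact_mod_cast (by omega : 1 < r)
  have hr0 : (0 : ℝ) < r := by linarith
  have hrκ : 1 ≤ (r : ℝ) * κ := by nlinarith
  have hlog1 : 0 ≤ Real.log (r * κ) := Real.log_nonneg hrκ
  have hlog2 : 0 ≤ Real.log (1 / κ') := Real.log_nonneg hκ'inv
  refine ⟨2 * Real.log (r * κ) + 2 * Real.log (1 / κ') + 2 + CH + 4 * π * L, by positivity, ?_⟩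
  intro d hd p ρ hρ hρ1 ρs hρs K
  obtain ⟨J, hJ1, hJ2⟩ := exists_scale hr hκ1 hρ hρ1
  obtain ⟨B, hBK, hBJ, hBρ⟩ := exists_B hr hH J K (κ' := κ') hε hρs
  set y0 := a ⬝ᵥ p with hy0
  set m0 : ℤ := ⌊y0 * (r : ℝ) ^ J⌋ with hm0
  set p0 := p - y0 • v with hp0
  have hap0 : a ⬝ᵥ p0 = 0 := by
    rw [hp0, dotProduct_sub, dotProduct_smul, hav, smul_eq_mul, mul_one, ← hy0, sub_self]
  obtain ⟨m, hm1, hm2, hdig, hsum⟩ := hiter J m0 d hd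
    (fun t n => ee ((t.2 : ℝ) ^ n * (t.1 ⬝ᵥ p0))) (fun t n => (norm_ee _).le) B
  set M := J + B * H with hM
  have hRJ : (0 : ℝ) < (r : ℝ) ^ J := by positivity
  have hRM : (0 : ℝ) < (r : ℝ) ^ M := by positivity
  have hRMJ : (r : ℝ) ^ M = (r : ℝ) ^ J * (r : ℝ) ^ (B * H) := by rw [hM, pow_add]
  have hJM : (r : ℝ) ^ J ≤ (r : ℝ) ^ M := pow_le_pow_right₀ hr1.le (by omega)
  set y1 := ((m : ℝ) + 1 / 2) / (r : ℝ) ^ M with hy1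
  set p' := p0 + y1 • v with hp'
  set ρ' := κ' / (r : ℝ) ^ M with hρ'
  have hap' : a ⬝ᵥ p' = y1 := by
    rw [hp', dotProduct_add, dotProduct_smul, hap0, hav, smul_eq_mul, mul_one, zero_add]
  have hρ'0 : 0 < ρ' := div_pos hκ'0 hRM
  have hRM1 : (1 : ℝ) ≤ (r : ℝ) ^ M := one_le_pow₀ hr1.le
  have hρ'1 : ρ' ≤ 1 := by
    rw [hρ', div_le_iff₀ hRM]
    linarith
  have hρJ : 1 / ρ ≤ (r : ℝ) ^ J := by
    refine le_trans ?_ hJ1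
    exact div_le_div_of_nonneg_right hκ1 hρ.le
  have hρJ' : 1 / (r : ℝ) ^ J ≤ ρ := by
    rw [div_le_iff₀ hRJ]
    rw [div_le_iff₀ hρ] at hρJ
    linarith
  have hVJ : V / (r : ℝ) ^ J ≤ ρ / 4 := by
    rw [div_le_iff₀ hRJ]
    rw [div_le_iff₀ hρ] at hJ1
    nlinarith
  -- the position of `y0`, `y1`
  have q1 : (m0 : ℝ) / (r : ℝ) ^ J ≤ y0 := by
    rw [div_le_iff₀ hRJ]
    exact Int.floor_le _
  have q2 : y0 ≤ ((m0 : ℝ) + 1) / (r : ℝ) ^ J := by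
    rw [le_div_iff₀ hRJ]
    exact (Int.lt_floor_add_one _).le
  have hm1' : (m0 : ℝ) * (r : ℝ) ^ (B * H) ≤ m := by exact_mod_cast hm1
  have hm2' : (m : ℝ) + 1 ≤ ((m0 : ℝ) + 1) * (r : ℝ) ^ (B * H) := by
    have : m + 1 ≤ (m0 + 1) * (r : ℤ) ^ (B * H) := hm2
    exact_mod_cast this
  have q3 : (m0 : ℝ) / (r : ℝ) ^ J ≤ y1 := by
    rw [hy1, hRMJ, div_le_div_iff₀ hRJ (by positivity)]
    have h1 : (m0 : ℝ) * (r : ℝ) ^ (B * H) ≤ (m : ℝ) + 1 / 2 := by linarith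
    have h2 := mul_le_mul_of_nonneg_left h1 hRJ.le
    nlinarith
  have q4 : y1 ≤ ((m0 : ℝ) + 1) / (r : ℝ) ^ J := by
    rw [hy1, hRMJ, div_le_div_iff₀ (by positivity) hRJ]
    have h1 : (m : ℝ) + 1 / 2 ≤ ((m0 : ℝ) + 1) * (r : ℝ) ^ (B * H) := by linarith
    have h2 := mul_le_mul_of_nonneg_left h1 hRJ.le
    nlinarith
  have q5 : |y1 - y0| ≤ 1 / (r : ℝ) ^ J := by
    have h1 : ((m0 : ℝ) + 1) / (r : ℝ) ^ J = (m0 : ℝ) / (r : ℝ) ^ J + 1 / (r : ℝ) ^ J := by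
      rw [add_div]
    rw [abs_le]
    constructor <;> linarith
  have hsub : Metric.closedBall p' ρ' ⊆ Metric.closedBall p ρ := by
    refine Metric.closedBall_subset_closedBall' ?_
    have h1 : p' - p = (y1 - y0) • v := by
      rw [hp', hp0, sub_smul]
      abel
    have h2 : dist p' p ≤ ρ / 4 := by
      rw [dist_eq_norm, h1, norm_smul, Real.norm_eq_abs]
      calc |y1 - y0| * ‖v‖ ≤ 1 / (r : ℝ) ^ J * V := mul_le_mul_of_nonneg_right q5 hV0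
        _ = V / (r : ℝ) ^ J := by ring
        _ ≤ ρ / 4 := hVJ
    have h3 : ρ' ≤ ρ / 4 := by
      calc ρ' ≤ κ' / (r : ℝ) ^ J := div_le_div_of_nonneg_left hκ'0.le hRJ hJM
        _ ≤ (1 / 4) / (r : ℝ) ^ J := div_le_div_of_nonneg_right hκ'4 hRJ.le
        _ = 1 / 4 * (1 / (r : ℝ) ^ J) := by ring
        _ ≤ 1 / 4 * ρ := mul_le_mul_of_nonneg_left hρJ' (by norm_num)
        _ = ρ / 4 := by ring
    linarith
  refine ⟨p', ρ', M, hρ'0, hBρ, hρ'1, hsub, hBK, ?_, ?_⟩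
  · intro x hx
    have hx' : ‖x - p'‖ ≤ ρ' := by
      rw [← dist_eq_norm]
      exact Metric.mem_closedBall.1 hx
    have h1 : |a ⬝ᵥ x - y1| < 1 / 4 / (r : ℝ) ^ M := by
      have h2 : a ⬝ᵥ x - y1 = a ⬝ᵥ (x - p') := by rw [dotProduct_sub, hap']
      rw [h2]
      calc |a ⬝ᵥ (x - p')| ≤ A * ‖x - p'‖ := dot_le _ _
        _ ≤ A * ρ' := mul_le_mul_of_nonneg_left hx' hA0
        _ = A * κ' / (r : ℝ) ^ M := by rw [hρ']; ring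
        _ < 1 / 4 / (r : ℝ) ^ M := div_lt_div_of_pos_right hAκ' hRM
    rw [abs_lt] at h1
    have e1 : y1 = (m : ℝ) / (r : ℝ) ^ M + 1 / 2 / (r : ℝ) ^ M := by rw [hy1, add_div]
    have e2 : ((m : ℝ) + 1) / (r : ℝ) ^ M = (m : ℝ) / (r : ℝ) ^ M + 1 / (r : ℝ) ^ M := by
      rw [add_div]
    have e3 : 1 / 2 / (r : ℝ) ^ M = 1 / 2 * (1 / (r : ℝ) ^ M) := by ring
    have e4 : 1 / 4 / (r : ℝ) ^ M = 1 / 4 * (1 / (r : ℝ) ^ M) := by ring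
    have e5 : 0 < 1 / (r : ℝ) ^ M := by positivity
    have h3 : (m : ℝ) / (r : ℝ) ^ M ≤ a ⬝ᵥ x := by
      rw [e1, e3, e4] at h1
      linarith [h1.1]
    have h4 : a ⬝ᵥ x < ((m : ℝ) + 1) / (r : ℝ) ^ M := by
      rw [e1, e3, e4] at h1
      rw [e2]
      linarith [h1.2]
    have h5 : (range M).filter (fun j => dg r (a ⬝ᵥ x) j ≠ (d j : ℤ)) ⊆
        range J ∪ (Ico J M).filter (fun j => di r M m j ≠ (d j : ℤ)) := by
      intro j hj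
      rw [Finset.mem_filter, Finset.mem_range] at hj
      rw [Finset.mem_union, Finset.mem_range, Finset.mem_filter, Finset.mem_Ico]
      rcases Nat.lt_or_ge j J with hjJ | hjJ
      · exact Or.inl hjJ
      · refine Or.inr ⟨⟨hjJ, hj.1⟩, ?_⟩
        rw [← dg_eq_di hr h3 h4 hj.1]
        exact hj.2
    have h6 := (Finset.card_le_card h5).trans (Finset.card_union_le _ _)
    rw [Finset.card_range] at h6
    have h7 : (((range M).filter (fun j => dg r (a ⬝ᵥ x) j ≠ (d j : ℤ))).card : ℝ) ≤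
        (J : ℝ) + (((Ico J M).filter (fun j => di r M m j ≠ (d j : ℤ))).card : ℝ) := by
      exact_mod_cast h6
    have h8 : ((B * H : ℕ) : ℝ) ≤ (M : ℝ) := by
      have : B * H ≤ M := by omega
      exact_mod_cast this
    have h9 := mul_le_mul_of_nonneg_left h8 (half_pos hε).le
    linarith
  · intro x hx t ht X hX1 hX2
    have hx' : ‖x - p'‖ ≤ ρ' := by
      rw [← dist_eq_norm]
      exact Metric.mem_closedBall.1 hx
    have hs := (hT t ht).1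
    have hρinv : 0 < 1 / ρ := by positivity
    have hX0 : 0 < X := hρinv.trans_le hX1
    have hXρ : 1 ≤ X * ρ := by
      rw [div_le_iff₀ hρ] at hX1
      exact hX1
    have hlogX : 0 ≤ Real.log (X * ρ) := Real.log_nonneg hXρ
    have hXM : X ≤ 1 / κ' * (r : ℝ) ^ M := by
      refine hX2.trans (le_of_eq ?_)
      rw [hρ']
      field_simp
    have hJρ : (r : ℝ) ^ J / (1 / ρ) ≤ r * κ := by
      rw [div_div_eq_mul_div, div_one]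
      rw [lt_div_iff₀ hρ] at hJ2
      exact hJ2.le
    have hLt : ∑ i, |t.1 i| ≤ L := by
      rw [hL]
      exact Finset.single_le_sum (f := fun t : (Fin n → ℝ) × ℕ => ∑ i, |t.1 i|)
        (fun t _ => Finset.sum_nonneg fun i _ => abs_nonneg _) ht
    have hLt0 : 0 ≤ ∑ i, |t.1 i| := Finset.sum_nonneg fun i _ => abs_nonneg _
    have hmid : ∀ Y, (r : ℝ) ^ J ≤ Y → Y ≤ (r : ℝ) ^ M → Y ≤ X →
        ‖∑ n ∈ Ico (cnt t.2 ((r : ℝ) ^ J)) (cnt t.2 Y), ee ((t.2 : ℝ) ^ n * (t.1 ⬝ᵥ x))‖ ≤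
          ε / 2 * Real.log (X * ρ) + CH + 4 * π * L := by
      intro Y hY1 hY2 hY3
      have hY0 : 0 < Y := hRJ.trans_le hY1
      have h1 : |t.1 ⬝ᵥ x - t.1 ⬝ᵥ p'| ≤ (∑ i, |t.1 i|) * ρ' := by
        rw [← dotProduct_sub]
        exact (dot_le _ _).trans (mul_le_mul_of_nonneg_left hx' hLt0)
      have h2 := near_sum hs hY0.le (cnt t.2 ((r : ℝ) ^ J)) h1
      have h3 : ∑ n ∈ Ico (cnt t.2 ((r : ℝ) ^ J)) (cnt t.2 Y), ee ((t.2 : ℝ) ^ n * (t.1 ⬝ᵥ p')) =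
          ∑ n ∈ Ico (cnt t.2 ((r : ℝ) ^ J)) (cnt t.2 Y),
            ee ((t.2 : ℝ) ^ n * (t.1 ⬝ᵥ p0)) * ee ((t.1 ⬝ᵥ v) * (t.2 : ℝ) ^ n * y1) := by
        refine Finset.sum_congr rfl fun n _ => ?_
        rw [← ee_add, hp', dotProduct_add, dotProduct_smul, smul_eq_mul]
        congr 1
        ring
      have h4 := hsum t ht y1 (by
          rw [hy1]
          exact div_le_div_of_nonneg_right (by linarith) hRM.le) (by
          rw [hy1]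
          exact div_le_div_of_nonneg_right (by linarith) hRM.le) Y hY1 hY2
      rw [← h3] at h4
      have h5 : Real.log (Y / (r : ℝ) ^ J) ≤ Real.log (X * ρ) := by
        refine Real.log_le_log (div_pos hY0 hRJ) ?_
        calc Y / (r : ℝ) ^ J = Y * (1 / (r : ℝ) ^ J) := by ring
          _ ≤ X * ρ := mul_le_mul hY3 hρJ' (by positivity) hX0.le
      have h6 : 4 * π * ((∑ i, |t.1 i|) * ρ') * Y ≤ 4 * π * L := by
        have h7 : ρ' * Y ≤ 1 := by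
          have h8 : ρ' * Y ≤ ρ' * X := mul_le_mul_of_nonneg_left hY3 hρ'0.le
          rw [le_div_iff₀ hρ'0] at hX2
          linarith
        have h9 : (∑ i, |t.1 i|) * (ρ' * Y) ≤ L * 1 :=
          mul_le_mul hLt h7 (by positivity) hL0
        have hπ : 0 ≤ 4 * π := by positivity
        calc 4 * π * ((∑ i, |t.1 i|) * ρ') * Y = 4 * π * ((∑ i, |t.1 i|) * (ρ' * Y)) := by ring
          _ ≤ 4 * π * (L * 1) := mul_le_mul_of_nonneg_left h9 hπ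
          _ = 4 * π * L := by ring
      have h10 := mul_le_mul_of_nonneg_left h5 (half_pos hε).le
      linarith
    have hfin := split_sum hs hρinv hρJ hJM hX1
      (fun n => ee ((t.2 : ℝ) ^ n * (t.1 ⬝ᵥ x))) (fun n => (norm_ee _).le)
      (E := ε / 2 * Real.log (X * ρ) + CH + 4 * π * L) (by positivity) hmid hJρ hκ'inv hXM
    refine hfin.trans ?_
    have := mul_nonneg (half_pos hε).le hlogX
    linarith

end MP798203.AB
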