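import Pool.Agent.Lib.MP_798203_nt.AB.IterJ
import Pool.Agent.Lib.MP_798203_nt.AB.Ball

/-!
A stage in `ℝ^n` with `m` pinned forms (compare `ball_stage` and its proof in `Ball.lean`; `exists_scale`, `dot_le` are there).
`β t i = t.1 ⬝ᵥ v i`; `iterJ` with `ε/2`: `H, C_H`. `V = ∑_j ‖v j‖` (`m ≥ 1`, `V > 0`), `κ = max 1 (4V)`, `A₁ = ∑_i ∑_l |a i l|`, `κ' = 1/(4(A₁+1))`,
`C = 2 log (rκ) + 2 log (1/κ') + 4 + C_H + 4π ∑_{t∈T} ∑_l |t.1 l|`.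
Given `d, p, ρ, ρs`: `J` with `κ/ρ ≤ r^J < rκ/ρ`, `y0 i = a i ⬝ᵥ p`, `z0 i = ⌊y0 i r^J⌋`, `p0 = p - ∑_i y0 i • v i` (`a i ⬝ᵥ p0 = 0`),
`φ t n = ee (t.2^n (t.1 ⬝ᵥ p0))`; `B` large; `z` from `iterJ`; `M = J + B H`, `y1 i = (z i + 1/2)/r^M`, `p' = p0 + ∑ y1 i • v i`, `ρ' = κ'/r^M`.
(a) the balls are nested: `‖p' - p‖ ≤ V / r^J ≤ ρ/4`. (b) for `x` in the small ball `|a i ⬝ᵥ x - y1 i| ≤ A₁ ρ' < 1/(4 r^M)`, so `dg r (a i ⬝ᵥ x) j = di r M (z i) j` for `j < M`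
(`dg_eq_di`). Digits for `1/ρ ≤ X ≤ 1/ρ'`: the positions in `Ico (cnt r (1/ρ)) (cnt r X)` below `J = cnt r (r^J)` (`cnt_pow`): at most `2 log (r^J ρ) + 1 ≤ 2 log (rκ) + 1`
(`cnt_diff`); those in `Ico J (cnt r (min X r^M))`: `iterJ`; those above `M`: at most `2 log (X/r^M) + 1 ≤ 2 log (1/κ') + 1`. (c) sums: as in `Ball.lean`.
-/

namespace MP798203.AB

open Real Finset

/-- splitting a sum over scales at `RJ` and `RM` -/
private theorem split_sumJ {s : ℕ} (hs : 2 ≤ s) {X0 RJ RM X : ℝ} (hX0 : 0 < X0) (h01 : X0 ≤ RJ)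
    (hJM : RJ ≤ RM) (hX : X0 ≤ X) (f : ℕ → ℂ) (hf : ∀ n, ‖f n‖ ≤ 1) {E : ℝ} (hE : 0 ≤ E)
    (hmid : ∀ Y, RJ ≤ Y → Y ≤ RM → Y ≤ X → ‖∑ n ∈ Ico (cnt s RJ) (cnt s Y), f n‖ ≤ E)
    {k1 k2 : ℝ} (hk1 : RJ / X0 ≤ k1) (hk2 : 1 ≤ k2) (hX2 : X ≤ k2 * RM) :
    ‖∑ n ∈ Ico (cnt s X0) (cnt s X), f n‖ ≤ 2 * Real.log k1 + 1 + E + (2 * Real.log k2 + 1) := by
  set Y1 := min X RJ with hY1
  set Y2 := min X RM with hY2
  have hRJ : 0 < RJ := hX0.trans_le h01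
  have hRM : 0 < RM := hRJ.trans_le hJM
  have hXpos : 0 < X := hX0.trans_le hX
  have a1 : X0 ≤ Y1 := le_min hX h01
  have a2 : Y1 ≤ Y2 := min_le_min_left X hJM
  have a3 : Y2 ≤ X := min_le_left _ _
  have hY1pos : 0 < Y1 := hX0.trans_le a1
  have hY2pos : 0 < Y2 := hY1pos.trans_le a2
  have e1 : ∑ n ∈ Ico (cnt s X0) (cnt s X), f n =
      ∑ n ∈ Ico (cnt s X0) (cnt s Y1), f n + ∑ n ∈ Ico (cnt s Y1) (cnt s Y2), f n +
        ∑ n ∈ Ico (cnt s Y2) (cnt s X), f n := by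
    rw [Finset.sum_Ico_consecutive f (cnt_mono hs a1) (cnt_mono hs a2),
      Finset.sum_Ico_consecutive f ((cnt_mono hs a1).trans (cnt_mono hs a2)) (cnt_mono hs a3)]
  have b1 : ‖∑ n ∈ Ico (cnt s X0) (cnt s Y1), f n‖ ≤ 2 * Real.log k1 + 1 := by
    refine (norm_sum_cnt_le hs hX0 a1 f hf).trans ?_
    have h1 : Y1 / X0 ≤ k1 :=
      (div_le_div_of_nonneg_right (min_le_right X RJ) hX0.le).trans hk1
    have h2 : Real.log (Y1 / X0) ≤ Real.log k1 := Real.log_le_log (div_pos hY1pos hX0) h1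
    linarith
  have b2 : ‖∑ n ∈ Ico (cnt s Y1) (cnt s Y2), f n‖ ≤ E := by
    rcases le_total X RJ with h | h
    · have h1 : Y1 = X := min_eq_left h
      have h2 : Y2 = X := min_eq_left (h.trans hJM)
      rw [h1, h2, Finset.Ico_self, Finset.sum_empty, norm_zero]
      exact hE
    · have h1 : Y1 = RJ := min_eq_right h
      rw [h1]
      exact hmid Y2 (by rw [← h1]; exact a2) (min_le_right _ _) a3
  have b3 : ‖∑ n ∈ Ico (cnt s Y2) (cnt s X), f n‖ ≤ 2 * Real.log k2 + 1 := by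
    refine (norm_sum_cnt_le hs hY2pos a3 f hf).trans ?_
    have h1 : X / Y2 ≤ k2 := by
      rw [div_le_iff₀ hY2pos]
      rcases le_total X RM with h | h
      · have h2 : Y2 = X := min_eq_left h
        rw [h2]
        nlinarith
      · have h2 : Y2 = RM := min_eq_right h
        rw [h2]
        exact hX2
    have h2 : Real.log (X / Y2) ≤ Real.log k2 := Real.log_le_log (div_pos hXpos hY2pos) h1
    linarith
  rw [e1]
  refine (norm_add_le _ _).trans ?_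
  have := norm_add_le (∑ n ∈ Ico (cnt s X0) (cnt s Y1), f n)
    (∑ n ∈ Ico (cnt s Y1) (cnt s Y2), f n)
  linarith

/-- comparison of the exponential sums at two near points -/
private theorem near_sumJ {s : ℕ} (hs : 2 ≤ s) {Y : ℝ} (hY : 0 ≤ Y) (N0 : ℕ) {u w δ : ℝ}
    (h : |u - w| ≤ δ) :
    ‖∑ n ∈ Ico N0 (cnt s Y), ee ((s : ℝ) ^ n * u)‖ ≤
      ‖∑ n ∈ Ico N0 (cnt s Y), ee ((s : ℝ) ^ n * w)‖ + 4 * π * δ * Y := by
  have hδ : 0 ≤ δ := (abs_nonneg _).trans h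
  have h1 : ‖∑ n ∈ Ico N0 (cnt s Y), ee ((s : ℝ) ^ n * u) -
      ∑ n ∈ Ico N0 (cnt s Y), ee ((s : ℝ) ^ n * w)‖ ≤ 4 * π * δ * Y := by
    rw [← Finset.sum_sub_distrib]
    calc ‖∑ n ∈ Ico N0 (cnt s Y), (ee ((s : ℝ) ^ n * u) - ee ((s : ℝ) ^ n * w))‖
        ≤ ∑ n ∈ Ico N0 (cnt s Y), ‖ee ((s : ℝ) ^ n * u) - ee ((s : ℝ) ^ n * w)‖ :=
          norm_sum_le _ _
      _ ≤ ∑ n ∈ Ico N0 (cnt s Y), 2 * π * δ * (s : ℝ) ^ n := by
          refine Finset.sum_le_sum fun n _ => ?_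
          refine (norm_ee_sub_le _ _).trans ?_
          have h2 : |(s : ℝ) ^ n * u - (s : ℝ) ^ n * w| ≤ (s : ℝ) ^ n * δ := by
            rw [← mul_sub, abs_mul, abs_of_nonneg (by positivity : (0 : ℝ) ≤ (s : ℝ) ^ n)]
            exact mul_le_mul_of_nonneg_left h (by positivity)
          calc 2 * π * |(s : ℝ) ^ n * u - (s : ℝ) ^ n * w| ≤ 2 * π * ((s : ℝ) ^ n * δ) :=
                mul_le_mul_of_nonneg_left h2 (by positivity)
            _ = 2 * π * δ * (s : ℝ) ^ n := by ring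
      _ ≤ ∑ n ∈ range (cnt s Y), 2 * π * δ * (s : ℝ) ^ n := by
          refine Finset.sum_le_sum_of_subset_of_nonneg ?_ (fun n _ _ => by positivity)
          intro n hn
          rw [Finset.mem_Ico] at hn
          exact Finset.mem_range.2 hn.2
      _ = 2 * π * δ * ∑ n ∈ range (cnt s Y), (s : ℝ) ^ n := by rw [Finset.mul_sum]
      _ ≤ 2 * π * δ * (2 * Y) :=
          mul_le_mul_of_nonneg_left (sum_pow_le hs hY) (by positivity)
      _ = 4 * π * δ * Y := by ring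
  have h2 := norm_sub_norm_le (∑ n ∈ Ico N0 (cnt s Y), ee ((s : ℝ) ^ n * u))
    (∑ n ∈ Ico N0 (cnt s Y), ee ((s : ℝ) ^ n * w))
  linarith

/-- the size of the new scale -/
private theorem exists_BJ {r : ℕ} (hr : 2 ≤ r) {H : ℕ} (hH : 0 < H) (J : ℕ) {κ' ρs : ℝ}
    (hρs : 0 < ρs) : ∃ B : ℕ, κ' / (r : ℝ) ^ (J + B * H) ≤ ρs := by
  have hr1 : (1 : ℝ) < r := by exact_mod_cast (by omega : 1 < r)
  obtain ⟨B2, hB2⟩ := pow_unbounded_of_one_lt (κ' / ρs) hr1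
  refine ⟨B2, ?_⟩
  have h1 : B2 * 1 ≤ B2 * H := Nat.mul_le_mul_left _ hH
  have h2 : (r : ℝ) ^ B2 ≤ (r : ℝ) ^ (J + B2 * H) := pow_le_pow_right₀ hr1.le (by omega)
  rw [div_le_iff₀ (by positivity)]
  rw [div_lt_iff₀ hρs] at hB2
  nlinarith

/-- splitting a count over scales at `RJ` and `RM` -/
private theorem split_cardJ {s : ℕ} (hs : 2 ≤ s) {X0 RJ RM X : ℝ} (hX0 : 0 < X0) (h01 : X0 ≤ RJ)
    (hJM : RJ ≤ RM) (hX : X0 ≤ X) (P : ℕ → Prop) [DecidablePred P] {E : ℝ} (hE : 0 ≤ E)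
    (hmid : ∀ Y, RJ ≤ Y → Y ≤ RM → Y ≤ X →
      (((Ico (cnt s RJ) (cnt s Y)).filter P).card : ℝ) ≤ E)
    {k1 k2 : ℝ} (hk1 : RJ / X0 ≤ k1) (hk2 : 1 ≤ k2) (hX2 : X ≤ k2 * RM) :
    (((Ico (cnt s X0) (cnt s X)).filter P).card : ℝ) ≤
      2 * Real.log k1 + 1 + E + (2 * Real.log k2 + 1) := by
  have e0 : ∀ a b : ℕ, (((Ico a b).filter P).card : ℝ) =
      ‖∑ n ∈ Ico a b, (if P n then (1 : ℂ) else 0)‖ := by
    intro a b
    rw [Finset.sum_ite, Finset.sum_const_zero, add_zero, Finset.sum_const, nsmul_eq_mul, mul_one,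
      Complex.norm_natCast]
  rw [e0]
  refine split_sumJ hs hX0 h01 hJM hX _ ?_ hE ?_ hk1 hk2 hX2
  · intro n
    split_ifs
    · simp
    · simp
  · intro Y h1 h2 h3
    rw [← e0]
    exact hmid Y h1 h2 h3

theorem ball_stageJ {n m : ℕ} (hm : 0 < m) (a v : Fin m → Fin n → ℝ)
    (hv : ∀ i j, a i ⬝ᵥ v j = if i = j then 1 else 0) {r : ℕ} (hr : 2 ≤ r)
    (T : Finset ((Fin n → ℝ) × ℕ)) (hT : ∀ t ∈ T, 2 ≤ t.2 ∧ ∃ i, Adm r t.2 (t.1 ⬝ᵥ v i))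
    {ε : ℝ} (hε : 0 < ε) :
    ∃ C : ℝ, 0 ≤ C ∧ ∀ d : Fin m → ℕ → ℕ, (∀ i j, d i j < r) → ∀ (p : Fin n → ℝ) (ρ : ℝ), 0 < ρ →
      ρ ≤ 1 → ∀ (ρs : ℝ), 0 < ρs →
      ∃ (p' : Fin n → ℝ) (ρ' : ℝ), 0 < ρ' ∧ ρ' ≤ ρs ∧ ρ' ≤ 1 ∧
        Metric.closedBall p' ρ' ⊆ Metric.closedBall p ρ ∧
        (∀ x ∈ Metric.closedBall p' ρ', ∀ i, ∀ X : ℝ, 1 / ρ ≤ X → X ≤ 1 / ρ' →
          (((Ico (cnt r (1 / ρ)) (cnt r X)).filter
            (fun j => dg r (a i ⬝ᵥ x) j ≠ (d i j : ℤ))).card : ℝ) ≤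
              ε * Real.log (X * ρ) + C) ∧
        (∀ x ∈ Metric.closedBall p' ρ', ∀ t ∈ T, ∀ X : ℝ, 1 / ρ ≤ X → X ≤ 1 / ρ' →
          ‖∑ n ∈ Ico (cnt t.2 (1 / ρ)) (cnt t.2 X), ee ((t.2 : ℝ) ^ n * (t.1 ⬝ᵥ x))‖ ≤
            ε * Real.log (X * ρ) + C) := by
  classical
  obtain ⟨H, CH, hH, hCH, hiter⟩ := iterJ hr T (fun t i => t.1 ⬝ᵥ v i) (fun t => t.2) hT
    (half_pos hε)
  set V := ∑ j, ‖v j‖ with hV
  have hV0 : 0 ≤ V := Finset.sum_nonneg fun j _ => norm_nonneg _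
  set κ := max 1 (4 * V) with hκ
  have hκ1 : 1 ≤ κ := le_max_left _ _
  have hκV : 4 * V ≤ κ := le_max_right _ _
  set A := ∑ i, ∑ l, |a i l| with hA
  have hA0 : 0 ≤ A := Finset.sum_nonneg fun i _ => Finset.sum_nonneg fun l _ => abs_nonneg _
  have hAi : ∀ i, ∑ l, |a i l| ≤ A := fun i =>
    Finset.single_le_sum (f := fun i => ∑ l, |a i l|)
      (fun i _ => Finset.sum_nonneg fun l _ => abs_nonneg _) (Finset.mem_univ i)
  set κ' := 1 / (4 * (A + 1)) with hκ'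
  have hκ'0 : 0 < κ' := by positivity
  have hκ'4 : κ' ≤ 1 / 4 := by
    rw [hκ', div_le_div_iff₀ (by positivity) (by norm_num)]
    linarith
  have hAκ' : A * κ' < 1 / 4 := by
    rw [hκ', mul_one_div, div_lt_div_iff₀ (by positivity) (by norm_num)]
    linarith
  have hκ'inv : 1 ≤ 1 / κ' := by
    rw [le_div_iff₀ hκ'0]
    linarith
  set L := ∑ t ∈ T, ∑ i, |t.1 i| with hL
  have hL0 : 0 ≤ L := Finset.sum_nonneg fun t _ => Finset.sum_nonneg fun i _ => abs_nonneg _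
  have hr1 : (1 : ℝ) < r := by exact_mod_cast (by omega : 1 < r)
  have hr0 : (0 : ℝ) < r := by linarith
  have hrκ : 1 ≤ (r : ℝ) * κ := by nlinarith
  have hlog1 : 0 ≤ Real.log (r * κ) := Real.log_nonneg hrκ
  have hlog2 : 0 ≤ Real.log (1 / κ') := Real.log_nonneg hκ'inv
  refine ⟨2 * Real.log (r * κ) + 2 * Real.log (1 / κ') + 4 + CH + 4 * π * L, by positivity, ?_⟩
  intro d hd p ρ hρ hρ1 ρs hρs
  obtain ⟨J, hJ1, hJ2⟩ := exists_scale hr hκ1 hρ hρ1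
  obtain ⟨B, hBρ⟩ := exists_BJ hr hH J (κ' := κ') hρs
  set y0 : Fin m → ℝ := fun i => a i ⬝ᵥ p with hy0
  set z0 : Fin m → ℤ := fun i => ⌊y0 i * (r : ℝ) ^ J⌋ with hz0
  have hdot : ∀ (b : Fin n → ℝ) (y : Fin m → ℝ), b ⬝ᵥ (∑ i, y i • v i) =
      ∑ i, (b ⬝ᵥ v i) * y i := by
    intro b y
    rw [dotProduct_sum]
    refine Finset.sum_congr rfl fun i _ => ?_
    rw [dotProduct_smul, smul_eq_mul, mul_comm]
  have hav : ∀ (i : Fin m) (y : Fin m → ℝ), a i ⬝ᵥ (∑ j, y j • v j) = y i := by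
    intro i y
    rw [hdot, Finset.sum_eq_single i]
    · rw [hv i i, if_pos rfl, one_mul]
    · intro j _ hj
      rw [hv i j, if_neg (Ne.symm hj), zero_mul]
    · intro h
      exact absurd (Finset.mem_univ i) h
  set p0 := p - ∑ i, y0 i • v i with hp0
  have hap0 : ∀ i, a i ⬝ᵥ p0 = 0 := by
    intro i
    rw [hp0, dotProduct_sub, hav, sub_self]
  obtain ⟨z, hz, hdig, hsum⟩ := hiter J z0 d hd
    (fun t n => ee ((t.2 : ℝ) ^ n * (t.1 ⬝ᵥ p0))) (fun t n => (norm_ee _).le) B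
  set M := J + B * H with hM
  have hRJ : (0 : ℝ) < (r : ℝ) ^ J := by positivity
  have hRM : (0 : ℝ) < (r : ℝ) ^ M := by positivity
  have hRMJ : (r : ℝ) ^ M = (r : ℝ) ^ J * (r : ℝ) ^ (B * H) := by rw [hM, pow_add]
  have hJM : (r : ℝ) ^ J ≤ (r : ℝ) ^ M := pow_le_pow_right₀ hr1.le (by omega)
  set y1 : Fin m → ℝ := fun i => ((z i : ℝ) + 1 / 2) / (r : ℝ) ^ M with hy1
  set p' := p0 + ∑ i, y1 i • v i with hp'
  set ρ' := κ' / (r : ℝ) ^ M with hρ'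
  have hap' : ∀ i, a i ⬝ᵥ p' = y1 i := by
    intro i
    rw [hp', dotProduct_add, hap0, hav, zero_add]
  have hρ'0 : 0 < ρ' := div_pos hκ'0 hRM
  have hRM1 : (1 : ℝ) ≤ (r : ℝ) ^ M := one_le_pow₀ hr1.le
  have hρ'1 : ρ' ≤ 1 := by
    rw [hρ', div_le_iff₀ hRM]
    linarith
  have hρJ : 1 / ρ ≤ (r : ℝ) ^ J := by
    refine le_trans ?_ hJ1
    exact div_le_div_of_nonneg_right hκ1 hρ.le
  have hρJ' : 1 / (r : ℝ) ^ J ≤ ρ := by
    rw [div_le_iff₀ hRJ]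
    rw [div_le_iff₀ hρ] at hρJ
    linarith
  have hVJ : V / (r : ℝ) ^ J ≤ ρ / 4 := by
    rw [div_le_iff₀ hRJ]
    rw [div_le_iff₀ hρ] at hJ1
    nlinarith
  -- the position of `y0`, `y1`
  have q5 : ∀ i, |y1 i - y0 i| ≤ 1 / (r : ℝ) ^ J := by
    intro i
    have q1 : (z0 i : ℝ) / (r : ℝ) ^ J ≤ y0 i := by
      rw [div_le_iff₀ hRJ]
      exact Int.floor_le _
    have q2 : y0 i ≤ ((z0 i : ℝ) + 1) / (r : ℝ) ^ J := by
      rw [le_div_iff₀ hRJ]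
      exact (Int.lt_floor_add_one _).le
    have hm1' : (z0 i : ℝ) * (r : ℝ) ^ (B * H) ≤ z i := by exact_mod_cast (hz i).1
    have hm2' : (z i : ℝ) + 1 ≤ ((z0 i : ℝ) + 1) * (r : ℝ) ^ (B * H) := by
      have : z i + 1 ≤ (z0 i + 1) * (r : ℤ) ^ (B * H) := (hz i).2
      exact_mod_cast this
    have q3 : (z0 i : ℝ) / (r : ℝ) ^ J ≤ y1 i := by
      show (z0 i : ℝ) / (r : ℝ) ^ J ≤ ((z i : ℝ) + 1 / 2) / (r : ℝ) ^ M
      rw [hRMJ, div_le_div_iff₀ hRJ (by positivity)]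
      have h1 : (z0 i : ℝ) * (r : ℝ) ^ (B * H) ≤ (z i : ℝ) + 1 / 2 := by linarith
      have h2 := mul_le_mul_of_nonneg_left h1 hRJ.le
      nlinarith
    have q4 : y1 i ≤ ((z0 i : ℝ) + 1) / (r : ℝ) ^ J := by
      show ((z i : ℝ) + 1 / 2) / (r : ℝ) ^ M ≤ ((z0 i : ℝ) + 1) / (r : ℝ) ^ J
      rw [hRMJ, div_le_div_iff₀ (by positivity) hRJ]
      have h1 : (z i : ℝ) + 1 / 2 ≤ ((z0 i : ℝ) + 1) * (r : ℝ) ^ (B * H) := by linarith
      have h2 := mul_le_mul_of_nonneg_left h1 hRJ.le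
      nlinarith
    have h1 : ((z0 i : ℝ) + 1) / (r : ℝ) ^ J = (z0 i : ℝ) / (r : ℝ) ^ J + 1 / (r : ℝ) ^ J := by
      rw [add_div]
    rw [abs_le]
    constructor <;> linarith
  have hsub : Metric.closedBall p' ρ' ⊆ Metric.closedBall p ρ := by
    refine Metric.closedBall_subset_closedBall' ?_
    have h1 : p' - p = ∑ i, (y1 i - y0 i) • v i := by
      have h0 : ∑ i, (y1 i - y0 i) • v i = ∑ i, y1 i • v i - ∑ i, y0 i • v i := by
        rw [← Finset.sum_sub_distrib]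
        exact Finset.sum_congr rfl fun i _ => sub_smul _ _ _
      rw [h0, hp', hp0]
      abel
    have h2 : dist p' p ≤ ρ / 4 := by
      rw [dist_eq_norm, h1]
      calc ‖∑ i, (y1 i - y0 i) • v i‖ ≤ ∑ i, ‖(y1 i - y0 i) • v i‖ := norm_sum_le _ _
        _ ≤ ∑ i, 1 / (r : ℝ) ^ J * ‖v i‖ := by
            refine Finset.sum_le_sum fun i _ => ?_
            rw [norm_smul, Real.norm_eq_abs]
            exact mul_le_mul_of_nonneg_right (q5 i) (norm_nonneg _)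
        _ = V / (r : ℝ) ^ J := by rw [← Finset.mul_sum, ← hV]; ring
        _ ≤ ρ / 4 := hVJ
    have h3 : ρ' ≤ ρ / 4 := by
      calc ρ' ≤ κ' / (r : ℝ) ^ J := div_le_div_of_nonneg_left hκ'0.le hRJ hJM
        _ ≤ (1 / 4) / (r : ℝ) ^ J := div_le_div_of_nonneg_right hκ'4 hRJ.le
        _ = 1 / 4 * (1 / (r : ℝ) ^ J) := by ring
        _ ≤ 1 / 4 * ρ := mul_le_mul_of_nonneg_left hρJ' (by norm_num)
        _ = ρ / 4 := by ring
    linarith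
  have hρinv : 0 < 1 / ρ := by positivity
  have hJρ : (r : ℝ) ^ J / (1 / ρ) ≤ r * κ := by
    rw [div_div_eq_mul_div, div_one]
    rw [lt_div_iff₀ hρ] at hJ2
    exact hJ2.le
  have hlogY : ∀ X Y : ℝ, (r : ℝ) ^ J ≤ Y → Y ≤ X →
      Real.log (Y / (r : ℝ) ^ J) ≤ Real.log (X * ρ) := by
    intro X Y hY1 hY3
    have hY0 : 0 < Y := hRJ.trans_le hY1
    refine Real.log_le_log (div_pos hY0 hRJ) ?_
    calc Y / (r : ℝ) ^ J = Y * (1 / (r : ℝ) ^ J) := by ring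
      _ ≤ X * ρ := mul_le_mul hY3 hρJ' (by positivity) (hY0.le.trans hY3)
  refine ⟨p', ρ', hρ'0, hBρ, hρ'1, hsub, ?_, ?_⟩
  · intro x hx i X hX1 hX2
    have hx' : ‖x - p'‖ ≤ ρ' := by
      rw [← dist_eq_norm]
      exact Metric.mem_closedBall.1 hx
    have hX0 : 0 < X := hρinv.trans_le hX1
    have hXρ : 1 ≤ X * ρ := by
      rw [div_le_iff₀ hρ] at hX1
      exact hX1
    have hlogX : 0 ≤ Real.log (X * ρ) := Real.log_nonneg hXρ
    have hXM : X ≤ 1 / κ' * (r : ℝ) ^ M := by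
      refine hX2.trans (le_of_eq ?_)
      rw [hρ']
      field_simp
    have h1 : |a i ⬝ᵥ x - y1 i| < 1 / 4 / (r : ℝ) ^ M := by
      have h2 : a i ⬝ᵥ x - y1 i = a i ⬝ᵥ (x - p') := by rw [dotProduct_sub, hap']
      rw [h2]
      calc |a i ⬝ᵥ (x - p')| ≤ (∑ l, |a i l|) * ‖x - p'‖ := dot_le _ _
        _ ≤ A * ‖x - p'‖ := mul_le_mul_of_nonneg_right (hAi i) (norm_nonneg _)
        _ ≤ A * ρ' := mul_le_mul_of_nonneg_left hx' hA0
        _ = A * κ' / (r : ℝ) ^ M := by rw [hρ']; ring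
        _ < 1 / 4 / (r : ℝ) ^ M := div_lt_div_of_pos_right hAκ' hRM
    rw [abs_lt] at h1
    have e1 : y1 i = (z i : ℝ) / (r : ℝ) ^ M + 1 / 2 / (r : ℝ) ^ M := by
      show ((z i : ℝ) + 1 / 2) / (r : ℝ) ^ M = _
      rw [add_div]
    have e2 : ((z i : ℝ) + 1) / (r : ℝ) ^ M = (z i : ℝ) / (r : ℝ) ^ M + 1 / (r : ℝ) ^ M := by
      rw [add_div]
    have e3 : 1 / 2 / (r : ℝ) ^ M = 1 / 2 * (1 / (r : ℝ) ^ M) := by ring
    have e4 : 1 / 4 / (r : ℝ) ^ M = 1 / 4 * (1 / (r : ℝ) ^ M) := by ring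
    have e5 : 0 < 1 / (r : ℝ) ^ M := by positivity
    have h3 : (z i : ℝ) / (r : ℝ) ^ M ≤ a i ⬝ᵥ x := by
      rw [e1, e3, e4] at h1
      linarith [h1.1]
    have h4 : a i ⬝ᵥ x < ((z i : ℝ) + 1) / (r : ℝ) ^ M := by
      rw [e1, e3, e4] at h1
      rw [e2]
      linarith [h1.2]
    have hmid : ∀ Y, (r : ℝ) ^ J ≤ Y → Y ≤ (r : ℝ) ^ M → Y ≤ X →
        (((Ico (cnt r ((r : ℝ) ^ J)) (cnt r Y)).filter
          (fun j => dg r (a i ⬝ᵥ x) j ≠ (d i j : ℤ))).card : ℝ) ≤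
          ε / 2 * Real.log (X * ρ) + CH := by
      intro Y hY1 hY2 hY3
      rw [cnt_pow hr]
      have h5 : (Ico J (cnt r Y)).filter (fun j => dg r (a i ⬝ᵥ x) j ≠ (d i j : ℤ)) =
          (Ico J (cnt r Y)).filter (fun j => di r M (z i) j ≠ (d i j : ℤ)) := by
        refine Finset.filter_congr fun j hj => ?_
        rw [Finset.mem_Ico] at hj
        have hjM : j < M := by
          have h6 : cnt r Y ≤ M := by
            have := cnt_mono hr hY2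
            rwa [cnt_pow hr] at this
          omega
        rw [dg_eq_di hr h3 h4 hjM]
      rw [h5]
      have h6 := hdig i Y hY1 hY2
      have h7 := mul_le_mul_of_nonneg_left (hlogY X Y hY1 hY3) (half_pos hε).le
      linarith
    have hfin := split_cardJ hr hρinv hρJ hJM hX1
      (fun j => dg r (a i ⬝ᵥ x) j ≠ (d i j : ℤ))
      (E := ε / 2 * Real.log (X * ρ) + CH) (by positivity) hmid hJρ hκ'inv hXM
    have h8 := mul_nonneg (half_pos hε).le hlogX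
    have h9 : 0 ≤ 4 * π * L := by positivity
    linarith
  · intro x hx t ht X hX1 hX2
    have hx' : ‖x - p'‖ ≤ ρ' := by
      rw [← dist_eq_norm]
      exact Metric.mem_closedBall.1 hx
    have hs := (hT t ht).1
    have hX0 : 0 < X := hρinv.trans_le hX1
    have hXρ : 1 ≤ X * ρ := by
      rw [div_le_iff₀ hρ] at hX1
      exact hX1
    have hlogX : 0 ≤ Real.log (X * ρ) := Real.log_nonneg hXρ
    have hXM : X ≤ 1 / κ' * (r : ℝ) ^ M := by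
      refine hX2.trans (le_of_eq ?_)
      rw [hρ']
      field_simp
    have hLt : ∑ i, |t.1 i| ≤ L := by
      rw [hL]
      exact Finset.single_le_sum (f := fun t : (Fin n → ℝ) × ℕ => ∑ i, |t.1 i|)
        (fun t _ => Finset.sum_nonneg fun i _ => abs_nonneg _) ht
    have hLt0 : 0 ≤ ∑ i, |t.1 i| := Finset.sum_nonneg fun i _ => abs_nonneg _
    have hmid : ∀ Y, (r : ℝ) ^ J ≤ Y → Y ≤ (r : ℝ) ^ M → Y ≤ X →
        ‖∑ n ∈ Ico (cnt t.2 ((r : ℝ) ^ J)) (cnt t.2 Y), ee ((t.2 : ℝ) ^ n * (t.1 ⬝ᵥ x))‖ ≤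
          ε / 2 * Real.log (X * ρ) + CH + 4 * π * L := by
      intro Y hY1 hY2 hY3
      have hY0 : 0 < Y := hRJ.trans_le hY1
      have h1 : |t.1 ⬝ᵥ x - t.1 ⬝ᵥ p'| ≤ (∑ i, |t.1 i|) * ρ' := by
        rw [← dotProduct_sub]
        exact (dot_le _ _).trans (mul_le_mul_of_nonneg_left hx' hLt0)
      have h2 := near_sumJ hs hY0.le (cnt t.2 ((r : ℝ) ^ J)) h1
      have h3 : ∑ n ∈ Ico (cnt t.2 ((r : ℝ) ^ J)) (cnt t.2 Y), ee ((t.2 : ℝ) ^ n * (t.1 ⬝ᵥ p')) =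
          ∑ n ∈ Ico (cnt t.2 ((r : ℝ) ^ J)) (cnt t.2 Y),
            ee ((t.2 : ℝ) ^ n * (t.1 ⬝ᵥ p0)) *
              ee ((t.2 : ℝ) ^ n * ∑ i, (t.1 ⬝ᵥ v i) * y1 i) := by
        refine Finset.sum_congr rfl fun n _ => ?_
        rw [← ee_add, hp', dotProduct_add, hdot, mul_add]
      have h4 := hsum t ht y1 (fun i => ⟨by
          show (z i : ℝ) / (r : ℝ) ^ M ≤ ((z i : ℝ) + 1 / 2) / (r : ℝ) ^ M
          exact div_le_div_of_nonneg_right (by linarith) hRM.le, by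
          show ((z i : ℝ) + 1 / 2) / (r : ℝ) ^ M ≤ ((z i : ℝ) + 1) / (r : ℝ) ^ M
          exact div_le_div_of_nonneg_right (by linarith) hRM.le⟩) Y hY1 hY2
      rw [← h3] at h4
      have h5 := hlogY X Y hY1 hY3
      have h6 : 4 * π * ((∑ i, |t.1 i|) * ρ') * Y ≤ 4 * π * L := by
        have h7 : ρ' * Y ≤ 1 := by
          have h8 : ρ' * Y ≤ ρ' * X := mul_le_mul_of_nonneg_left hY3 hρ'0.le
          rw [le_div_iff₀ hρ'0] at hX2
          linarith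
        have h9 : (∑ i, |t.1 i|) * (ρ' * Y) ≤ L * 1 :=
          mul_le_mul hLt h7 (by positivity) hL0
        have hπ : 0 ≤ 4 * π := by positivity
        calc 4 * π * ((∑ i, |t.1 i|) * ρ') * Y = 4 * π * ((∑ i, |t.1 i|) * (ρ' * Y)) := by ring
          _ ≤ 4 * π * (L * 1) := mul_le_mul_of_nonneg_left h9 hπ
          _ = 4 * π * L := by ring
      have h10 := mul_le_mul_of_nonneg_left h5 (half_pos hε).le
      linarith
    have hfin := split_sumJ hs hρinv hρJ hJM hX1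
      (fun n => ee ((t.2 : ℝ) ^ n * (t.1 ⬝ᵥ x))) (fun n => (norm_ee _).le)
      (E := ε / 2 * Real.log (X * ρ) + CH + 4 * π * L) (by positivity) hmid hJρ hκ'inv hXM
    refine hfin.trans ?_
    have := mul_nonneg (half_pos hε).le hlogX
    linarith

end MP798203.AB
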