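import Pool.Agent.Lib.MP_798203_nt.AB.Defs
import Pool.Agent.Lib.MP_798203_nt.Wall

/-!
`NormalTo` and the results on `IsNormal`.
`digits_eq`: `Real.digits (Int.fract x) r j = Fin.ofNat r ⌊fract x * r^(j+1)⌋₊` and
`⌊x r^(j+1)⌋ = ⌊x⌋ r^(j+1) + ⌊fract x r^(j+1)⌋`.
`normalTo_iff`: words `Fin k → Fin r` and words `Fin k → ℕ` with entries `< r`.
`normalTo_iff_weyl`: `weyl_of_normal`, `normal_of_weyl` (`haveI : NeZero r := ⟨by omega⟩`). `normalTo_rat`: `wall`.
`not_normalTo`: the definition for `k = 1`, `w = 0`, and `1 / r ≤ 1/2 < 3/4` (see `not_normal_of_freq` in `Final.lean`).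
-/

namespace MP798203.AB

open Real Finset Filter Topology

theorem digits_eq {r : ℕ} [NeZero r] (x : ℝ) (j : ℕ) :
    (((Real.digits (Int.fract x) r j : Fin r) : ℕ) : ℤ) = dg r x j := by
  unfold Real.digits dg
  rw [Fin.val_ofNat]
  have h0 : (0 : ℝ) ≤ Int.fract x * (r : ℝ) ^ (j + 1) :=
    mul_nonneg (Int.fract_nonneg x) (by positivity)
  rw [Int.natCast_mod, Int.natCast_floor_eq_floor h0]
  have h1 : x * (r : ℝ) ^ (j + 1) =
      ((⌊x⌋ * (r : ℤ) ^ (j + 1) : ℤ) : ℝ) + Int.fract x * (r : ℝ) ^ (j + 1) := by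
    push_cast
    rw [← add_mul, Int.floor_add_fract]
  have h2 : ⌊x⌋ * (r : ℤ) ^ (j + 1) = ⌊x⌋ * (r : ℤ) ^ j * r := by ring
  rw [h1, Int.floor_intCast_add, h2, add_comm (⌊x⌋ * (r : ℤ) ^ j * r), Int.add_mul_emod_self_right]

theorem normalTo_iff {r : ℕ} [NeZero r] (x : ℝ) : NormalTo r x ↔ IsNormal r x := by
  have key : ∀ (k : ℕ) (w : Fin k → Fin r) (N : ℕ),
      (range N).filter (fun n => ∀ i : Fin k, dg r x (n + i) = ((w i : ℕ) : ℤ)) =
      (range N).filter (fun n => ∀ i : Fin k, Real.digits (Int.fract x) r (n + i) = w i) := by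
    intro k w N
    refine Finset.filter_congr fun n _ => forall_congr' fun i => ?_
    rw [← digits_eq, Int.natCast_inj, Fin.val_inj]
  constructor
  · intro h k w
    have h1 := h k (fun i => (w i : ℕ)) (fun i => (w i).2)
    refine h1.congr fun N => ?_
    rw [key k w N]
  · intro h k w hw
    have h1 := h k (fun i => ⟨w i, hw i⟩)
    refine h1.congr fun N => ?_
    rw [← key k (fun i => ⟨w i, hw i⟩) N]

theorem normalTo_iff_weyl {r : ℕ} (hr : 2 ≤ r) (x : ℝ) :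
    NormalTo r x ↔ ∀ h : ℕ, 1 ≤ h →
      Tendsto (fun N : ℕ => ‖∑ n ∈ range N, ee (h * ((r : ℝ) ^ n * x))‖ / N) atTop (𝓝 0) := by
  have : NeZero r := ⟨by omega⟩
  rw [normalTo_iff]
  exact ⟨fun hx h hh => weyl_of_normal hr hx hh, fun hu => normal_of_weyl hr x hu⟩

theorem normalTo_rat {r : ℕ} (hr : 2 ≤ r) {x : ℝ} (h : NormalTo r x) {c : ℚ} (hc : c ≠ 0) :
    NormalTo r (c * x) := by
  have : NeZero r := ⟨by omega⟩
  rw [normalTo_iff] at h ⊢
  exact wall hr h hc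

theorem not_normalTo {r : ℕ} (hr : 2 ≤ r) {x : ℝ}
    (h : ∃ᶠ N : ℕ in atTop, (3 / 4 : ℝ) * N ≤
      (((range N).filter (fun n => dg r x n = 0)).card : ℝ)) : ¬ NormalTo r x := by
  intro hx
  have h1 := hx 1 (fun _ => 0) (fun _ => by omega)
  have h2 : ∀ᶠ N : ℕ in atTop, (((range N).filter
      (fun n => ∀ i : Fin 1, dg r x (n + i) = ((0 : ℕ) : ℤ))).card : ℝ) / N < 3 / 4 := by
    apply h1.eventually (gt_mem_nhds _)
    rw [pow_one]
    have h3 : (1 : ℝ) / r ≤ 1 / 2 := one_div_le_one_div_of_le (by norm_num) (by exact_mod_cast hr)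
    linarith
  obtain ⟨N, h3, h4, h5⟩ := (h.and_eventually (h2.and (eventually_gt_atTop 0))).exists
  have hN : (0 : ℝ) < N := by exact_mod_cast h5
  rw [div_lt_iff₀ hN] at h4
  have h6 : (range N).filter (fun n => ∀ i : Fin 1, dg r x (n + i) = ((0 : ℕ) : ℤ)) =
      (range N).filter (fun n => dg r x n = 0) := by
    apply Finset.filter_congr
    intro n _
    simp
  rw [h6] at h4
  linarith

end MP798203.AB
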