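import Pool.Agent.Lib.MP_798203_nt.AB.Defs

/-!
`cnt s X` is the number of `n` with `s^n < X` (`s ≥ 2`).
`lt_cnt_iff`: `n < Nat.clog s ⌈X⌉₊` iff not `⌈X⌉₊ ≤ s^n` (`Nat.clog_le_iff…`/`Nat.le_pow_iff_clog_le`) iff `s^n < ⌈X⌉₊` iff
`(s : ℝ)^n < X` (`Nat.lt_ceil`).
`cnt_diff`: let `m = cnt s X < M = cnt s Y`. Then `X ≤ s^m`, `s^(M-1) < Y`, so `2^(M-1-m) ≤ s^(M-1-m) < Y / X`.
`sum_pow_le`: let `K = cnt s X`, `K ≥ 1`: `∑_{n<K} s^n ≤ s^K / (s-1) ≤ 2 s^(K-1) ≤ 2 X`.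
-/

namespace MP798203.AB

open Real Finset

theorem lt_cnt_iff {s : ℕ} (hs : 2 ≤ s) (X : ℝ) (n : ℕ) : n < cnt s X ↔ (s : ℝ) ^ n < X := by
  unfold cnt
  rw [← not_le, Nat.clog_le_iff_le_pow (by omega), not_le, Nat.lt_ceil]
  push_cast
  rfl

theorem cnt_mono {s : ℕ} (hs : 2 ≤ s) {X Y : ℝ} (h : X ≤ Y) : cnt s X ≤ cnt s Y := by
  by_contra hc
  rw [not_le] at hc
  have h1 := (lt_cnt_iff hs X (cnt s Y)).1 hc
  have h2 : cnt s Y < cnt s Y := (lt_cnt_iff hs Y (cnt s Y)).2 (lt_of_lt_of_le h1 h)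
  exact lt_irrefl _ h2

theorem cnt_pow {s : ℕ} (hs : 2 ≤ s) (N : ℕ) : cnt s ((s : ℝ) ^ N) = N := by
  have hs1 : (1 : ℝ) < s := by exact_mod_cast (by omega : 1 < s)
  apply le_antisymm
  · by_contra hc
    rw [not_le] at hc
    have h1 := (lt_cnt_iff hs _ _).1 hc
    exact lt_irrefl _ h1
  · by_contra hc
    rw [not_le] at hc
    have h1 : (s : ℝ) ^ (cnt s ((s : ℝ) ^ N)) < (s : ℝ) ^ N := pow_lt_pow_right₀ hs1 hc
    have h2 := (lt_cnt_iff hs _ _).2 h1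
    exact lt_irrefl _ h2

theorem cnt_diff {s : ℕ} (hs : 2 ≤ s) {X Y : ℝ} (hX : 0 < X) (h : X ≤ Y) :
    (cnt s Y : ℝ) ≤ cnt s X + 2 * Real.log (Y / X) + 1 := by
  have hs2 : (2 : ℝ) ≤ s := by exact_mod_cast hs
  have hXY : 1 ≤ Y / X := by rw [one_le_div hX]; exact h
  have hlog : 0 ≤ Real.log (Y / X) := Real.log_nonneg hXY
  by_cases hc : cnt s Y ≤ cnt s X
  · have : (cnt s Y : ℝ) ≤ cnt s X := by exact_mod_cast hc
    linarith
  · rw [not_le] at hc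
    obtain ⟨d, hd⟩ : ∃ d, cnt s Y = cnt s X + d + 1 := ⟨cnt s Y - cnt s X - 1, by omega⟩
    have h1 : (s : ℝ) ^ (cnt s X + d) < Y := (lt_cnt_iff hs _ _).1 (by omega)
    have h2 : X ≤ (s : ℝ) ^ (cnt s X) := by
      by_contra h3
      rw [not_le] at h3
      exact lt_irrefl _ ((lt_cnt_iff hs _ _).2 h3)
    have h4 : X * 2 ^ d ≤ Y := by
      calc X * 2 ^ d ≤ (s : ℝ) ^ (cnt s X) * (s : ℝ) ^ d := by
            apply mul_le_mul h2 (pow_le_pow_left₀ (by norm_num) hs2 d) (by positivity) (by positivity)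
        _ = (s : ℝ) ^ (cnt s X + d) := by rw [pow_add]
        _ ≤ Y := h1.le
    have h5 : (2 : ℝ) ^ d ≤ Y / X := by
      rw [le_div_iff₀ hX]
      linarith
    have h6 : (d : ℝ) * Real.log 2 ≤ Real.log (Y / X) := by
      rw [← Real.log_pow]
      exact Real.log_le_log (by positivity) h5
    have h7 : (1 : ℝ) / 2 ≤ Real.log 2 := by
      have := Real.log_two_gt_d9
      linarith
    have h8 : (0 : ℝ) ≤ d := Nat.cast_nonneg d
    rw [hd]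
    push_cast
    nlinarith

theorem cnt_le {s : ℕ} (hs : 2 ≤ s) {X : ℝ} (hX : 1 ≤ X) :
    (cnt s X : ℝ) ≤ 2 * Real.log X + 1 := by
  have h := cnt_diff hs (X := 1) (Y := X) one_pos hX
  have h0 : cnt s (1 : ℝ) = 0 := by
    have := cnt_pow hs 0
    simpa using this
  rw [h0] at h
  simpa using h

theorem sum_pow_le {s : ℕ} (hs : 2 ≤ s) {X : ℝ} (hX : 0 ≤ X) :
    ∑ n ∈ range (cnt s X), (s : ℝ) ^ n ≤ 2 * X := by
  have hs2 : (2 : ℝ) ≤ s := by exact_mod_cast hs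
  rcases Nat.eq_zero_or_pos (cnt s X) with h0 | h0
  · rw [h0]
    simpa using hX
  · obtain ⟨K, hK⟩ : ∃ K, cnt s X = K + 1 := ⟨cnt s X - 1, by omega⟩
    have h1 : (s : ℝ) ^ K < X := (lt_cnt_iff hs _ _).1 (by omega)
    have h2 : ∀ k : ℕ, ∑ n ∈ range (k + 1), (s : ℝ) ^ n ≤ 2 * (s : ℝ) ^ k := by
      intro k
      induction k with
      | zero => simp
      | succ k ih =>
        rw [Finset.sum_range_succ, pow_succ (s : ℝ) k]
        have h3 : (0 : ℝ) < (s : ℝ) ^ k := by positivity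
        nlinarith
    rw [hK]
    linarith [h2 K]

/-- a sum of terms of norm at most one over a range of scales -/
theorem norm_sum_cnt_le {s : ℕ} (hs : 2 ≤ s) {X Y : ℝ} (hX : 0 < X) (h : X ≤ Y) (f : ℕ → ℂ)
    (hf : ∀ n, ‖f n‖ ≤ 1) :
    ‖∑ n ∈ Ico (cnt s X) (cnt s Y), f n‖ ≤ 2 * Real.log (Y / X) + 1 := by
  have h1 : ‖∑ n ∈ Ico (cnt s X) (cnt s Y), f n‖ ≤ ∑ n ∈ Ico (cnt s X) (cnt s Y), (1 : ℝ) :=
    (norm_sum_le _ _).trans (Finset.sum_le_sum fun n _ => hf n)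
  have h2 : ∑ n ∈ Ico (cnt s X) (cnt s Y), (1 : ℝ) = (cnt s Y : ℝ) - cnt s X := by
    rw [Finset.sum_const, Nat.card_Ico, nsmul_eq_mul, mul_one, Nat.cast_sub (cnt_mono hs h)]
  have h3 := cnt_diff hs hX h
  linarith

end MP798203.AB
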