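import Pool.Agent.Lib.MP_798203_nt.AB.QLe

/-!
One correlation. Let `k = Nat.log r (s^n)`: `r^k ≤ s^n < r^(k+1)`, so `J + L ≤ k` and `k < J + H`.
By `corr_eq` the left side is `∏_{i<H} ‖(q-1) + ee (c δ_i / r^(i+1))‖ = q^H ∏_i ff q (c δ_i / r^(i+1))`, `c = β (s^n - s^n')/r^J`,
and `ff q (c δ_i / r^(i+1)) = ff q (c / r^(i+1))` (`ff_neg`). All factors are `≤ 1`; keep those with `i + 1 = k - m - J`,
`m < L` (`1 ≤ k - m - J ≤ H`). For these `c / r^(i+1) = β (s^n - s^n') / r^(k-m) = (u - η) r^m` with `u = lead r s β n`,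
`η = β s^n' / r^k`. So the product is at most `QL q r L (u - η) ≤ QL q r L u + 2 π L r^L |η|` (`QL_lip`), and
`|η| ≤ |β| (s^n / r^k) / s^D ≤ |β| r / 2^D` as `s^n' s^D ≤ s^n`.
-/

namespace MP798203.AB

open Real Finset

theorem corr_bound {q r s H : ℕ} (hq : 2 ≤ q) (hr : 2 ≤ r) (hs : 2 ≤ s) (β w0 : ℝ) (δ : ℕ → ℝ)
    (hδ : ∀ i, δ i = 1 ∨ δ i = -1) {J L D n n' : ℕ} (h1 : (r : ℝ) ^ (J + L) ≤ (s : ℝ) ^ n)
    (h2 : (s : ℝ) ^ n < (r : ℝ) ^ (J + H)) (h3 : n' + D ≤ n) :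
    ‖∑ ω : Fin H → Fin q, ee (β * ((s : ℝ) ^ n - (s : ℝ) ^ n') / (r : ℝ) ^ J * zz r w0 δ ω)‖ ≤
      (q : ℝ) ^ H * (QL q r L (lead r s β n) +
        2 * π * L * (r : ℝ) ^ L * (|β| * r / 2 ^ D)) := by
  classical
  have hr1 : 1 < r := by omega
  have hr' : (2 : ℝ) ≤ r := by exact_mod_cast hr
  have hs' : (2 : ℝ) ≤ s := by exact_mod_cast hs
  have hr0 : (0 : ℝ) < r := by linarith
  have hs0 : (0 : ℝ) < s := by linarith
  have hq0 : (0 : ℝ) < q := by exact_mod_cast (by omega : 0 < q)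
  have hsn : s ^ n ≠ 0 := pow_ne_zero _ (by omega)
  obtain ⟨k, hk⟩ : ∃ k, k = Nat.log r (s ^ n) := ⟨_, rfl⟩
  have hk1 : r ^ k ≤ s ^ n := by rw [hk]; exact Nat.pow_log_le_self r hsn
  have hk2 : s ^ n < r ^ (k + 1) := by rw [hk]; exact Nat.lt_pow_succ_log_self hr1 _
  have h1' : r ^ (J + L) ≤ s ^ n := by exact_mod_cast h1
  have h2' : s ^ n < r ^ (J + H) := by exact_mod_cast h2
  have hkL : J + L ≤ k := by
    have : r ^ (J + L) < r ^ (k + 1) := lt_of_le_of_lt h1' hk2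
    have := (Nat.pow_lt_pow_iff_right hr1).1 this
    omega
  have hkH : k < J + H := by
    have : r ^ k < r ^ (J + H) := lt_of_le_of_lt hk1 h2'
    exact (Nat.pow_lt_pow_iff_right hr1).1 this
  set c : ℝ := β * ((s : ℝ) ^ n - (s : ℝ) ^ n') / (r : ℝ) ^ J with hc
  set η : ℝ := β * (s : ℝ) ^ n' / (r : ℝ) ^ k with hη
  set u : ℝ := lead r s β n with hu
  have hu' : u = β * (s : ℝ) ^ n / (r : ℝ) ^ k := by rw [hu, lead, ← hk]
  rw [corr_eq (by omega)]
  have hfac : ∀ i : Fin H, ‖((q : ℂ) - 1 + ee (c * (δ i / (r : ℝ) ^ ((i : ℕ) + 1))))‖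
      = q * ff q (c / (r : ℝ) ^ ((i : ℕ) + 1)) := by
    intro i
    have e1 : ff q (c * (δ i / (r : ℝ) ^ ((i : ℕ) + 1))) = ff q (c / (r : ℝ) ^ ((i : ℕ) + 1)) := by
      rcases hδ i with h | h
      · rw [h, mul_one_div]
      · rw [h, ← ff_neg]
        congr 1
        ring
    rw [← e1, ff]
    field_simp
  rw [Finset.prod_congr rfl fun i _ => hfac i, Finset.prod_mul_distrib, Finset.prod_const,
    Finset.card_univ, Fintype.card_fin]
  apply mul_le_mul_of_nonneg_left _ (by positivity)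
  -- keep the factors `i + 1 = k - m - J`
  have hkeep : ∏ i : Fin H, ff q (c / (r : ℝ) ^ ((i : ℕ) + 1)) ≤ QL q r L (u - η) := by
    have e1 : ∏ i : Fin H, ff q (c / (r : ℝ) ^ ((i : ℕ) + 1))
        = ∏ i ∈ range H, ff q (c / (r : ℝ) ^ (i + 1)) :=
      Fin.prod_univ_eq_prod_range (fun i => ff q (c / (r : ℝ) ^ (i + 1))) H
    rw [e1]
    have hsub : (range L).image (fun m => k - m - J - 1) ⊆ range H := by
      intro i hi
      rw [mem_image] at hi
      obtain ⟨m, hm, rfl⟩ := hi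
      rw [mem_range] at hm ⊢
      omega
    have e2 : ∏ i ∈ range H, ff q (c / (r : ℝ) ^ (i + 1)) ≤
        ∏ i ∈ (range L).image (fun m => k - m - J - 1), ff q (c / (r : ℝ) ^ (i + 1)) := by
      rw [← Finset.prod_sdiff hsub]
      have e3 : ∏ i ∈ range H \ (range L).image (fun m => k - m - J - 1),
          ff q (c / (r : ℝ) ^ (i + 1)) ≤ 1 :=
        Finset.prod_le_one (fun i _ => ff_nonneg _ _) (fun i _ => ff_le_one (by omega) _)
      have e4 : 0 ≤ ∏ i ∈ (range L).image (fun m => k - m - J - 1), ff q (c / (r : ℝ) ^ (i + 1)) :=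
        Finset.prod_nonneg (fun i _ => ff_nonneg _ _)
      exact mul_le_of_le_one_left e4 e3
    refine e2.trans (le_of_eq ?_)
    rw [Finset.prod_image]
    · unfold QL
      apply Finset.prod_congr rfl
      intro m hm
      rw [mem_range] at hm
      congr 1
      have e5 : k - m - J - 1 + 1 = k - m - J := by omega
      rw [e5, hu', hη, hc]
      have e6 : (r : ℝ) ^ k = (r : ℝ) ^ J * (r : ℝ) ^ (k - m - J) * (r : ℝ) ^ m := by
        rw [← pow_add, ← pow_add]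
        congr 1
        omega
      rw [e6]
      field_simp
    · intro a ha b hb hab
      rw [mem_coe, mem_range] at ha hb
      simp only at hab
      omega
  refine hkeep.trans ?_
  have hlip := QL_lip (q := q) (r := r) (by omega) (by omega) L (u - η) u
  have habs : |u - η - u| = |η| := by
    rw [show u - η - u = -η by ring, abs_neg]
  rw [habs] at hlip
  have hηb : |η| ≤ |β| * r / 2 ^ D := by
    have e1 : |η| = |β| * ((s : ℝ) ^ n' / (r : ℝ) ^ k) := by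
      rw [hη, mul_div_assoc, abs_mul, abs_of_pos (by positivity : (0 : ℝ) < (s : ℝ) ^ n' / (r : ℝ) ^ k)]
    rw [e1, mul_div_assoc]
    apply mul_le_mul_of_nonneg_left _ (abs_nonneg _)
    rw [div_le_div_iff₀ (by positivity) (by positivity)]
    have e2 : (s : ℝ) ^ n' * 2 ^ D ≤ (s : ℝ) ^ n := by
      calc (s : ℝ) ^ n' * 2 ^ D ≤ (s : ℝ) ^ n' * (s : ℝ) ^ D :=
            mul_le_mul_of_nonneg_left (pow_le_pow_left₀ (by norm_num) hs' _) (by positivity)
        _ = (s : ℝ) ^ (n' + D) := by rw [pow_add]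
        _ ≤ (s : ℝ) ^ n := pow_le_pow_right₀ (by linarith) h3
    have e3 : (s : ℝ) ^ n ≤ (r : ℝ) ^ (k + 1) := by exact_mod_cast hk2.le
    calc (s : ℝ) ^ n' * 2 ^ D ≤ (r : ℝ) ^ (k + 1) := e2.trans e3
      _ = (r : ℝ) * (r : ℝ) ^ k := by rw [pow_succ]; ring
  have h4 : 2 * π * L * (r : ℝ) ^ L * |η| ≤ 2 * π * L * (r : ℝ) ^ L * (|β| * r / 2 ^ D) :=
    mul_le_mul_of_nonneg_left hηb (by positivity)
  have h5 := (abs_le.1 hlip).2
  linarith

end MP798203.AB
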