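import Mathlib
import Pool.Agent.Lib.MP_798203_nt.Block

/-!
# Board AB: definitions

Theorem P (MP_798203_nt): normality of countably many linear forms to countably many bases.
-/

namespace MP798203.AB

open Real Finset

/-- the digit number `j` (`j = 0, 1, …`) after the point of the real number `y` in base `r` -/
noncomputable def dg (r : ℕ) (y : ℝ) (j : ℕ) : ℤ := ⌊y * (r : ℝ) ^ (j + 1)⌋ % r

/-- `y` is normal to base `r`: every block `w` of `k` digits occurs in the base `r` expansion of (the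
fractional part of) `y` with asymptotic frequency `r^(-k)` -/
def NormalTo (r : ℕ) (y : ℝ) : Prop :=
  ∀ (k : ℕ) (w : Fin k → ℕ), (∀ i, w i < r) →
    Filter.Tendsto (fun N : ℕ => (((range N).filter
      (fun n => ∀ i : Fin k, dg r y (n + i) = w i)).card : ℝ) / N)
      Filter.atTop (nhds ((1 / (r : ℝ)) ^ k))

/-- `r` and `s` have a common power -/
def MulDep (r s : ℕ) : Prop := ∃ i j : ℕ, 0 < i ∧ 0 < j ∧ r ^ i = s ^ j

/-- the multiplier `β` and the base `s` can be tested against noise in base `r` -/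
def Adm (r s : ℕ) (β : ℝ) : Prop := β ≠ 0 ∧ (Irrational β ∨ ¬ MulDep r s)

/-- the damping factor of one noisy digit -/
noncomputable def ff (q : ℕ) (t : ℝ) : ℝ := ‖((q : ℂ) - 1 + ee t)‖ / q

/-- the damping factor of `L` noisy digits -/
noncomputable def QL (q r L : ℕ) (u : ℝ) : ℝ := ∏ m ∈ range L, ff q (u * (r : ℝ) ^ m)

/-- the leading part of `β s^n` in base `r` -/
noncomputable def lead (r s : ℕ) (β : ℝ) (n : ℕ) : ℝ :=
  β * (s : ℝ) ^ n / (r : ℝ) ^ (Nat.log r (s ^ n))

/-- the number of `n` with `s^n < X` -/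
noncomputable def cnt (s : ℕ) (X : ℝ) : ℕ := Nat.clog s ⌈X⌉₊

/-- the digit number `j < J` of `m / r^J` in base `r` -/
def di (r J : ℕ) (m : ℤ) (j : ℕ) : ℤ := (m / (r : ℤ) ^ (J - 1 - j)) % r

end MP798203.AB
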