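import Pool.Agent.Lib.MP_798203_nt.AB.QLe

/-!
Leading digits, dependent bases: `r^i = s^j` with `i, j ≥ 1`. Then `s^(n+j) = s^n r^i` and
`Nat.log r (s^(n+j)) = Nat.log r (s^n) + i`, so `lead r s β (n+j) = lead r s β n`: only the `j` values
`lead r s β n`, `n < j`, occur. Each is irrational (`β` times a nonzero rational), so by `QL_tendsto` there is `L`
with `QL q r L (lead r s β n) ≤ ε` for all `n < j` (take the maximum, `QL_anti`), hence for all `n` (`n mod j`).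
-/

namespace MP798203.AB

open Real Finset

theorem dep_log_mul_pow {r : ℕ} (hr : 2 ≤ r) {a : ℕ} (ha : a ≠ 0) (i : ℕ) :
    Nat.log r (a * r ^ i) = Nat.log r a + i := by
  induction i with
  | zero => simp
  | succ i ih =>
    have h1 : a * r ^ i ≠ 0 := Nat.mul_ne_zero ha (pow_ne_zero _ (by omega))
    rw [pow_succ, ← mul_assoc, Nat.log_mul_base (by omega) h1, ih]
    ring

theorem dep_lead_add {r s : ℕ} (hr : 2 ≤ r) (hs : 2 ≤ s) {i j : ℕ} (h : r ^ i = s ^ j) (β : ℝ)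
    (n : ℕ) : lead r s β (n + j) = lead r s β n := by
  have hsn : s ^ n ≠ 0 := pow_ne_zero _ (by omega)
  have h1 : Nat.log r (s ^ (n + j)) = Nat.log r (s ^ n) + i := by
    rw [pow_add, ← h, dep_log_mul_pow hr hsn]
  have h2 : (r : ℝ) ^ i = (s : ℝ) ^ j := by exact_mod_cast h
  have hr0 : (r : ℝ) ≠ 0 := by
    have : r ≠ 0 := by omega
    exact_mod_cast this
  unfold lead
  rw [h1, pow_add, pow_add, ← h2]
  have h3 : (r : ℝ) ^ i ≠ 0 := pow_ne_zero _ hr0
  have h4 : (r : ℝ) ^ (Nat.log r (s ^ n)) ≠ 0 := pow_ne_zero _ hr0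
  field_simp

theorem dep_lead_irr {r s : ℕ} (hr : 2 ≤ r) (hs : 2 ≤ s) {β : ℝ} (hβ : Irrational β) (n : ℕ) :
    Irrational (lead r s β n) := by
  have h1 : s ^ n ≠ 0 := pow_ne_zero _ (by omega)
  have h2 : r ^ (Nat.log r (s ^ n)) ≠ 0 := pow_ne_zero _ (by omega)
  have h3 := (hβ.mul_natCast h1).div_natCast h2
  unfold lead
  push_cast at h3
  exact h3

theorem dep_lead_mod {r s : ℕ} (hr : 2 ≤ r) (hs : 2 ≤ s) {i j : ℕ} (h : r ^ i = s ^ j) (β : ℝ)
    (n : ℕ) : lead r s β n = lead r s β (n % j) := by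
  have key : ∀ k m : ℕ, lead r s β (m + j * k) = lead r s β m := by
    intro k
    induction k with
    | zero => intro m; simp
    | succ k ih =>
      intro m
      rw [Nat.mul_succ, ← add_assoc, dep_lead_add hr hs h, ih]
  conv_lhs => rw [← Nat.mod_add_div n j]
  exact key _ _

theorem dep_avg {q r s : ℕ} (hq : 2 ≤ q) (hr : 2 ≤ r) (hs : 2 ≤ s) (hd : MulDep r s) {β : ℝ}
    (hβ : Irrational β) {ε : ℝ} (hε : 0 < ε) :
    ∃ L : ℕ, ∀ n : ℕ, QL q r L (lead r s β n) ≤ ε := by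
  obtain ⟨i, j, hi, hj, h⟩ := hd
  have h1 : ∀ n : ℕ, ∃ L : ℕ, QL q r L (lead r s β n) ≤ ε := by
    intro n
    have h2 := QL_tendsto hq hr (dep_lead_irr hr hs hβ n)
    have h3 := h2.eventually (gt_mem_nhds hε)
    obtain ⟨L, hL⟩ := h3.exists
    exact ⟨L, hL.le⟩
  choose L hL using h1
  refine ⟨(range j).sup L, fun n => ?_⟩
  rw [dep_lead_mod hr hs h β n]
  have h4 : L (n % j) ≤ (range j).sup L :=
    Finset.le_sup (f := L) (Finset.mem_range.2 (Nat.mod_lt n hj))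
  exact le_trans (QL_anti (by omega) r h4 _) (hL _)

end MP798203.AB
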