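import Pool.Agent.Lib.MP_798203_nt.AB.Defs

/-!
Digits. `dg_eq_di`: `⌊y r^J⌋ = m`, and `⌊y r^(j+1)⌋ = ⌊(y r^J) / r^(J-1-j)⌋ = ⌊y r^J⌋ / r^(J-1-j)` (`Int.floor_div…`, or directly
with `Int.floor_eq_iff`, `Int.ediv_emod…`). `di_nest`: `m / r^(J+H-1-j) = (m / r^H) / r^(J-1-j)` (`Int.ediv_ediv…`) and `m / r^H = m0`.
`di_sum`: if `m' = m r^H + ∑_{i<H} e_i r^(H-1-i)` with `0 ≤ e_i < r` then `di r (J+H) m' (J+i) = e_i` and
`m r^H ≤ m' < (m+1) r^H` (by induction on `H`: `m'_(H+1) = r m'_H + e_H`, `Finset.sum_range_succ`).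
-/

namespace MP798203.AB

open Real Finset

theorem dg_eq_di {r : ℕ} (hr : 2 ≤ r) {J : ℕ} {m : ℤ} {y : ℝ} (h1 : (m : ℝ) / (r : ℝ) ^ J ≤ y)
    (h2 : y < ((m : ℝ) + 1) / (r : ℝ) ^ J) {j : ℕ} (hj : j < J) : dg r y j = di r J m j := by
  have hr0 : (0 : ℝ) < r := by
    have : 0 < r := by omega
    exact_mod_cast this
  have hJ : (0 : ℝ) < (r : ℝ) ^ J := by positivity
  have hfl : ⌊y * (r : ℝ) ^ J⌋ = m := by
    rw [Int.floor_eq_iff]
    constructor
    · rwa [div_le_iff₀ hJ] at h1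
    · rwa [lt_div_iff₀ hJ] at h2
  have hsplit : y * (r : ℝ) ^ (j + 1) = (y * (r : ℝ) ^ J) / ((r ^ (J - 1 - j) : ℕ) : ℝ) := by
    have hE : J = (j + 1) + (J - 1 - j) := by omega
    have hp : (0 : ℝ) < (r : ℝ) ^ (J - 1 - j) := by positivity
    push_cast
    rw [eq_div_iff hp.ne', mul_assoc, ← pow_add, ← hE]
  unfold dg di
  rw [hsplit, Int.floor_div_natCast, hfl]
  push_cast
  rfl

theorem di_nest {r : ℕ} (hr : 2 ≤ r) {J H : ℕ} {m0 m : ℤ} (h1 : m0 * (r : ℤ) ^ H ≤ m)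
    (h2 : m < (m0 + 1) * (r : ℤ) ^ H) {j : ℕ} (hj : j < J) : di r (J + H) m j = di r J m0 j := by
  have hr0 : (0 : ℤ) < r := by
    have : 0 < r := by omega
    exact_mod_cast this
  have hH : (0 : ℤ) < (r : ℤ) ^ H := by positivity
  have hq : m / (r : ℤ) ^ H = m0 := by
    apply le_antisymm
    · exact Int.lt_add_one_iff.1 ((Int.ediv_lt_iff_lt_mul hH).2 h2)
    · exact (Int.le_ediv_iff_mul_le hH).2 h1
  unfold di
  have hE : J + H - 1 - j = H + (J - 1 - j) := by omega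
  rw [hE, pow_add, ← Int.ediv_ediv_of_nonneg hH.le, hq]

theorem di_sum {r : ℕ} (hr : 2 ≤ r) (J H : ℕ) (m : ℤ) (e : ℕ → ℤ)
    (he : ∀ i, i < H → 0 ≤ e i ∧ e i < r) :
    m * (r : ℤ) ^ H ≤ m * (r : ℤ) ^ H + ∑ i ∈ range H, e i * (r : ℤ) ^ (H - 1 - i) ∧
    m * (r : ℤ) ^ H + ∑ i ∈ range H, e i * (r : ℤ) ^ (H - 1 - i) < (m + 1) * (r : ℤ) ^ H ∧
    ∀ i, i < H →
      di r (J + H) (m * (r : ℤ) ^ H + ∑ i ∈ range H, e i * (r : ℤ) ^ (H - 1 - i)) (J + i) = e i := by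
  have hr0 : (0 : ℤ) < r := by
    have : 0 < r := by omega
    exact_mod_cast this
  induction H with
  | zero =>
    refine ⟨by simp, by simp, ?_⟩
    intro i hi
    omega
  | succ H ih =>
    obtain ⟨i1, i2, i3⟩ := ih (fun i hi => he i (by omega))
    have hH := he H (by omega)
    set M : ℤ := m * (r : ℤ) ^ H + ∑ i ∈ range H, e i * (r : ℤ) ^ (H - 1 - i) with hM
    have hrec : m * (r : ℤ) ^ (H + 1) + ∑ i ∈ range (H + 1), e i * (r : ℤ) ^ (H + 1 - 1 - i) =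
        r * M + e H := by
      rw [Finset.sum_range_succ, hM, mul_add, Finset.mul_sum]
      have : ∑ i ∈ range H, e i * (r : ℤ) ^ (H + 1 - 1 - i) =
          ∑ i ∈ range H, (r : ℤ) * (e i * (r : ℤ) ^ (H - 1 - i)) := by
        apply Finset.sum_congr rfl
        intro i hi
        rw [Finset.mem_range] at hi
        have hE : H + 1 - 1 - i = (H - 1 - i) + 1 := by omega
        rw [hE, pow_succ]
        ring
      rw [this]
      have hE : H + 1 - 1 - H = 0 := by omega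
      rw [hE, pow_zero, pow_succ]
      ring
    rw [hrec]
    refine ⟨?_, ?_, ?_⟩
    · have : m * (r : ℤ) ^ (H + 1) = r * (m * (r : ℤ) ^ H) := by rw [pow_succ]; ring
      rw [this]
      nlinarith [mul_le_mul_of_nonneg_left i1 hr0.le]
    · have h3 : M + 1 ≤ (m + 1) * (r : ℤ) ^ H := i2
      have : (m + 1) * (r : ℤ) ^ (H + 1) = r * ((m + 1) * (r : ℤ) ^ H) := by rw [pow_succ]; ring
      rw [this]
      nlinarith [mul_le_mul_of_nonneg_left h3 hr0.le]
    · intro i hi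
      have hJ : J + (H + 1) = (J + H) + 1 := by omega
      rcases Nat.lt_succ_iff_lt_or_eq.1 hi with hlt | heq
      · rw [hJ, di_nest hr (J := J + H) (H := 1) (m0 := M) (by rw [pow_one]; nlinarith)
          (by rw [pow_one]; nlinarith) (by omega)]
        exact i3 i hlt
      · subst heq
        unfold di
        have hE : J + (i + 1) - 1 - (J + i) = 0 := by omega
        rw [hE, pow_zero, Int.ediv_one, Int.mul_add_emod_self_left]
        exact Int.emod_eq_of_lt hH.1 hH.2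

end MP798203.AB
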