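import Pool.Agent.Lib.MP_798203_nt.AB.Defs

/-!
A vector which is not related to countably many given ones: `a = x e_0`, `x ≠ 0` real, with `b ≠ (c x) e_0` for all `b ∈ B`, `c ∈ ℚ`,
`b ≠ 0`: for `b, c` there is at most one bad `x` (if `c ≠ 0`: `x = b 0 / c`; if `c = 0` none as `b ≠ 0`), so the set of bad `x`
is countable.
-/

namespace MP798203.AB

open Real Finset

theorem exists_dummy {n : ℕ} (hn : 0 < n) (B : Set (Fin n → ℝ)) (hB : B.Countable)
    (hB0 : ∀ b ∈ B, b ≠ 0) :
    ∃ a : Fin n → ℝ, a ≠ 0 ∧ ∀ b ∈ B, ∀ c : ℚ, b ≠ (c : ℝ) • a := by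
  classical
  set i0 : Fin n := ⟨0, hn⟩ with hi0
  set S : Set ℝ := ⋃ b ∈ B, Set.range (fun c : ℚ => b i0 / (c : ℝ)) with hS
  have hSc : S.Countable := hB.biUnion (fun b _ => Set.countable_range _)
  have hSc2 : (insert 0 S).Countable := hSc.insert 0
  have hne : ∃ x : ℝ, x ∉ insert 0 S := by
    by_contra hcon
    push Not at hcon
    have huniv : (insert 0 S : Set ℝ) = Set.univ := Set.eq_univ_of_forall hcon
    rw [huniv] at hSc2
    exact Cardinal.not_countable_real hSc2
  obtain ⟨x, hx⟩ := hne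
  have hx0 : x ≠ 0 := fun h => hx (by rw [h]; exact Set.mem_insert _ _)
  have hxS : x ∉ S := fun h => hx (Set.mem_insert_of_mem _ h)
  refine ⟨Pi.single i0 x, ?_, ?_⟩
  · intro h
    have := congrFun h i0
    rw [Pi.single_eq_same] at this
    exact hx0 this
  · intro b hb c hbc
    have h0 := congrFun hbc i0
    rw [Pi.smul_apply, Pi.single_eq_same, smul_eq_mul] at h0
    by_cases hc : (c : ℝ) = 0
    · rw [hc, zero_smul] at hbc
      exact hB0 b hb hbc
    · apply hxS
      rw [hS]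
      simp only [Set.mem_iUnion, Set.mem_range]
      exact ⟨b, hb, c, by rw [h0]; field_simp⟩

end MP798203.AB
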