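import Pool.Agent.Lib.MP_798203_nt.AB.Defs

/-!
The damping factor `ff q t = ‖q - 1 + e(t)‖ / q`.
`ff_neg`: `q - 1 + ee (-t)` is the conjugate of `q - 1 + ee t` (`ee_neg`). `ff_add_int`: `ee_add_int`.
`ff_lip`: `|‖z‖ - ‖z'‖| ≤ ‖z - z'‖`, `norm_ee_sub_le`, and `1 / q ≤ 1`. `ff_le_one`: `norm_avg_le_one`.
`ff_far`: `norm_avg_le`. `ff_cont`: from `ff_lip` for `q ≥ 1`, or directly (`ee` is continuous; for `q = 0` the
function is `0`).
-/

namespace MP798203.AB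

open Real Finset

theorem ff_nonneg (q : ℕ) (t : ℝ) : 0 ≤ ff q t := by
  unfold ff
  positivity

theorem ff_le_one {q : ℕ} (hq : 1 ≤ q) (t : ℝ) : ff q t ≤ 1 := by
  unfold ff
  have hq' : (0 : ℝ) < q := by exact_mod_cast hq
  rw [div_le_one hq']
  exact norm_avg_le_one hq t

theorem ff_neg (q : ℕ) (t : ℝ) : ff q (-t) = ff q t := by
  unfold ff
  rw [ee_neg]
  have h : (q : ℂ) - 1 + (starRingEnd ℂ) (ee t) = (starRingEnd ℂ) ((q : ℂ) - 1 + ee t) := by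
    simp
  rw [h, Complex.norm_conj]

theorem ff_add_int (q : ℕ) (t : ℝ) (m : ℤ) : ff q (t + m) = ff q t := by
  unfold ff
  rw [ee_add_int]

theorem ff_lip {q : ℕ} (hq : 1 ≤ q) (t t' : ℝ) : |ff q t - ff q t'| ≤ 2 * π * |t - t'| := by
  unfold ff
  have hq' : (1 : ℝ) ≤ q := by exact_mod_cast hq
  rw [← sub_div, abs_div, abs_of_nonneg (by linarith : (0 : ℝ) ≤ q)]
  have h1 := abs_norm_sub_norm_le ((q : ℂ) - 1 + ee t) ((q : ℂ) - 1 + ee t')
  have h2 : (q : ℂ) - 1 + ee t - ((q : ℂ) - 1 + ee t') = ee t - ee t' := by ring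
  rw [h2] at h1
  have h3 := norm_ee_sub_le t t'
  rw [div_le_iff₀ (by linarith)]
  have h4 : (0 : ℝ) ≤ 2 * π * |t - t'| := by positivity
  nlinarith

theorem ff_cont (q : ℕ) : Continuous (ff q) := by
  unfold ff ee
  fun_prop

theorem ff_far {q : ℕ} (hq : 2 ≤ q) {κ t : ℝ} (h0 : 0 ≤ κ) (h : Far κ t) : ff q t ≤ theta q κ := by
  unfold ff
  have hq' : (0 : ℝ) < q := by
    have : (2 : ℝ) ≤ q := by exact_mod_cast hq
    linarith
  rw [div_le_iff₀ hq', mul_comm]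
  exact norm_avg_le hq h0 h

end MP798203.AB
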