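import Pool.Agent.Lib.MP_798203_nt.AB.QLe

/-!
Leading digits, independent bases, preliminaries.
`log_irr`: if `log s / log r = c` is rational, then `c > 0`, `c = i / j` with `i, j ≥ 1`, `j log s = i log r`,
`s^j = r^i`.
`lead_eq`: with `θ = log s / log r`: `s^n = r^(nθ)`, `Nat.log r (s^n) = ⌊nθ⌋` (both are the integer `k` with
`r^k ≤ s^n < r^(k+1)`), so `s^n / r^k = r^(nθ - k) = r^(fract (nθ))`.
-/

namespace MP798203.AB

open Real Finset

theorem log_irr {r s : ℕ} (hr : 2 ≤ r) (hs : 2 ≤ s) (h : ¬ MulDep r s) :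
    Irrational (Real.log s / Real.log r) := by
  have hr1 : (1 : ℝ) < r := by exact_mod_cast (by omega : 1 < r)
  have hs1 : (1 : ℝ) < s := by exact_mod_cast (by omega : 1 < s)
  have hlr : 0 < Real.log r := Real.log_pos hr1
  have hls : 0 < Real.log s := Real.log_pos hs1
  rintro ⟨c, hc⟩
  have hc0 : (0 : ℝ) < c := by rw [hc]; positivity
  have hc0' : 0 < c := by exact_mod_cast hc0
  have hnum : 0 < c.num := Rat.num_pos.mpr hc0'
  have hcd : (c : ℝ) = (c.num.toNat : ℝ) / c.den := by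
    have h1 : (c : ℝ) = (c.num : ℝ) / c.den := by exact_mod_cast (Rat.num_div_den c).symm
    rw [h1]
    congr 1
    have h2 : ((c.num.toNat : ℤ) : ℝ) = (c.num : ℝ) := by
      rw [Int.toNat_of_nonneg hnum.le]
    exact_mod_cast h2.symm
  have hden : (0 : ℝ) < c.den := by exact_mod_cast c.den_pos
  apply h
  refine ⟨c.num.toNat, c.den, by omega, c.den_pos, ?_⟩
  have h3 : (c.num.toNat : ℝ) * Real.log r = c.den * Real.log s := by
    rw [hcd] at hc
    field_simp at hc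
    linarith
  have h4 : Real.log ((r : ℝ) ^ c.num.toNat) = Real.log ((s : ℝ) ^ c.den) := by
    rw [Real.log_pow, Real.log_pow]
    exact h3
  have h5 : (r : ℝ) ^ c.num.toNat = (s : ℝ) ^ c.den :=
    Real.log_injOn_pos (Set.mem_Ioi.mpr (by positivity)) (Set.mem_Ioi.mpr (by positivity)) h4
  exact_mod_cast h5

theorem lead_eq {r s : ℕ} (hr : 2 ≤ r) (hs : 2 ≤ s) (β : ℝ) (n : ℕ) :
    lead r s β n = β * (r : ℝ) ^ (Int.fract ((n : ℝ) * (Real.log s / Real.log r))) := by
  have hr1 : (1 : ℝ) < r := by exact_mod_cast (by omega : 1 < r)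
  have hr0 : (0 : ℝ) < r := by linarith
  have hs1 : (1 : ℝ) < s := by exact_mod_cast (by omega : 1 < s)
  have hs0 : (0 : ℝ) < s := by linarith
  have hlr : 0 < Real.log r := Real.log_pos hr1
  have hpow : (s : ℝ) ^ n = (r : ℝ) ^ ((n : ℝ) * (Real.log s / Real.log r)) := by
    rw [Real.rpow_def_of_pos hr0]
    rw [← Real.exp_log (pow_pos hs0 n), Real.log_pow]
    congr 1
    field_simp
  have hlog : ⌊(n : ℝ) * (Real.log s / Real.log r)⌋ = (Nat.log r (s ^ n) : ℤ) := by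
    rw [Int.floor_eq_iff]
    have hsn : s ^ n ≠ 0 := by positivity
    have h1 : r ^ (Nat.log r (s ^ n)) ≤ s ^ n := Nat.pow_log_le_self r hsn
    have h2 : s ^ n < r ^ (Nat.log r (s ^ n) + 1) := Nat.lt_pow_succ_log_self (by omega) _
    have h1' : (r : ℝ) ^ ((Nat.log r (s ^ n) : ℕ) : ℝ) ≤ (s : ℝ) ^ n := by
      rw [Real.rpow_natCast]; exact_mod_cast h1
    have h2' : (s : ℝ) ^ n < (r : ℝ) ^ (((Nat.log r (s ^ n) : ℕ) : ℝ) + 1) := by
      have : (r : ℝ) ^ (((Nat.log r (s ^ n) : ℕ) : ℝ) + 1) = (r : ℝ) ^ (Nat.log r (s ^ n) + 1) := by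
        rw [← Real.rpow_natCast]; push_cast; rfl
      rw [this]; exact_mod_cast h2
    rw [hpow] at h1' h2'
    constructor
    · have := (Real.rpow_le_rpow_left_iff hr1).mp h1'
      exact_mod_cast this
    · have := (Real.rpow_lt_rpow_left_iff hr1).mp h2'
      exact_mod_cast this
  unfold lead
  rw [Int.fract, hlog, Real.rpow_sub hr0, ← hpow]
  have : ((Nat.log r (s ^ n) : ℤ) : ℝ) = ((Nat.log r (s ^ n) : ℕ) : ℝ) := by push_cast; rfl
  rw [this, Real.rpow_natCast, mul_div_assoc]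

end MP798203.AB
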