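import Pool.Agent.Lib.MP_798203_nt.AB.QLe

/-!
The periodic majorant. For `x ∈ [0,1]`:
`gg q r L β x = x QL_L(β r^x) + (1-x) QL_L(β r^(x+1))`.
`gg_ge`: `QL_(L+1)(β r^x) ≤ QL_L(β r^x)` (`QL_anti`) and `≤ QL_L(β r^x r) = QL_L(β r^(x+1))` (`QL_succ_le`), so it is at
most the convex combination. `gg_zero_one`: both are `QL_L(β r)`.
`gg_integral`: dominated convergence (`intervalIntegral.tendsto_integral_filter_of_dominated_convergence` or
`MeasureTheory.tendsto_integral_of_dominated_convergence`; bound `1` on `[0,1]`): for all `x` with `β r^x` irrational also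
`β r^(x+1) = β r^x r` is irrational and `gg → 0` by `QL_tendsto`; the set of `x` with `β r^x` rational is countable (for each
rational `c` there is at most one `x`: `x ↦ β r^x` is injective as `β ≠ 0`), so it has measure zero (`Set.Countable.measure_zero`).
-/

namespace MP798203.AB

open Real Finset Filter Topology

/-- the periodic majorant on `[0,1]` -/
noncomputable def gg (q r L : ℕ) (β x : ℝ) : ℝ :=
  x * QL q r L (β * (r : ℝ) ^ x) + (1 - x) * QL q r L (β * (r : ℝ) ^ (x + 1))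

theorem gg_cont {q r : ℕ} (hr : 2 ≤ r) (L : ℕ) (β : ℝ) : Continuous (gg q r L β) := by
  have h0 : (r : ℝ) ≠ 0 := by
    have : (0 : ℝ) < r := by exact_mod_cast (by omega : 0 < r)
    exact this.ne'
  have h1 : Continuous fun x : ℝ => (r : ℝ) ^ x := Real.continuous_const_rpow h0
  have h2 : Continuous fun x : ℝ => QL q r L (β * (r : ℝ) ^ x) :=
    (QL_cont q r L).comp (continuous_const.mul h1)
  have h3 : Continuous fun x : ℝ => QL q r L (β * (r : ℝ) ^ (x + 1)) :=
    (QL_cont q r L).comp (continuous_const.mul (h1.comp (continuous_id.add continuous_const)))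
  exact (continuous_id.mul h2).add ((continuous_const.sub continuous_id).mul h3)

theorem gg_ge {q r : ℕ} (hq : 1 ≤ q) (hr : 2 ≤ r) (L : ℕ) (β : ℝ) {x : ℝ} (h0 : 0 ≤ x)
    (h1 : x ≤ 1) : QL q r (L + 1) (β * (r : ℝ) ^ x) ≤ gg q r L β x := by
  have hr0 : (0 : ℝ) < r := by exact_mod_cast (by omega : 0 < r)
  have e1 : QL q r (L + 1) (β * (r : ℝ) ^ x) ≤ QL q r L (β * (r : ℝ) ^ x) :=
    QL_anti hq r (Nat.le_succ L) _
  have e2 : QL q r (L + 1) (β * (r : ℝ) ^ x) ≤ QL q r L (β * (r : ℝ) ^ (x + 1)) := by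
    have h := QL_succ_le hq r L (β * (r : ℝ) ^ x)
    rwa [mul_assoc, ← Real.rpow_add_one hr0.ne'] at h
  unfold gg
  nlinarith [mul_le_mul_of_nonneg_left e1 h0, mul_le_mul_of_nonneg_left e2 (sub_nonneg.2 h1)]

theorem gg_zero_one {q r : ℕ} (hr : 2 ≤ r) (L : ℕ) (β : ℝ) : gg q r L β 0 = gg q r L β 1 := by
  unfold gg
  simp

theorem gg_bound {q r : ℕ} (hq : 1 ≤ q) (L : ℕ) (β : ℝ) {x : ℝ} (h0 : 0 ≤ x)
    (h1 : x ≤ 1) : ‖gg q r L β x‖ ≤ 1 := by
  have a0 := QL_nonneg q r L (β * (r : ℝ) ^ x)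
  have a1 := QL_le_one hq r L (β * (r : ℝ) ^ x)
  have b0 := QL_nonneg q r L (β * (r : ℝ) ^ (x + 1))
  have b1 := QL_le_one hq r L (β * (r : ℝ) ^ (x + 1))
  have h2 := sub_nonneg.2 h1
  unfold gg
  rw [Real.norm_eq_abs, abs_le]
  constructor
  · have := mul_nonneg h0 a0
    have := mul_nonneg h2 b0
    linarith
  · nlinarith [mul_le_mul_of_nonneg_left a1 h0, mul_le_mul_of_nonneg_left b1 h2]

theorem gg_integral {q r : ℕ} (hq : 2 ≤ q) (hr : 2 ≤ r) {β : ℝ} (hβ : β ≠ 0) :
    Tendsto (fun L => ∫ x in (0 : ℝ)..1, gg q r L β x) atTop (𝓝 0) := by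
  have hr1 : (1 : ℝ) < r := by exact_mod_cast (by omega : 1 < r)
  have hr0 : (0 : ℝ) < r := by linarith
  have hinj : Function.Injective fun x : ℝ => β * (r : ℝ) ^ x := by
    intro x y h
    have h1 : (r : ℝ) ^ x = (r : ℝ) ^ y := mul_left_cancel₀ hβ h
    rcases lt_trichotomy x y with h2 | h2 | h2
    · exact absurd h1 (Real.rpow_lt_rpow_of_exponent_lt hr1 h2).ne
    · exact h2
    · exact absurd h1.symm (Real.rpow_lt_rpow_of_exponent_lt hr1 h2).ne
  have hcount : ((fun x : ℝ => β * (r : ℝ) ^ x) ⁻¹' Set.range ((↑) : ℚ → ℝ)).Countable :=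
    (Set.countable_range _).preimage hinj
  have hae : ∀ᵐ x : ℝ ∂MeasureTheory.volume, Irrational (β * (r : ℝ) ^ x) :=
    hcount.ae_notMem MeasureTheory.volume
  have h0 : (∫ _x in (0 : ℝ)..1, (0 : ℝ)) = 0 := by simp
  suffices h : Tendsto (fun L => ∫ x in (0 : ℝ)..1, gg q r L β x) atTop
      (𝓝 (∫ _x in (0 : ℝ)..1, (0 : ℝ))) by rwa [h0] at h
  refine intervalIntegral.tendsto_integral_filter_of_dominated_convergence (fun _ => 1)
    (Filter.Eventually.of_forall fun L => (gg_cont hr L β).aestronglyMeasurable)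
    (Filter.Eventually.of_forall fun L => Filter.Eventually.of_forall fun x hx => ?_)
    intervalIntegrable_const ?_
  · rw [Set.uIoc_of_le zero_le_one] at hx
    exact gg_bound (by omega) L β hx.1.le hx.2
  · filter_upwards [hae] with x hx _
    have h1 : Irrational (β * (r : ℝ) ^ (x + 1)) := by
      rw [Real.rpow_add_one hr0.ne', ← mul_assoc]
      exact hx.mul_natCast (by omega)
    have h2 := (QL_tendsto hq hr hx).const_mul x
    have h3 := (QL_tendsto hq hr h1).const_mul (1 - x)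
    have h4 := h2.add h3
    rw [mul_zero, mul_zero, add_zero] at h4
    exact h4

end MP798203.AB
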