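import Pool.Agent.Lib.MP_798203_nt.AB.UE
import Pool.Agent.Lib.MP_798203_nt.AB.Ind
import Pool.Agent.Lib.MP_798203_nt.AB.IndB

/-!
Leading digits, independent bases. Choose `L` with `∫_0^1 gg q r L β ≤ ε/2` (`gg_integral`). The function
`t ↦ gg q r L β t` on `[0,1)` is a continuous function `G` on the circle `TT = AddCircle 1` (`AddCircle.liftIco`,
`AddCircle.liftIco_continuous`, `gg_zero_one`, `gg_cont`; compose with `Complex.ofReal`), `G ((y : ℝ) : TT) = gg (fract y)`,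
and `∫ t : TT, G t = ∫ x in 0..1, gg x` (`AddCircle.intervalIntegral_preimage` or `AddCircle.integral_liftIco…`; volume on `TT`
has total mass one). By `unif_equi` with `θ = log s / log r` (`log_irr`) and `ε/2`: for `N ≥ N0`:
`∑ QL q r (L+1) (lead r s β n) ≤ ∑ gg (fract (nθ)) ≤ (ε/2) N + (ε/2) N` (`lead_eq`, `gg_ge`). Answer: `L+1`, `N0`.
-/

namespace MP798203.AB

open Real Finset MeasureTheory

local instance : Fact ((0 : ℝ) < 1) := ⟨one_pos⟩

/-- the circle version of the majorant -/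
private noncomputable def GG (q r L : ℕ) (β : ℝ) : TT → ℂ :=
  AddCircle.liftIco (1 : ℝ) 0 (fun x : ℝ => ((gg q r L β x : ℝ) : ℂ))

private theorem GG_cont {q r : ℕ} (hr : 2 ≤ r) (L : ℕ) (β : ℝ) : Continuous (GG q r L β) := by
  unfold GG
  apply AddCircle.liftIco_continuous
  · simp only [zero_add]
    rw [gg_zero_one hr]
  · exact (Complex.continuous_ofReal.comp (gg_cont hr L β)).continuousOn

private theorem GG_coe_Ico (q r L : ℕ) (β : ℝ) {x : ℝ} (h0 : 0 ≤ x) (h1 : x < 1) :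
    GG q r L β (x : TT) = ((gg q r L β x : ℝ) : ℂ) := by
  unfold GG
  rw [AddCircle.liftIco_coe_apply]
  constructor
  · exact h0
  · simpa using h1

private theorem coe_fract (y : ℝ) : ((Int.fract y : ℝ) : TT) = (y : TT) := by
  have h := AddCircle.coe_add_period (1 : ℝ)
  rw [eq_comm, ← sub_eq_zero, ← AddCircle.coe_sub, AddCircle.coe_eq_zero_iff]
  refine ⟨⌊y⌋, ?_⟩
  rw [zsmul_eq_mul, mul_one, Int.fract]
  ring

private theorem GG_coe (q r L : ℕ) (β y : ℝ) :
    GG q r L β (y : TT) = ((gg q r L β (Int.fract y) : ℝ) : ℂ) := by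
  rw [← coe_fract y, GG_coe_Ico q r L β (Int.fract_nonneg y) (Int.fract_lt_one y)]

private theorem GG_integral {q r : ℕ} (L : ℕ) (β : ℝ) :
    ∫ t : TT, GG q r L β t = ((∫ x in (0 : ℝ)..1, gg q r L β x : ℝ) : ℂ) := by
  have h1 := AddCircle.intervalIntegral_preimage (1 : ℝ) 0 (GG q r L β)
  rw [← h1, zero_add, ← intervalIntegral.integral_ofReal]
  apply intervalIntegral.integral_congr_ae
  have : ∀ᵐ x : ℝ, x ≠ 1 := by
    have := MeasureTheory.Measure.ae_ne (volume : Measure ℝ) (1 : ℝ)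
    exact this
  filter_upwards [this] with x hx hx2
  rw [Set.uIoc_of_le zero_le_one] at hx2
  exact GG_coe_Ico q r L β hx2.1.le (lt_of_le_of_ne hx2.2 hx)

theorem ind_avg {q r s : ℕ} (hq : 2 ≤ q) (hr : 2 ≤ r) (hs : 2 ≤ s) (hd : ¬ MulDep r s) {β : ℝ}
    (hβ : β ≠ 0) {ε : ℝ} (hε : 0 < ε) :
    ∃ L N0 : ℕ, ∀ a N : ℕ, N0 ≤ N →
      ∑ n ∈ Ico a (a + N), QL q r L (lead r s β n) ≤ ε * N := by
  obtain ⟨L, hL⟩ := ((gg_integral hq hr hβ).eventually (ge_mem_nhds (show (0 : ℝ) < ε / 2 by positivity))).exists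
  obtain ⟨N0, hN0⟩ := unif_equi (log_irr hr hs hd) (⟨GG q r L β, GG_cont hr L β⟩ : C(TT, ℂ))
    (show (0 : ℝ) < ε / 2 by positivity)
  refine ⟨L + 1, N0, fun a N hN => ?_⟩
  have h1 := hN0 a N hN
  simp only [ContinuousMap.coe_mk] at h1
  rw [GG_integral] at h1
  have h2 : ∑ n ∈ Ico a (a + N), GG q r L β (((n : ℝ) * (Real.log s / Real.log r) : ℝ) : TT)
      = ((∑ n ∈ Ico a (a + N), gg q r L β (Int.fract ((n : ℝ) * (Real.log s / Real.log r))) : ℝ) : ℂ) := by
    push_cast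
    apply Finset.sum_congr rfl
    intro n _
    rw [GG_coe]
  rw [h2] at h1
  have h3 : |∑ n ∈ Ico a (a + N), gg q r L β (Int.fract ((n : ℝ) * (Real.log s / Real.log r)))
      - N * ∫ x in (0 : ℝ)..1, gg q r L β x| ≤ ε / 2 * N := by
    have h4 := h1
    rw [← Complex.ofReal_natCast, ← Complex.ofReal_mul, ← Complex.ofReal_sub, Complex.norm_real,
      Real.norm_eq_abs] at h4
    exact h4
  have h5 := (abs_le.mp h3).2
  have h6 : (N : ℝ) * ∫ x in (0 : ℝ)..1, gg q r L β x ≤ N * (ε / 2) :=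
    mul_le_mul_of_nonneg_left hL (Nat.cast_nonneg N)
  have h7 : ∑ n ∈ Ico a (a + N), QL q r (L + 1) (lead r s β n)
      ≤ ∑ n ∈ Ico a (a + N), gg q r L β (Int.fract ((n : ℝ) * (Real.log s / Real.log r))) := by
    apply Finset.sum_le_sum
    intro n _
    rw [lead_eq hr hs]
    exact gg_ge (by omega) hr L β (Int.fract_nonneg _) (Int.fract_lt_one _).le
  linarith

end MP798203.AB
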