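import Pool.Agent.Lib.MP_798203_nt.AB.StepA

/-!
Iterated blocks: induction on `B` with `step` (`H = max H0 1`). Let `m_B` be given, `step` at `J + B H`, `m_B` gives `m_(B+1)` in
`[m_B r^H, (m_B+1) r^H)`. The closed interval of `m_(B+1)` lies in the closed interval of `m_B`. Sums: for `b ≤ B` from the
induction hypothesis; for `b = B+1` split at `cnt (s t) (r^(J+BH))` (`Finset.sum_Ico_consecutive`, `cnt_mono`). Digits: for
`j < J + B H`: `di r (J+(B+1)H) m_(B+1) j = di r (J+BH) m_B j` (`di_nest`); the last `H` digits: `step`.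
(`B + 1) * H = B * H + H`.)
-/

namespace MP798203.AB

open Real Finset

theorem iter {ι : Type*} {q r : ℕ} (hq : 2 ≤ q) (hr : 2 ≤ r) (T : Finset ι) (β : ι → ℝ)
    (s : ι → ℕ) (hT : ∀ t ∈ T, 2 ≤ s t ∧ Adm r (s t) (β t)) {τ : ℝ} (hτ : 0 < τ) :
    ∃ H : ℕ, 0 < H ∧ ∀ (J : ℕ) (m0 : ℤ) (d : ℕ → ℕ), (∀ j, d j < r) →
      ∀ φ : ι → ℕ → ℂ, (∀ t n, ‖φ t n‖ ≤ 1) → ∀ B : ℕ,
      ∃ m : ℤ, m0 * (r : ℤ) ^ (B * H) ≤ m ∧ m < (m0 + 1) * (r : ℤ) ^ (B * H) ∧
        (((Ico J (J + B * H)).filter (fun j => di r (J + B * H) m j ≠ (d j : ℤ))).card : ℝ) ≤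
          2 * (B * H : ℕ) / q ∧
        ∀ t ∈ T, ∀ y : ℝ, (m : ℝ) / (r : ℝ) ^ (J + B * H) ≤ y →
          y ≤ ((m : ℝ) + 1) / (r : ℝ) ^ (J + B * H) → ∀ b : ℕ, b ≤ B →
          ‖∑ n ∈ Ico (cnt (s t) ((r : ℝ) ^ J)) (cnt (s t) ((r : ℝ) ^ (J + b * H))),
            φ t n * ee (β t * (s t : ℝ) ^ n * y)‖ ≤ τ * (b * H : ℕ) := by
  classical
  obtain ⟨H0, hH0⟩ := step hq hr T β s hT hτ
  refine ⟨max H0 1, by positivity, ?_⟩
  intro J m0 d hd φ hφ B
  set H : ℕ := max H0 1 with hH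
  have hHH : H0 ≤ H := le_max_left _ _
  have hr0 : (0 : ℝ) < r := by exact_mod_cast (by omega : 0 < r)
  have hrz : (0 : ℤ) < r := by exact_mod_cast (by omega : 0 < r)
  have hr1 : (1 : ℝ) ≤ r := by exact_mod_cast (by omega : 1 ≤ r)
  induction B with
  | zero =>
    refine ⟨m0, by simp, by simp, by simp, ?_⟩
    intro t _ y _ _ b hb
    have hb0 : b = 0 := by omega
    subst hb0
    simp
  | succ B ih =>
    obtain ⟨m, h1, h2, h3, h4⟩ := ih
    obtain ⟨m', k1, k2, k3, k4⟩ := hH0 H hHH (J + B * H) m d hd φ hφ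
    have hBH : (B + 1) * H = B * H + H := by ring
    have hrH : (0 : ℤ) < (r : ℤ) ^ H := by positivity
    have hrHr : (0 : ℝ) < (r : ℝ) ^ H := by positivity
    have hrJ : (0 : ℝ) < (r : ℝ) ^ (J + B * H) := by positivity
    have k1r : (m : ℝ) * (r : ℝ) ^ H ≤ m' := by exact_mod_cast k1
    have k2r : (m' : ℝ) + 1 ≤ ((m : ℝ) + 1) * (r : ℝ) ^ H := by
      have : m' + 1 ≤ (m + 1) * (r : ℤ) ^ H := k2
      exact_mod_cast this
    refine ⟨m', ?_, ?_, ?_, ?_⟩
    · rw [hBH, pow_add, ← mul_assoc]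
      exact (mul_le_mul_of_nonneg_right h1 hrH.le).trans k1
    · rw [hBH, pow_add, ← mul_assoc]
      refine lt_of_lt_of_le k2 ?_
      exact mul_le_mul_of_nonneg_right (by omega) hrH.le
    · rw [hBH, ← add_assoc]
      have e1 : ((Ico J (J + B * H + H)).filter
          (fun j => di r (J + B * H + H) m' j ≠ (d j : ℤ))).card =
          ((Ico J (J + B * H)).filter (fun j => di r (J + B * H) m j ≠ (d j : ℤ))).card +
          ((range H).filter (fun i => di r (J + B * H + H) m' (J + B * H + i) ≠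
            (d (J + B * H + i) : ℤ))).card := by
        rw [Finset.card_filter, Finset.card_filter, Finset.card_filter,
          ← Finset.sum_Ico_consecutive _ (Nat.le_add_right J (B * H))
            (Nat.le_add_right (J + B * H) H)]
        congr 1
        · refine Finset.sum_congr rfl fun j hj => ?_
          rw [mem_Ico] at hj
          rw [di_nest hr k1 k2 hj.2]
        · rw [Finset.sum_Ico_eq_sum_range, Nat.add_sub_cancel_left]
      rw [e1]
      push_cast at h3 ⊢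
      have e2 : 2 * ((B : ℝ) * H + H) / q = 2 * ((B : ℝ) * H) / q + 2 * H / q := by ring
      rw [e2]
      exact add_le_add h3 k3
    · intro t ht y hy1 hy2 b hb
      rw [hBH, ← add_assoc] at hy1 hy2
      have hk := k4 t ht y hy1 hy2
      have hy1' : (m : ℝ) / (r : ℝ) ^ (J + B * H) ≤ y := by
        refine le_trans ?_ hy1
        rw [pow_add _ (J + B * H) H, div_le_div_iff₀ hrJ (by positivity)]
        calc (m : ℝ) * ((r : ℝ) ^ (J + B * H) * (r : ℝ) ^ H) =
            (m : ℝ) * (r : ℝ) ^ H * (r : ℝ) ^ (J + B * H) := by ring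
          _ ≤ m' * (r : ℝ) ^ (J + B * H) := by gcongr
      have hy2' : y ≤ ((m : ℝ) + 1) / (r : ℝ) ^ (J + B * H) := by
        refine le_trans hy2 ?_
        rw [pow_add _ (J + B * H) H, div_le_div_iff₀ (by positivity) hrJ]
        calc ((m' : ℝ) + 1) * (r : ℝ) ^ (J + B * H) ≤
            (((m : ℝ) + 1) * (r : ℝ) ^ H) * (r : ℝ) ^ (J + B * H) := by gcongr
          _ = ((m : ℝ) + 1) * ((r : ℝ) ^ (J + B * H) * (r : ℝ) ^ H) := by ring
      rcases Nat.lt_or_ge B b with hbB | hbB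
      · have hb1 : b = B + 1 := by omega
        subst hb1
        have hs2 : 2 ≤ s t := (hT t ht).1
        have c1 : cnt (s t) ((r : ℝ) ^ J) ≤ cnt (s t) ((r : ℝ) ^ (J + B * H)) :=
          cnt_mono hs2 (pow_le_pow_right₀ hr1 (by omega))
        have c2 : cnt (s t) ((r : ℝ) ^ (J + B * H)) ≤ cnt (s t) ((r : ℝ) ^ (J + B * H + H)) :=
          cnt_mono hs2 (pow_le_pow_right₀ hr1 (by omega))
        have hi := h4 t ht y hy1' hy2' B le_rfl
        rw [hBH, ← add_assoc, ← Finset.sum_Ico_consecutive _ c1 c2]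
        refine (norm_add_le _ _).trans ?_
        push_cast at hi hk ⊢
        have : τ * ((B : ℝ) * H + H) = τ * ((B : ℝ) * H) + τ * H := by ring
        rw [this]
        exact add_le_add hi hk
      · exact h4 t ht y hy1' hy2' b hbB

end MP798203.AB
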