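import Pool.Agent.Lib.MP_798203_nt.AB.StepJ

/-!
Iterated blocks for `m` coordinates (compare `iter`, `iterX`). `q = ⌈2m/ε⌉ + 2`, `τ = ε log 2`, `H = max H0 1`. By induction on `B`
(with `stepJ`; `di_nest` for the old digits): there is `z` with: nested; for all `b ≤ B` and all `i` at most `ε b H` of the
`j ∈ Ico J (J + b H)` are bad; for all `b ≤ B`, `t`, `y` the sum over `Ico (cnt r^J) (cnt r^(J+bH))` is at most `τ b H`.
Then for `X` between `r^J` and `r^(J+BH)` let `b ≤ B` be maximal with `r^(J+bH) ≤ X` (`Nat.findGreatest`): the remaining part has at most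
`2 H log r + 1` terms (`norm_sum_cnt_le`, `cnt_diff`; for digits: `j < cnt r X` iff `r^j < X`, `cnt_pow`), and
`b H log 2 ≤ b H log r ≤ log (X/r^J)`. For the digits: `ε b H ≤ 2 ε log (X / r^J)`: so use `ε/2`. `C = 2 H log r + 1`.
-/

namespace MP798203.AB

open Real Finset

private theorem iterJ_aux {ι : Type*} {m q r : ℕ} (hq : 2 ≤ q) (hr : 2 ≤ r) (T : Finset ι)
    (β : ι → Fin m → ℝ) (s : ι → ℕ) (hT : ∀ t ∈ T, 2 ≤ s t ∧ ∃ i, Adm r (s t) (β t i))
    {τ : ℝ} (hτ : 0 < τ) :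
    ∃ H : ℕ, 0 < H ∧ ∀ (J : ℕ) (z0 : Fin m → ℤ) (d : Fin m → ℕ → ℕ),
      (∀ i j, d i j < r) → ∀ φ : ι → ℕ → ℂ, (∀ t n, ‖φ t n‖ ≤ 1) → ∀ B : ℕ,
      ∃ z : Fin m → ℤ, (∀ i, z0 i * (r : ℤ) ^ (B * H) ≤ z i ∧
          z i < (z0 i + 1) * (r : ℤ) ^ (B * H)) ∧
        (∀ i, ∀ b : ℕ, b ≤ B →
          (((Ico J (J + b * H)).filter (fun j => di r (J + B * H) (z i) j ≠ (d i j : ℤ))).card : ℝ) ≤
            2 * m / q * (b * H : ℕ)) ∧
        ∀ t ∈ T, ∀ y : Fin m → ℝ, (∀ i, (z i : ℝ) / (r : ℝ) ^ (J + B * H) ≤ y i ∧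
          y i ≤ ((z i : ℝ) + 1) / (r : ℝ) ^ (J + B * H)) → ∀ b : ℕ, b ≤ B →
          ‖∑ n ∈ Ico (cnt (s t) ((r : ℝ) ^ J)) (cnt (s t) ((r : ℝ) ^ (J + b * H))),
            φ t n * ee ((s t : ℝ) ^ n * ∑ i, β t i * y i)‖ ≤ τ * (b * H : ℕ) := by
  classical
  obtain ⟨H0, hH0⟩ := stepJ hq hr T β s hT hτ
  refine ⟨max H0 1, by positivity, ?_⟩
  intro J z0 d hd φ hφ B
  obtain ⟨H, hH⟩ : ∃ H : ℕ, H = max H0 1 := ⟨_, rfl⟩
  rw [← hH]
  have hHH : H0 ≤ H := by rw [hH]; exact le_max_left _ _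
  have hr0 : (0 : ℝ) < r := by exact_mod_cast (by omega : 0 < r)
  have hrz : (0 : ℤ) < r := by exact_mod_cast (by omega : 0 < r)
  have hr1 : (1 : ℝ) ≤ r := by exact_mod_cast (by omega : 1 ≤ r)
  induction B with
  | zero =>
    refine ⟨z0, fun i => ⟨by simp, by simp⟩, ?_, ?_⟩
    · intro i b hb
      have hb0 : b = 0 := by omega
      subst hb0
      simp
    · intro t _ y _ b hb
      have hb0 : b = 0 := by omega
      subst hb0
      simp
  | succ B ih =>
    obtain ⟨z, h1, h3, h4⟩ := ih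
    obtain ⟨z', k1, k3, k4⟩ := hH0 H hHH (J + B * H) z d hd φ hφ
    have hBH : (B + 1) * H = B * H + H := by ring
    have hrH : (0 : ℤ) < (r : ℤ) ^ H := by positivity
    have hrHr : (0 : ℝ) < (r : ℝ) ^ H := by positivity
    have hrJ : (0 : ℝ) < (r : ℝ) ^ (J + B * H) := by positivity
    refine ⟨z', ?_, ?_, ?_⟩
    · intro i
      rw [hBH, pow_add, ← mul_assoc, ← mul_assoc]
      constructor
      · exact (mul_le_mul_of_nonneg_right (h1 i).1 hrH.le).trans (k1 i).1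
      · refine lt_of_lt_of_le (k1 i).2 ?_
        have := (h1 i).2
        exact mul_le_mul_of_nonneg_right (by omega) hrH.le
    · intro i b hb
      rw [hBH, ← add_assoc]
      have e0 : ∀ b, b ≤ B → ((Ico J (J + b * H)).filter
          (fun j => di r (J + B * H + H) (z' i) j ≠ (d i j : ℤ))).card =
          ((Ico J (J + b * H)).filter (fun j => di r (J + B * H) (z i) j ≠ (d i j : ℤ))).card := by
        intro b hb
        congr 1
        refine Finset.filter_congr fun j hj => ?_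
        rw [mem_Ico] at hj
        have : b * H ≤ B * H := Nat.mul_le_mul_right H hb
        rw [di_nest hr (k1 i).1 (k1 i).2 (by omega)]
      rcases Nat.lt_or_ge B b with hbB | hbB
      · have hb1 : b = B + 1 := by omega
        subst hb1
        have e1 : ((Ico J (J + (B + 1) * H)).filter
            (fun j => di r (J + B * H + H) (z' i) j ≠ (d i j : ℤ))).card =
            ((Ico J (J + B * H)).filter
              (fun j => di r (J + B * H) (z i) j ≠ (d i j : ℤ))).card +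
            ((range H).filter (fun j => di r (J + B * H + H) (z' i) (J + B * H + j) ≠
              (d i (J + B * H + j) : ℤ))).card := by
          rw [← e0 B le_rfl, hBH, ← add_assoc]
          rw [Finset.card_filter, Finset.card_filter, Finset.card_filter,
            ← Finset.sum_Ico_consecutive _ (Nat.le_add_right J (B * H))
              (Nat.le_add_right (J + B * H) H)]
          congr 1
          rw [Finset.sum_Ico_eq_sum_range, Nat.add_sub_cancel_left]
        rw [e1, hBH]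
        have a1 := h3 i B le_rfl
        have a2 := k3 i
        push_cast at a1 ⊢
        have e2 : 2 * (m : ℝ) / q * (B * H + H) = 2 * m / q * (B * H) + 2 * m * H / q := by ring
        rw [e2]
        exact add_le_add a1 a2
      · rw [e0 b hbB]
        exact h3 i b hbB
    · intro t ht y hy b hb
      rw [hBH, ← add_assoc] at hy
      have hk := k4 t ht y hy
      have hy' : ∀ i, (z i : ℝ) / (r : ℝ) ^ (J + B * H) ≤ y i ∧
          y i ≤ ((z i : ℝ) + 1) / (r : ℝ) ^ (J + B * H) := by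
        intro i
        obtain ⟨hy1, hy2⟩ := hy i
        have k1r : (z i : ℝ) * (r : ℝ) ^ H ≤ z' i := by exact_mod_cast (k1 i).1
        have k2r : (z' i : ℝ) + 1 ≤ ((z i : ℝ) + 1) * (r : ℝ) ^ H := by
          have : z' i + 1 ≤ (z i + 1) * (r : ℤ) ^ H := (k1 i).2
          exact_mod_cast this
        constructor
        · refine le_trans ?_ hy1
          rw [pow_add _ (J + B * H) H, div_le_div_iff₀ hrJ (by positivity)]
          calc (z i : ℝ) * ((r : ℝ) ^ (J + B * H) * (r : ℝ) ^ H) =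
              (z i : ℝ) * (r : ℝ) ^ H * (r : ℝ) ^ (J + B * H) := by ring
            _ ≤ z' i * (r : ℝ) ^ (J + B * H) := by gcongr
        · refine le_trans hy2 ?_
          rw [pow_add _ (J + B * H) H, div_le_div_iff₀ (by positivity) hrJ]
          calc ((z' i : ℝ) + 1) * (r : ℝ) ^ (J + B * H) ≤
              (((z i : ℝ) + 1) * (r : ℝ) ^ H) * (r : ℝ) ^ (J + B * H) := by gcongr
            _ = ((z i : ℝ) + 1) * ((r : ℝ) ^ (J + B * H) * (r : ℝ) ^ H) := by ring
      rcases Nat.lt_or_ge B b with hbB | hbB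
      · have hb1 : b = B + 1 := by omega
        subst hb1
        have hs2 : 2 ≤ s t := (hT t ht).1
        have c1 : cnt (s t) ((r : ℝ) ^ J) ≤ cnt (s t) ((r : ℝ) ^ (J + B * H)) :=
          cnt_mono hs2 (pow_le_pow_right₀ hr1 (by omega))
        have c2 : cnt (s t) ((r : ℝ) ^ (J + B * H)) ≤ cnt (s t) ((r : ℝ) ^ (J + B * H + H)) :=
          cnt_mono hs2 (pow_le_pow_right₀ hr1 (by omega))
        have hi := h4 t ht y hy' B le_rfl
        rw [hBH, ← add_assoc, ← Finset.sum_Ico_consecutive _ c1 c2]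
        refine (norm_add_le _ _).trans ?_
        push_cast at hi hk ⊢
        have : τ * ((B : ℝ) * H + H) = τ * ((B : ℝ) * H) + τ * H := by ring
        rw [this]
        exact add_le_add hi hk
      · exact h4 t ht y hy' b hbB

theorem iterJ {ι : Type*} {m r : ℕ} (hr : 2 ≤ r) (T : Finset ι)
    (β : ι → Fin m → ℝ) (s : ι → ℕ) (hT : ∀ t ∈ T, 2 ≤ s t ∧ ∃ i, Adm r (s t) (β t i))
    {ε : ℝ} (hε : 0 < ε) :
    ∃ (H : ℕ) (C : ℝ), 0 < H ∧ 0 ≤ C ∧ ∀ (J : ℕ) (z0 : Fin m → ℤ) (d : Fin m → ℕ → ℕ),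
      (∀ i j, d i j < r) → ∀ φ : ι → ℕ → ℂ, (∀ t n, ‖φ t n‖ ≤ 1) → ∀ B : ℕ,
      ∃ z : Fin m → ℤ, (∀ i, z0 i * (r : ℤ) ^ (B * H) ≤ z i ∧
          z i < (z0 i + 1) * (r : ℤ) ^ (B * H)) ∧
        (∀ i, ∀ X : ℝ, (r : ℝ) ^ J ≤ X → X ≤ (r : ℝ) ^ (J + B * H) →
          (((Ico J (cnt r X)).filter (fun j => di r (J + B * H) (z i) j ≠ (d i j : ℤ))).card : ℝ) ≤
            ε * Real.log (X / (r : ℝ) ^ J) + C) ∧
        ∀ t ∈ T, ∀ y : Fin m → ℝ, (∀ i, (z i : ℝ) / (r : ℝ) ^ (J + B * H) ≤ y i ∧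
          y i ≤ ((z i : ℝ) + 1) / (r : ℝ) ^ (J + B * H)) →
          ∀ X : ℝ, (r : ℝ) ^ J ≤ X → X ≤ (r : ℝ) ^ (J + B * H) →
          ‖∑ n ∈ Ico (cnt (s t) ((r : ℝ) ^ J)) (cnt (s t) X),
            φ t n * ee ((s t : ℝ) ^ n * ∑ i, β t i * y i)‖ ≤
              ε * Real.log (X / (r : ℝ) ^ J) + C := by
  have hl2 : 0 < Real.log 2 := Real.log_pos (by norm_num)
  have hε2 : 0 < ε * Real.log 2 := mul_pos hε hl2
  have hq : 2 ≤ ⌈2 * m / (ε * Real.log 2)⌉₊ + 2 := by omega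
  obtain ⟨H, hH, h⟩ := iterJ_aux hq hr T β s hT hε2
  have hr1 : (1 : ℝ) < r := by exact_mod_cast (by omega : 1 < r)
  have hr0 : (0 : ℝ) < r := by linarith
  have hlr : Real.log 2 ≤ Real.log r := Real.log_le_log (by norm_num) (by exact_mod_cast hr)
  have hlr0 : 0 < Real.log r := lt_of_lt_of_le hl2 hlr
  refine ⟨H, 2 * (H * Real.log r) + 1, hH, by positivity, ?_⟩
  intro J z0 d hd φ hφ B
  obtain ⟨z, hz1, hz3, hz4⟩ := h J z0 d hd φ hφ B
  -- the block below `X`
  have hblock : ∀ X : ℝ, (r : ℝ) ^ J ≤ X → X ≤ (r : ℝ) ^ (J + B * H) →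
      ∃ b : ℕ, b ≤ B ∧ (r : ℝ) ^ (J + b * H) ≤ X ∧
        Real.log (X / (r : ℝ) ^ (J + b * H)) ≤ H * Real.log r ∧
        ε * Real.log 2 * ((b * H : ℕ) : ℝ) ≤ ε * Real.log (X / (r : ℝ) ^ J) := by
    intro X hX1 hX2
    obtain ⟨P, hP⟩ : ∃ P : ℕ → Prop, P = fun b => (r : ℝ) ^ (J + b * H) ≤ X := ⟨_, rfl⟩
    have hP0 : P 0 := by rw [hP]; simpa using hX1
    classical
    obtain ⟨b, hb⟩ : ∃ b, b = Nat.findGreatest P B := ⟨_, rfl⟩
    have hbP' : P b := by rw [hb]; exact Nat.findGreatest_spec (Nat.zero_le B) hP0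
    have hbP : (r : ℝ) ^ (J + b * H) ≤ X := by rw [hP] at hbP'; exact hbP'
    have hbB : b ≤ B := by rw [hb]; exact Nat.findGreatest_le B
    have hpow : (0 : ℝ) < (r : ℝ) ^ (J + b * H) := pow_pos hr0 _
    have hX0 : 0 < X := lt_of_lt_of_le hpow hbP
    have hXle : X ≤ (r : ℝ) ^ (J + b * H) * (r : ℝ) ^ H := by
      rcases hbB.lt_or_eq with hlt | heq
      · have h1 : ¬ P (b + 1) := Nat.findGreatest_is_greatest (by omega) hlt
        rw [hP] at h1
        simp only [not_le] at h1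
        refine h1.le.trans (le_of_eq ?_)
        rw [← pow_add]
        congr 1
        ring
      · rw [heq]
        refine hX2.trans ?_
        exact le_mul_of_one_le_right (pow_nonneg hr0.le _) (one_le_pow₀ hr1.le)
    have hlog : Real.log (X / (r : ℝ) ^ (J + b * H)) ≤ H * Real.log r := by
      rw [← Real.log_pow]
      apply Real.log_le_log (by positivity)
      rw [div_le_iff₀ hpow, mul_comm]
      exact hXle
    have hlog2 : ((b * H : ℕ) : ℝ) * Real.log r ≤ Real.log (X / (r : ℝ) ^ J) := by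
      rw [← Real.log_pow]
      apply Real.log_le_log (by positivity)
      rw [le_div_iff₀ (by positivity), ← pow_add, add_comm (b * H) J]
      exact hbP
    refine ⟨b, hbB, hbP, hlog, ?_⟩
    have h4 : Real.log 2 * ((b * H : ℕ) : ℝ) ≤ ((b * H : ℕ) : ℝ) * Real.log r := by
      rw [mul_comm]
      exact mul_le_mul_of_nonneg_left hlr (Nat.cast_nonneg _)
    calc ε * Real.log 2 * ((b * H : ℕ) : ℝ) = ε * (Real.log 2 * ((b * H : ℕ) : ℝ)) := by ring
      _ ≤ ε * Real.log (X / (r : ℝ) ^ J) :=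
        mul_le_mul_of_nonneg_left (h4.trans hlog2) hε.le
  refine ⟨z, hz1, ?_, ?_⟩
  · intro i X hX1 hX2
    obtain ⟨b, hbB, hbP, hlog, h3⟩ := hblock X hX1 hX2
    have hpow : (0 : ℝ) < (r : ℝ) ^ (J + b * H) := pow_pos hr0 _
    have c1 := cnt_diff hr hpow hbP
    rw [cnt_pow hr] at c1
    have c2 : J + b * H ≤ cnt r X := by
      have := cnt_mono hr hbP
      rwa [cnt_pow hr] at this
    have e1 : ((Ico J (cnt r X)).filter
        (fun j => di r (J + B * H) (z i) j ≠ (d i j : ℤ))).card ≤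
        ((Ico J (J + b * H)).filter (fun j => di r (J + B * H) (z i) j ≠ (d i j : ℤ))).card +
        (cnt r X - (J + b * H)) := by
      rw [← Finset.Ico_union_Ico_eq_Ico (Nat.le_add_right J (b * H)) c2, Finset.filter_union]
      refine (Finset.card_union_le _ _).trans ?_
      refine Nat.add_le_add_left ?_ _
      refine (Finset.card_filter_le _ _).trans ?_
      rw [Nat.card_Ico]
    have e2 : ((cnt r X - (J + b * H) : ℕ) : ℝ) ≤ 2 * (H * Real.log r) + 1 := by
      rw [Nat.cast_sub c2]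
      linarith
    have e3 := hz3 i b hbB
    have e4 : 2 * (m : ℝ) / ((⌈2 * m / (ε * Real.log 2)⌉₊ + 2 : ℕ) : ℝ) ≤ ε * Real.log 2 := by
      rw [div_le_iff₀ (by positivity)]
      have h1 : 2 * m / (ε * Real.log 2) ≤ (⌈2 * m / (ε * Real.log 2)⌉₊ : ℝ) := Nat.le_ceil _
      rw [div_le_iff₀ hε2] at h1
      push_cast
      nlinarith
    have e5 := mul_le_mul_of_nonneg_right e4 (Nat.cast_nonneg (α := ℝ) (b * H))
    have e6 : (((Ico J (cnt r X)).filter
        (fun j => di r (J + B * H) (z i) j ≠ (d i j : ℤ))).card : ℝ) ≤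
        ((Ico J (J + b * H)).filter (fun j => di r (J + B * H) (z i) j ≠ (d i j : ℤ))).card +
        (cnt r X - (J + b * H) : ℕ) := by exact_mod_cast e1
    linarith
  · intro t ht y hy X hX1 hX2
    have hs := (hT t ht).1
    obtain ⟨b, hbB, hbP, hlog, h3⟩ := hblock X hX1 hX2
    have hpow : (0 : ℝ) < (r : ℝ) ^ (J + b * H) := pow_pos hr0 _
    have hsplit : ∑ n ∈ Ico (cnt (s t) ((r : ℝ) ^ J)) (cnt (s t) X),
        φ t n * ee ((s t : ℝ) ^ n * ∑ i, β t i * y i) =
        ∑ n ∈ Ico (cnt (s t) ((r : ℝ) ^ J)) (cnt (s t) ((r : ℝ) ^ (J + b * H))),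
          φ t n * ee ((s t : ℝ) ^ n * ∑ i, β t i * y i) +
        ∑ n ∈ Ico (cnt (s t) ((r : ℝ) ^ (J + b * H))) (cnt (s t) X),
          φ t n * ee ((s t : ℝ) ^ n * ∑ i, β t i * y i) := by
      refine (Finset.sum_Ico_consecutive _ (cnt_mono hs ?_) (cnt_mono hs hbP)).symm
      exact pow_le_pow_right₀ hr1.le (Nat.le_add_right _ _)
    rw [hsplit]
    refine (norm_add_le _ _).trans ?_
    have h1 := hz4 t ht y hy b hbB
    have h2 := norm_sum_cnt_le hs hpow hbP
      (fun n => φ t n * ee ((s t : ℝ) ^ n * ∑ i, β t i * y i))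
      (fun n => by
        show ‖φ t n * ee ((s t : ℝ) ^ n * ∑ i, β t i * y i)‖ ≤ 1
        rw [norm_mul, norm_ee, mul_one]; exact hφ t n)
    linarith

end MP798203.AB
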