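import Pool.Agent.Lib.MP_798203_nt.AB.Iter

/-!
`iter` with `q = ⌈2/ε⌉ + 2` and `τ = ε log 2`, and all scales `X` instead of `r^(J+bH)`.
Digits: `2 B H / q ≤ ε B H`. Sums: let `b ≤ B` be maximal with `r^(J+bH) ≤ X` (`Nat.findGreatest`). If `b < B` then
`X < r^(J+(b+1)H)`; the rest `Ico (cnt r^(J+bH)) (cnt X)` contributes at most `2 log (X / r^(J+bH)) + 1 ≤ 2 H log r + 1`
(`norm_sum_cnt_le`); if `b = B`, `X = r^(J+BH)`, no rest. And `τ b H = ε b H log 2 ≤ ε b H log r ≤ ε log (X / r^J)`.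
`C = 2 H log r + 1`.
-/

namespace MP798203.AB

open Real Finset

theorem iterX {ι : Type*} {r : ℕ} (hr : 2 ≤ r) (T : Finset ι) (β : ι → ℝ)
    (s : ι → ℕ) (hT : ∀ t ∈ T, 2 ≤ s t ∧ Adm r (s t) (β t)) {ε : ℝ} (hε : 0 < ε) :
    ∃ (H : ℕ) (C : ℝ), 0 < H ∧ 0 ≤ C ∧ ∀ (J : ℕ) (m0 : ℤ) (d : ℕ → ℕ), (∀ j, d j < r) →
      ∀ φ : ι → ℕ → ℂ, (∀ t n, ‖φ t n‖ ≤ 1) → ∀ B : ℕ,
      ∃ m : ℤ, m0 * (r : ℤ) ^ (B * H) ≤ m ∧ m < (m0 + 1) * (r : ℤ) ^ (B * H) ∧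
        (((Ico J (J + B * H)).filter (fun j => di r (J + B * H) m j ≠ (d j : ℤ))).card : ℝ) ≤
          ε * (B * H : ℕ) ∧
        ∀ t ∈ T, ∀ y : ℝ, (m : ℝ) / (r : ℝ) ^ (J + B * H) ≤ y →
          y ≤ ((m : ℝ) + 1) / (r : ℝ) ^ (J + B * H) →
          ∀ X : ℝ, (r : ℝ) ^ J ≤ X → X ≤ (r : ℝ) ^ (J + B * H) →
          ‖∑ n ∈ Ico (cnt (s t) ((r : ℝ) ^ J)) (cnt (s t) X),
            φ t n * ee (β t * (s t : ℝ) ^ n * y)‖ ≤ ε * Real.log (X / (r : ℝ) ^ J) + C := by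
  have hq : 2 ≤ ⌈2 / ε⌉₊ + 2 := by omega
  have hl2 : 0 < Real.log 2 := Real.log_pos (by norm_num)
  obtain ⟨H, hH, h⟩ := iter hq hr T β s hT (mul_pos hε hl2)
  have hr1 : (1 : ℝ) < r := by exact_mod_cast (by omega : 1 < r)
  have hr0 : (0 : ℝ) < r := by linarith
  have hlr : Real.log 2 ≤ Real.log r := Real.log_le_log (by norm_num) (by exact_mod_cast hr)
  have hlr0 : 0 < Real.log r := lt_of_lt_of_le hl2 hlr
  refine ⟨H, 2 * (H * Real.log r) + 1, hH, by positivity, ?_⟩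
  intro J m0 d hd φ hφ B
  obtain ⟨m, hm1, hm2, hm3, hm4⟩ := h J m0 d hd φ hφ B
  refine ⟨m, hm1, hm2, ?_, ?_⟩
  · refine hm3.trans ?_
    have hq' : (2 : ℝ) / ((⌈2 / ε⌉₊ + 2 : ℕ) : ℝ) ≤ ε := by
      rw [div_le_iff₀ (by positivity)]
      have h1 : 2 / ε ≤ (⌈2 / ε⌉₊ : ℝ) := Nat.le_ceil _
      rw [div_le_iff₀ hε] at h1
      push_cast
      nlinarith
    have h2 : (0 : ℝ) ≤ ((B * H : ℕ) : ℝ) := Nat.cast_nonneg _
    calc 2 * ((B * H : ℕ) : ℝ) / ((⌈2 / ε⌉₊ + 2 : ℕ) : ℝ)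
        = 2 / ((⌈2 / ε⌉₊ + 2 : ℕ) : ℝ) * ((B * H : ℕ) : ℝ) := by ring
      _ ≤ ε * ((B * H : ℕ) : ℝ) := mul_le_mul_of_nonneg_right hq' h2
  · intro t ht y hy1 hy2 X hX1 hX2
    have hs := (hT t ht).1
    set P : ℕ → Prop := fun b => (r : ℝ) ^ (J + b * H) ≤ X with hP
    have hP0 : P 0 := by rw [hP]; simpa using hX1
    classical
    set b := Nat.findGreatest P B with hb
    have hbP : (r : ℝ) ^ (J + b * H) ≤ X := Nat.findGreatest_spec (Nat.zero_le B) hP0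
    have hbB : b ≤ B := Nat.findGreatest_le B
    have hpow : (0 : ℝ) < (r : ℝ) ^ (J + b * H) := pow_pos hr0 _
    have hX0 : 0 < X := lt_of_lt_of_le hpow hbP
    have hXle : X ≤ (r : ℝ) ^ (J + b * H) * (r : ℝ) ^ H := by
      rcases hbB.lt_or_eq with hlt | heq
      · have h1 : ¬ P (b + 1) := Nat.findGreatest_is_greatest (Nat.lt_succ_self b) hlt
        rw [hP] at h1
        simp only [not_le] at h1
        refine h1.le.trans (le_of_eq ?_)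
        rw [← pow_add]
        congr 1
        ring
      · rw [heq]
        refine hX2.trans ?_
        exact le_mul_of_one_le_right (pow_nonneg hr0.le _) (one_le_pow₀ hr1.le)
    have hlog : Real.log (X / (r : ℝ) ^ (J + b * H)) ≤ H * Real.log r := by
      rw [← Real.log_pow]
      apply Real.log_le_log (by positivity)
      rw [div_le_iff₀ hpow, mul_comm]
      exact hXle
    have hlog2 : ((b * H : ℕ) : ℝ) * Real.log r ≤ Real.log (X / (r : ℝ) ^ J) := by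
      rw [← Real.log_pow]
      apply Real.log_le_log (by positivity)
      rw [le_div_iff₀ (by positivity), ← pow_add, add_comm (b * H) J]
      exact hbP
    have hsplit : ∑ n ∈ Ico (cnt (s t) ((r : ℝ) ^ J)) (cnt (s t) X),
        φ t n * ee (β t * (s t : ℝ) ^ n * y) =
        ∑ n ∈ Ico (cnt (s t) ((r : ℝ) ^ J)) (cnt (s t) ((r : ℝ) ^ (J + b * H))),
          φ t n * ee (β t * (s t : ℝ) ^ n * y) +
        ∑ n ∈ Ico (cnt (s t) ((r : ℝ) ^ (J + b * H))) (cnt (s t) X),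
          φ t n * ee (β t * (s t : ℝ) ^ n * y) := by
      refine (Finset.sum_Ico_consecutive _ (cnt_mono hs ?_) (cnt_mono hs hbP)).symm
      exact pow_le_pow_right₀ hr1.le (Nat.le_add_right _ _)
    rw [hsplit]
    refine (norm_add_le _ _).trans ?_
    have h1 := hm4 t ht y hy1 hy2 b hbB
    have h2 := norm_sum_cnt_le hs hpow hbP (fun n => φ t n * ee (β t * (s t : ℝ) ^ n * y))
      (fun n => by
        show ‖φ t n * ee (β t * (s t : ℝ) ^ n * y)‖ ≤ 1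
        rw [norm_mul, norm_ee, mul_one]; exact hφ t n)
    have h3 : ε * Real.log 2 * ((b * H : ℕ) : ℝ) ≤ ε * Real.log (X / (r : ℝ) ^ J) := by
      have h4 : Real.log 2 * ((b * H : ℕ) : ℝ) ≤ ((b * H : ℕ) : ℝ) * Real.log r := by
        rw [mul_comm]
        exact mul_le_mul_of_nonneg_left hlr (Nat.cast_nonneg _)
      calc ε * Real.log 2 * ((b * H : ℕ) : ℝ) = ε * (Real.log 2 * ((b * H : ℕ) : ℝ)) := by ring
        _ ≤ ε * Real.log (X / (r : ℝ) ^ J) := mul_le_mul_of_nonneg_left (h4.trans hlog2) hε.le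
    linarith

end MP798203.AB
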