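import Pool.Agent.Lib.MP_798203_nt.AB.Dep
import Pool.Agent.Lib.MP_798203_nt.AB.IndC

/-!
Leading digits: the two cases together.
-/

namespace MP798203.AB

open Real Finset

theorem lead_avg {q r s : ℕ} (hq : 2 ≤ q) (hr : 2 ≤ r) (hs : 2 ≤ s) {β : ℝ} (hβ : Adm r s β)
    {ε : ℝ} (hε : 0 < ε) :
    ∃ L N0 : ℕ, ∀ a N : ℕ, N0 ≤ N →
      ∑ n ∈ Ico a (a + N), QL q r L (lead r s β n) ≤ ε * N := by
  by_cases hd : MulDep r s
  · rcases hβ.2 with hi | hi
    · obtain ⟨L, hL⟩ := dep_avg hq hr hs hd hi hε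
      refine ⟨L, 0, fun a N _ => ?_⟩
      calc ∑ n ∈ Ico a (a + N), QL q r L (lead r s β n) ≤ ∑ _n ∈ Ico a (a + N), ε :=
            Finset.sum_le_sum fun n _ => hL n
        _ = ε * N := by
            rw [Finset.sum_const, Nat.card_Ico, add_tsub_cancel_left, nsmul_eq_mul, mul_comm]
    · exact absurd hd hi
  · exact ind_avg hq hr hs hd hβ.1 hε

end MP798203.AB
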