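import Pool.Agent.Lib.MP_798203_nt.AB.Bridge

/-!
Normality to base `s` implies normality to base `s^j`.
`twisted` (van der Corput): `u n = ζ^n ee (g s^n y)`, `‖u n‖ = 1`. For `K ≥ 1`, `∑_{n<N} u n = (1/K) ∑_{n<N} ∑_{k<K} u (n+k) + O(K)` (compare `shift_sum` in
`Wall.lean`), and by Cauchy-Schwarz `|∑_{n<N} ∑_{k<K} u (n+k)|² ≤ N ∑_{k,k'<K} |∑_{n<N} u (n+k) conj (u (n+k'))|`. The terms `k = k'` give `N² K`; for `k ≠ k'`:
`u (n+k) conj (u (n+k')) = ζ^(k-k') ee (g (s^k - s^k') s^n y)` and `g |s^k - s^k'| ≥ 1` is an integer: the inner sum is `o(N)` by `normalTo_iff_weyl`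
(`norm_sum_ee_neg` for the sign). So `limsup |∑ u|²/N² ≤ 1/K` for all `K`.
`normal_pow_up`: for `g ≥ 1`: `∑_{m<M} ee (g (s^j)^m y) = ∑_{n < jM, j ∣ n} ee (g s^n y) = (1/j) ∑_{c<j} ∑_{n<jM} (ζ^c)^n ee (g s^n y)`, `ζ = exp (2πi/j)`; each inner sum
is `o(jM)` by `twisted`; conclude with `normalTo_iff_weyl` for the base `s^j`.
-/

namespace MP798203.AB

open Real Finset Filter Topology

private theorem vdc_sq (u : ℕ → ℂ) (K N : ℕ) :
    ∑ n ∈ range N, ‖∑ k ∈ range K, u (n + k)‖ ^ 2 ≤ ∑ k ∈ range K, ∑ l ∈ range K,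
      ‖∑ n ∈ range N, u (n + k) * (starRingEnd ℂ) (u (n + l))‖ := by
  have h1 : ((∑ n ∈ range N, ‖∑ k ∈ range K, u (n + k)‖ ^ 2 : ℝ) : ℂ) =
      ∑ k ∈ range K, ∑ l ∈ range K,
        ∑ n ∈ range N, u (n + k) * (starRingEnd ℂ) (u (n + l)) := by
    push_cast
    have h2 : ∀ n ∈ range N, ((‖∑ k ∈ range K, u (n + k)‖ : ℂ)) ^ 2 =
        ∑ k ∈ range K, ∑ l ∈ range K, u (n + k) * (starRingEnd ℂ) (u (n + l)) := by
      intro n _
      rw [← Complex.mul_conj', map_sum, Finset.sum_mul_sum]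
    rw [Finset.sum_congr rfl h2, Finset.sum_comm]
    apply Finset.sum_congr rfl
    intro k _
    rw [Finset.sum_comm]
  have h3 : 0 ≤ ∑ n ∈ range N, ‖∑ k ∈ range K, u (n + k)‖ ^ 2 :=
    Finset.sum_nonneg fun _ _ => by positivity
  calc ∑ n ∈ range N, ‖∑ k ∈ range K, u (n + k)‖ ^ 2
      = ‖((∑ n ∈ range N, ‖∑ k ∈ range K, u (n + k)‖ ^ 2 : ℝ) : ℂ)‖ := by
        rw [Complex.norm_real, Real.norm_eq_abs, abs_of_nonneg h3]
    _ ≤ _ := by
        rw [h1]
        refine (norm_sum_le _ _).trans (Finset.sum_le_sum fun k _ => norm_sum_le _ _)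

private theorem vdc (u : ℕ → ℂ) (hu : ∀ n, ‖u n‖ ≤ 1)
    (hc : ∀ k l : ℕ, k ≠ l → Tendsto (fun N : ℕ =>
      ‖∑ n ∈ range N, u (n + k) * (starRingEnd ℂ) (u (n + l))‖ / N) atTop (𝓝 0)) :
    Tendsto (fun N : ℕ => ‖∑ n ∈ range N, u n‖ / N) atTop (𝓝 0) := by
  rw [Metric.tendsto_atTop']
  intro ε hε
  obtain ⟨K, hK⟩ := exists_nat_gt (8 * 1 / ε ^ 2)
  have hKpos : (0:ℝ) < K := lt_of_le_of_lt (by positivity) hK
  have h2 : ∀ᶠ N : ℕ in atTop, ∀ p ∈ range K ×ˢ range K, p.1 ≠ p.2 →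
      ‖∑ n ∈ range N, u (n + p.1) * (starRingEnd ℂ) (u (n + p.2))‖ / N < 1 / K := by
    rw [Filter.eventually_all_finset]
    intro p _
    by_cases hp : p.1 = p.2
    · exact Eventually.of_forall fun N h => absurd hp h
    · have := (hc p.1 p.2 hp).eventually (gt_mem_nhds (by positivity : (0:ℝ) < 1 / K))
      filter_upwards [this] with N hN _
      exact hN
  obtain ⟨N0, hN0⟩ := eventually_atTop.mp h2
  obtain ⟨N1, hN1⟩ := exists_nat_gt (4 * K / ε)
  refine ⟨max N0 N1 + 1, fun N hN => ?_⟩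
  have hNN0 : N0 ≤ N := by have := le_max_left N0 N1; omega
  have hNN1 : N1 ≤ N := by have := le_max_right N0 N1; omega
  have hNpos : (0:ℝ) < N := by exact_mod_cast (by omega : 0 < N)
  have h3 : ∑ n ∈ range N, ‖∑ k ∈ range K, u (n + k)‖ ^ 2 ≤ 2 * K * N := by
    refine (vdc_sq u K N).trans ?_
    have h4 : ∀ k ∈ range K, ∀ l ∈ range K,
        ‖∑ n ∈ range N, u (n + k) * (starRingEnd ℂ) (u (n + l))‖ ≤
          (if k = l then (N : ℝ) else 0) + N / K := by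
      intro k hk l hl
      by_cases hkl : k = l
      · rw [if_pos hkl]
        have h5 : ‖∑ n ∈ range N, u (n + k) * (starRingEnd ℂ) (u (n + l))‖ ≤ N := by
          refine (norm_sum_le _ _).trans ?_
          have h6 : ∀ n ∈ range N, ‖u (n + k) * (starRingEnd ℂ) (u (n + l))‖ ≤ 1 := by
            intro n _
            rw [norm_mul, Complex.norm_conj]
            exact mul_le_one₀ (hu _) (norm_nonneg _) (hu _)
          refine (Finset.sum_le_sum h6).trans (le_of_eq ?_)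
          rw [Finset.sum_const, card_range, nsmul_eq_mul, mul_one]
        have : (0:ℝ) ≤ N / K := by positivity
        linarith
      · rw [if_neg hkl, zero_add]
        have h5 := hN0 N hNN0 (k, l) (Finset.mem_product.2 ⟨hk, hl⟩) hkl
        rw [div_lt_iff₀ hNpos] at h5
        refine h5.le.trans (le_of_eq (by ring))
    refine (Finset.sum_le_sum fun k hk => Finset.sum_le_sum fun l hl => h4 k hk l hl).trans ?_
    have h7 : ∀ k ∈ range K, ∑ l ∈ range K, ((if k = l then (N : ℝ) else 0) + N / K) = 2 * N := by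
      intro k hk
      rw [Finset.sum_add_distrib, Finset.sum_ite_eq, if_pos hk, Finset.sum_const, card_range,
        nsmul_eq_mul, mul_div_cancel₀ _ hKpos.ne']
      ring
    rw [Finset.sum_congr rfl h7, Finset.sum_const, card_range, nsmul_eq_mul]
    exact le_of_eq (by ring)
  have h6 : ‖∑ n ∈ range N, ∑ k ∈ range K, u (n + k)‖ ^ 2 ≤ N * (2 * K * N) := by
    have h7 : ‖∑ n ∈ range N, ∑ k ∈ range K, u (n + k)‖ ^ 2
        ≤ (∑ n ∈ range N, ‖∑ k ∈ range K, u (n + k)‖) ^ 2 := by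
      apply pow_le_pow_left₀ (norm_nonneg _) (norm_sum_le _ _)
    have h8 := sq_sum_le_card_mul_sum_sq (s := range N)
      (f := fun n => ‖∑ k ∈ range K, u (n + k)‖)
    rw [card_range] at h8
    calc _ ≤ _ := h7
      _ ≤ _ := h8
      _ ≤ N * (2 * K * N) := mul_le_mul_of_nonneg_left h3 hNpos.le
  have h10 : ‖∑ n ∈ range N, ∑ k ∈ range K, u (n + k)‖ ≤ ε / 2 * K * N := by
    apply le_of_sq_le_sq _ (by positivity)
    refine h6.trans ?_
    have h11 : 8 * (1:ℝ) < ε ^ 2 * K := by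
      rw [div_lt_iff₀ (by positivity)] at hK
      linarith
    have h12 : (N:ℝ) * (2 * K * N) = (K * N ^ 2 / 4) * (8 * 1) := by ring
    have h13 : (ε / 2 * K * N) ^ 2 = (K * N ^ 2 / 4) * (ε ^ 2 * K) := by ring
    rw [h12, h13]
    apply mul_le_mul_of_nonneg_left h11.le (by positivity)
  have h14 : ‖∑ k ∈ range K, (∑ n ∈ range N, u (n + k) - ∑ n ∈ range N, u n)‖ ≤ 2 * K * K := by
    refine (norm_sum_le _ _).trans ?_
    have h15 : ∀ k ∈ range K, ‖∑ n ∈ range N, u (n + k) - ∑ n ∈ range N, u n‖ ≤ 2 * K := by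
      intro k hk
      have h16 := shift_sum u hu N k
      have h17 : (k:ℝ) ≤ K := by exact_mod_cast (mem_range.mp hk).le
      linarith
    refine (Finset.sum_le_sum h15).trans (le_of_eq ?_)
    rw [Finset.sum_const, card_range, nsmul_eq_mul]
    ring
  have h18 : (K:ℂ) * ∑ n ∈ range N, u n = ∑ n ∈ range N, ∑ k ∈ range K, u (n + k)
      - ∑ k ∈ range K, (∑ n ∈ range N, u (n + k) - ∑ n ∈ range N, u n) := by
    rw [Finset.sum_sub_distrib, Finset.sum_const, card_range, nsmul_eq_mul,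
      Finset.sum_comm (s := range N)]
    ring
  have h19 : (K:ℝ) * ‖∑ n ∈ range N, u n‖ ≤ ε / 2 * K * N + 2 * K * K := by
    have h20 : ‖(K:ℂ) * ∑ n ∈ range N, u n‖ = (K:ℝ) * ‖∑ n ∈ range N, u n‖ := by
      rw [norm_mul, Complex.norm_natCast]
    rw [← h20, h18]
    refine (norm_sub_le _ _).trans ?_
    linarith
  have h21 : ‖∑ n ∈ range N, u n‖ ≤ ε / 2 * N + 2 * K := by
    have h22 : ε / 2 * K * N + 2 * K * K = K * (ε / 2 * N + 2 * K) := by ring
    rw [h22] at h19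
    exact le_of_mul_le_mul_left h19 hKpos
  have h23 : 4 * (K:ℝ) < ε * N := by
    have h24 : 4 * (K:ℝ) / ε < N := lt_of_lt_of_le hN1 (by exact_mod_cast hNN1)
    rw [div_lt_iff₀ hε] at h24
    linarith
  rw [dist_zero_right, Real.norm_eq_abs, abs_of_nonneg (by positivity), div_lt_iff₀ hNpos]
  linarith

private theorem weyl_int' {s : ℕ} (hs : 2 ≤ s) {y : ℝ} (h : NormalTo s y) {G : ℤ} (hG : G ≠ 0) :
    Tendsto (fun N : ℕ => ‖∑ n ∈ range N, ee (G * ((s:ℝ) ^ n * y))‖ / N) atTop (𝓝 0) := by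
  have h1 := (normalTo_iff_weyl hs y).1 h G.natAbs (by omega)
  refine h1.congr (fun N => ?_)
  congr 1
  rcases Int.natAbs_eq G with h' | h'
  · have : (G:ℝ) = (G.natAbs : ℝ) := by
      rw [← Int.cast_natCast]; exact_mod_cast h'
    rw [this]
  · have h2 : (G:ℝ) = -(G.natAbs : ℝ) := by
      rw [← Int.cast_natCast]; exact_mod_cast h'
    have h3 : ∀ n, ee (G * ((s:ℝ) ^ n * y)) = ee (-((G.natAbs : ℝ) * ((s:ℝ) ^ n * y))) := by
      intro n; rw [h2]; congr 1; ring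
    simp_rw [h3]
    rw [norm_sum_ee_neg]

theorem twisted {s : ℕ} (hs : 2 ≤ s) {y : ℝ} (h : NormalTo s y) {j : ℕ} (hj : 0 < j) {ζ : ℂ}
    (hζ : ζ ^ j = 1) {g : ℕ} (hg : 1 ≤ g) :
    Tendsto (fun N : ℕ => ‖∑ n ∈ range N, ζ ^ n * ee (g * ((s : ℝ) ^ n * y))‖ / N) atTop (𝓝 0) := by
  have hζ1 : ‖ζ‖ = 1 := Complex.norm_eq_one_of_pow_eq_one hζ hj.ne'
  have hζc : ζ * (starRingEnd ℂ) ζ = 1 := by
    rw [Complex.mul_conj']
    rw [hζ1]; simp
  apply vdc
  · intro n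
    rw [norm_mul, norm_pow, hζ1, one_pow, one_mul, norm_ee]
  · intro k l hkl
    set G : ℤ := g * ((s:ℤ) ^ k - (s:ℤ) ^ l) with hGdef
    have hG0 : G ≠ 0 := by
      rw [hGdef]
      apply mul_ne_zero (by exact_mod_cast (by omega : g ≠ 0))
      rw [sub_ne_zero]
      intro heq
      apply hkl
      have h1 : s ^ k = s ^ l := by exact_mod_cast heq
      exact Nat.pow_right_injective hs h1
    have hGr : (G : ℝ) = g * ((s:ℝ) ^ k - (s:ℝ) ^ l) := by rw [hGdef]; push_cast; ring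
    refine (weyl_int' hs h hG0).congr (fun N => ?_)
    congr 1
    have h5 : ∀ n, ζ ^ (n + k) * ee (g * ((s : ℝ) ^ (n + k) * y)) *
        (starRingEnd ℂ) (ζ ^ (n + l) * ee (g * ((s : ℝ) ^ (n + l) * y))) =
        (ζ ^ k * (starRingEnd ℂ) ζ ^ l) * ee (G * ((s:ℝ) ^ n * y)) := by
      intro n
      have h6 : ee (G * ((s:ℝ) ^ n * y)) = ee (g * ((s : ℝ) ^ (n + k) * y)) *
          (starRingEnd ℂ) (ee (g * ((s : ℝ) ^ (n + l) * y))) := by
        rw [← ee_sub]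
        congr 1
        rw [hGr, pow_add, pow_add]
        ring
      rw [h6, map_mul, map_pow]
      have h7 : ζ ^ n * (starRingEnd ℂ) ζ ^ n = 1 := by rw [← mul_pow, hζc, one_pow]
      rw [pow_add ζ n k, pow_add ((starRingEnd ℂ) ζ) n l]
      linear_combination (ζ ^ k * (starRingEnd ℂ) ζ ^ l * ee (g * ((s : ℝ) ^ (n + k) * y)) *
        (starRingEnd ℂ) (ee (g * ((s : ℝ) ^ (n + l) * y)))) * h7
    simp_rw [h5]
    rw [← Finset.mul_sum, norm_mul, norm_mul, norm_pow, norm_pow, Complex.norm_conj, hζ1]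
    simp

private theorem root_sum {j : ℕ} {ζ : ℂ} (hζ : IsPrimitiveRoot ζ j) (i : ℕ)
    (hi : i < j) : ∑ c ∈ range j, (ζ ^ c) ^ i = if i = 0 then (j : ℂ) else 0 := by
  by_cases h0 : i = 0
  · simp [h0]
  · rw [if_neg h0]
    have h1 : ζ ^ i ≠ 1 := hζ.pow_ne_one_of_pos_of_lt h0 hi
    have h2 : ∀ c ∈ range j, (ζ ^ c) ^ i = (ζ ^ i) ^ c := by
      intro c _
      rw [← pow_mul, ← pow_mul, mul_comm]
    rw [Finset.sum_congr rfl h2, geom_sum_eq h1, ← pow_mul, mul_comm, pow_mul, hζ.pow_eq_one,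
      one_pow, sub_self, zero_div]

private theorem block_sum {j : ℕ} (hj : 0 < j) {ζ : ℂ} (hζ : IsPrimitiveRoot ζ j) (f : ℕ → ℂ)
    (M : ℕ) : (j : ℂ) * ∑ m ∈ range M, f (j * m) =
      ∑ c ∈ range j, ∑ n ∈ range (j * M), (ζ ^ c) ^ n * f n := by
  induction M with
  | zero => simp
  | succ M ih =>
    rw [Finset.sum_range_succ, mul_add, ih, Nat.mul_succ]
    have h1 : ∀ c ∈ range j, ∑ n ∈ range (j * M + j), (ζ ^ c) ^ n * f n =
        ∑ n ∈ range (j * M), (ζ ^ c) ^ n * f n + ∑ i ∈ range j, (ζ ^ c) ^ i * f (j * M + i) := by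
      intro c _
      rw [Finset.sum_range_add]
      congr 1
      apply Finset.sum_congr rfl
      intro i _
      congr 1
      rw [pow_add, ← pow_mul, show c * (j * M) = j * (c * M) by ring, pow_mul, hζ.pow_eq_one,
        one_pow, one_mul]
    rw [Finset.sum_congr rfl h1, Finset.sum_add_distrib]
    congr 1
    rw [Finset.sum_comm]
    have h2 : ∀ i ∈ range j, ∑ c ∈ range j, (ζ ^ c) ^ i * f (j * M + i) =
        if i = 0 then (j : ℂ) * f (j * M) else 0 := by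
      intro i hi
      rw [← Finset.sum_mul, root_sum hζ i (mem_range.1 hi)]
      by_cases h0 : i = 0
      · simp [h0]
      · simp [h0]
    rw [Finset.sum_congr rfl h2, Finset.sum_ite_eq' (range j) 0, if_pos (mem_range.2 hj)]

theorem normal_pow_up {s : ℕ} (hs : 2 ≤ s) {y : ℝ} (h : NormalTo s y) {j : ℕ} (hj : 0 < j) :
    NormalTo (s ^ j) y := by
  have hsj : 2 ≤ s ^ j := hs.trans (Nat.le_self_pow hj.ne' s)
  rw [normalTo_iff_weyl hsj]
  intro g hg
  obtain ⟨ζ, hζ⟩ : ∃ ζ : ℂ, IsPrimitiveRoot ζ j := ⟨_, Complex.isPrimitiveRoot_exp j hj.ne'⟩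
  have hjR : (0 : ℝ) < j := by exact_mod_cast hj
  set f : ℕ → ℂ := fun n => ee (g * ((s : ℝ) ^ n * y)) with hf
  have hlim : Tendsto (fun M : ℕ => ∑ c ∈ range j,
      ‖∑ n ∈ range (j * M), (ζ ^ c) ^ n * f n‖ / ((j * M : ℕ) : ℝ)) atTop (𝓝 0) := by
    have h1 : Tendsto (fun M : ℕ => ∑ c ∈ range j,
      ‖∑ n ∈ range (j * M), (ζ ^ c) ^ n * f n‖ / ((j * M : ℕ) : ℝ)) atTop
        (𝓝 (∑ c ∈ range j, (0 : ℝ))) := by
      apply tendsto_finsetSum
      intro c _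
      have hζc : (ζ ^ c) ^ j = 1 := by
        rw [← pow_mul, mul_comm, pow_mul, hζ.pow_eq_one, one_pow]
      have h2 := twisted hs h hj hζc hg
      have h3 : Tendsto (fun M : ℕ => j * M) atTop atTop :=
        tendsto_id.const_mul_atTop' hj
      exact h2.comp h3
    simpa using h1
  refine squeeze_zero (fun M => by positivity) (fun M => ?_) hlim
  have h4 := block_sum hj hζ f M
  have h5 : ∀ m : ℕ, ee (g * (((s ^ j : ℕ) : ℝ) ^ m * y)) = f (j * m) := by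
    intro m
    simp only [hf]
    congr 3
    push_cast
    rw [pow_mul]
  simp_rw [h5]
  rcases Nat.eq_zero_or_pos M with hM | hM
  · simp [hM]
  have hMR : (0 : ℝ) < M := by exact_mod_cast hM
  have h6 : (j : ℝ) * ‖∑ m ∈ range M, f (j * m)‖ ≤
      ∑ c ∈ range j, ‖∑ n ∈ range (j * M), (ζ ^ c) ^ n * f n‖ := by
    have h7 : ‖(j : ℂ) * ∑ m ∈ range M, f (j * m)‖ = (j : ℝ) * ‖∑ m ∈ range M, f (j * m)‖ := by
      rw [norm_mul, Complex.norm_natCast]
    rw [← h7, h4]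
    exact norm_sum_le _ _
  rw [← Finset.sum_div, div_le_div_iff₀ hMR (by push_cast; positivity)]
  push_cast
  nlinarith

end MP798203.AB
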