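import Pool.Agent.Lib.MP_798203_nt.AB.Bridge

/-!
Normality to base `r^i` implies normality to base `r`. With `normalTo_iff_weyl`: for `g ≥ 1`:
`∑_{n<N} ee (g r^n y) = ∑_{c<i} ∑_{m : i m + c < N} ee (g r^c (r^i)^m y)` and each inner sum (`⌈(N-c)/i⌉` terms, multiplier
`g r^c ≥ 1`) is `o(N)`. (It is convenient to prove it first for `N = i M` and then to compare `N` with `i ⌊N/i⌋`.)
-/

namespace MP798203.AB

open Real Finset Filter Topology

private theorem sum_blocks (w : ℕ → ℂ) (i M : ℕ) :
    ∑ n ∈ range (i * M), w n = ∑ c ∈ range i, ∑ m ∈ range M, w (i * m + c) := by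
  induction M with
  | zero => simp
  | succ M ih =>
    rw [Nat.mul_succ, Finset.sum_range_add, ih, ← Finset.sum_add_distrib]
    apply Finset.sum_congr rfl
    intro c _
    rw [Finset.sum_range_succ]

theorem normal_pow_down {r : ℕ} (hr : 2 ≤ r) {i : ℕ} (hi : 0 < i) {y : ℝ}
    (h : NormalTo (r ^ i) y) : NormalTo r y := by
  have hri : 2 ≤ r ^ i := le_trans hr (Nat.le_self_pow (by omega) r)
  rw [normalTo_iff_weyl hri] at h
  rw [normalTo_iff_weyl hr]
  intro g hg
  set w : ℕ → ℂ := fun n => ee (g * ((r : ℝ) ^ n * y)) with hw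
  have hw1 : ∀ n, ‖w n‖ ≤ 1 := fun n => (norm_ee _).le
  set F : ℕ → ℝ := fun M => ∑ c ∈ range i, ‖∑ m ∈ range M, w (i * m + c)‖ / M with hF
  have hF0 : Tendsto F atTop (𝓝 0) := by
    have h0 : (0 : ℝ) = ∑ _c ∈ range i, (0 : ℝ) := by simp
    rw [h0]
    apply tendsto_finsetSum
    intro c _
    have h1 := h (g * r ^ c) (Nat.one_le_iff_ne_zero.2 (by
      have : r ^ c ≠ 0 := pow_ne_zero _ (by omega)
      exact Nat.mul_ne_zero (by omega) this))
    refine h1.congr (fun M => ?_)
    congr 2
    apply Finset.sum_congr rfl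
    intro m _
    simp only [hw]
    congr 1
    push_cast
    rw [pow_add, pow_mul]
    ring
  have hF1 : Tendsto (fun N : ℕ => F (N / i) + (i : ℝ) / N) atTop (𝓝 0) := by
    have h1 : Tendsto (fun N : ℕ => N / i) atTop atTop := Nat.tendsto_div_const_atTop (by omega)
    have h2 := hF0.comp h1
    have h3 : Tendsto (fun N : ℕ => (i : ℝ) / N) atTop (𝓝 0) := tendsto_const_div_atTop_nhds_zero_nat _
    have h4 := h2.add h3
    rw [add_zero] at h4
    exact h4
  refine squeeze_zero' (Eventually.of_forall fun N => by positivity) ?_ hF1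
  filter_upwards [eventually_gt_atTop 0] with N hN
  have hN' : (0 : ℝ) < N := by exact_mod_cast hN
  set M := N / i with hM
  have e1 : N = i * M + N % i := (Nat.div_add_mod N i).symm
  have e2 : ∑ n ∈ range N, w n = ∑ n ∈ range (i * M), w n +
      ∑ n ∈ range (N % i), w (i * M + n) := by
    conv_lhs => rw [e1]
    rw [Finset.sum_range_add]
  have e3 : ‖∑ n ∈ range (N % i), w (i * M + n)‖ ≤ i := by
    refine (norm_sum_le _ _).trans ?_
    refine (Finset.sum_le_sum (fun n _ => hw1 _)).trans ?_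
    rw [Finset.sum_const, card_range, nsmul_eq_mul, mul_one]
    exact_mod_cast (Nat.mod_lt N hi).le
  have e4 : ‖∑ n ∈ range (i * M), w n‖ ≤ M * F M := by
    rw [sum_blocks]
    refine (norm_sum_le _ _).trans ?_
    rcases Nat.eq_zero_or_pos M with h0 | h0
    · rw [h0]
      simp
    · have hM' : (0 : ℝ) < M := by exact_mod_cast h0
      simp only [hF]
      rw [Finset.mul_sum]
      apply Finset.sum_le_sum
      intro c _
      rw [mul_div_cancel₀ _ hM'.ne']
  have e5 : (M : ℝ) ≤ N := by exact_mod_cast Nat.div_le_self N i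
  have e6 : 0 ≤ F M := by
    simp only [hF]
    exact Finset.sum_nonneg fun c _ => by positivity
  rw [div_le_iff₀ hN', add_mul, div_mul_cancel₀ _ hN'.ne', e2]
  refine (norm_add_le _ _).trans ?_
  have e7 : (M : ℝ) * F M ≤ F M * N := by
    rw [mul_comm]
    exact mul_le_mul_of_nonneg_left e5 e6
  linarith

end MP798203.AB
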