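import Pool.Agent.Lib.MP_798203_nt.AB.Asm
import Pool.Agent.Lib.MP_798203_nt.AB.PowA
import Pool.Agent.Lib.MP_798203_nt.AB.PowB
import Pool.Agent.Lib.MP_798203_nt.AB.Dummy

/-!
Theorem P.
-/

namespace MP798203.AB

open Real Finset Filter Topology

/-- base change -/
theorem normal_dep {r s : ℕ} (hr : 2 ≤ r) (hs : 2 ≤ s) (hd : MulDep r s) {y : ℝ}
    (h : NormalTo s y) : NormalTo r y := by
  obtain ⟨i, j, hi, hj, hij⟩ := hd
  apply normal_pow_down hr hi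
  rw [hij]
  exact normal_pow_up hs h hj

/-- the tests of stage `k` -/
noncomputable def tests {n : ℕ} (B : Set ((Fin n → ℝ) × ℕ)) (g : ℕ → (Fin n → ℝ) × ℕ) (k : ℕ) :
    Finset ((Fin n → ℝ) × ℕ) := by
  classical
  exact (((range k) ×ˢ (Icc 1 k)).filter (fun p => g p.1 ∈ B)).image
    (fun p => (((p.2 : ℕ) : ℝ) • (g p.1).1, (g p.1).2))

theorem mem_tests {n : ℕ} {B : Set ((Fin n → ℝ) × ℕ)} {g : ℕ → (Fin n → ℝ) × ℕ} {k : ℕ}
    {t : (Fin n → ℝ) × ℕ} : t ∈ tests B g k ↔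
      ∃ b ∈ B, ∃ h : ℕ, 1 ≤ h ∧ h ≤ k ∧ (∃ j < k, g j = b) ∧ t = ((h : ℝ) • b.1, b.2) := by
  classical
  unfold tests
  rw [Finset.mem_image]
  constructor
  · rintro ⟨p, hp, rfl⟩
    rw [Finset.mem_filter, Finset.mem_product, mem_range, mem_Icc] at hp
    exact ⟨g p.1, hp.2, p.2, hp.1.2.1, hp.1.2.2, ⟨p.1, hp.1.1, rfl⟩, rfl⟩
  · rintro ⟨b, hb, h, h1, h2, ⟨j, hj, rfl⟩, rfl⟩
    refine ⟨(j, h), ?_, rfl⟩
    rw [Finset.mem_filter, Finset.mem_product, mem_range, mem_Icc]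
    exact ⟨⟨hj, h1, h2⟩, hb⟩

theorem main_dir {n : ℕ} (hn : 0 < n) (A B : Set ((Fin n → ℝ) × ℕ)) (hA : A.Countable)
    (hB : B.Countable) (hA0 : ∀ p ∈ A, p.1 ≠ 0 ∧ 2 ≤ p.2) (hB0 : ∀ t ∈ B, t.1 ≠ 0 ∧ 2 ≤ t.2)
    (hAB : ∀ p ∈ A, ∀ t ∈ B, ∀ c : ℚ, t.1 = (c : ℝ) • p.1 → ¬ MulDep p.2 t.2)
    (d : (Fin n → ℝ) × ℕ → ℕ → ℕ) (hd : ∀ p j, 2 ≤ p.2 → d p j < p.2) :
    ∃ x : Fin n → ℝ, (∀ t ∈ B, NormalTo t.2 (t.1 ⬝ᵥ x)) ∧
      ∀ p ∈ A, ∀ ε : ℝ, 0 < ε → ∃ᶠ N : ℕ in atTop, (1 - ε) * N ≤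
        (((range N).filter (fun j => dg p.2 (p.1 ⬝ᵥ x) j = (d p j : ℤ))).card : ℝ) := by
  classical
  -- the dummy element
  obtain ⟨a0, ha0, ha1⟩ := exists_dummy hn (Prod.fst '' B) (hB.image _) (by
    rintro b ⟨t, ht, rfl⟩
    exact (hB0 t ht).1)
  set A' : Set ((Fin n → ℝ) × ℕ) := A ∪ {(a0, 2)} with hA'
  have hA'c : A'.Countable := hA.union (Set.countable_singleton _)
  have hA'0 : ∀ p ∈ A', p.1 ≠ 0 ∧ 2 ≤ p.2 := by
    rintro p (hp | hp)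
    · exact hA0 p hp
    · rw [Set.mem_singleton_iff] at hp
      subst hp
      exact ⟨ha0, le_rfl⟩
  have hA'B : ∀ p ∈ A', ∀ t ∈ B, ∀ c : ℚ, t.1 = (c : ℝ) • p.1 → ¬ MulDep p.2 t.2 := by
    rintro p (hp | hp) t ht c hc
    · exact hAB p hp t ht c hc
    · rw [Set.mem_singleton_iff] at hp
      subst hp
      exact absurd hc (ha1 t.1 ⟨t, ht, rfl⟩ c)
  obtain ⟨f, hf⟩ := hA'c.exists_eq_range ⟨(a0, 2), Or.inr rfl⟩
  obtain ⟨g, hg⟩ : ∃ g : ℕ → (Fin n → ℝ) × ℕ, B ⊆ Set.range g := by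
    have := (Set.countable_iff_exists_subset_range).1 hB
    exact this
  have hfA : ∀ i, f i ∈ A' := fun i => by rw [hf]; exact ⟨i, rfl⟩
  set σ : ℕ → (Fin n → ℝ) × ℕ := fun k => f (Nat.unpair k).1 with hσ
  obtain ⟨x, hx1, hx2⟩ := assembly (fun k => (σ k).1) (fun k => (hA'0 _ (hfA _)).1)
    (fun k => (σ k).2) (fun k => (hA'0 _ (hfA _)).2) (fun k => d (σ k))
    (fun k j => hd _ _ (hA'0 _ (hfA _)).2) (tests B g) (by
      intro k t ht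
      rw [mem_tests] at ht
      obtain ⟨b, hb, h, h1, h2, -, rfl⟩ := ht
      have hh : (h : ℝ) ≠ 0 := by
        have : h ≠ 0 := by omega
        exact_mod_cast this
      refine ⟨(hB0 b hb).2, smul_ne_zero hh (hB0 b hb).1, fun c hc => ?_⟩
      apply hA'B (σ k) (hfA _) b hb (c / h)
      simp only at hc
      push_cast
      rw [div_eq_inv_mul, mul_smul, ← hc, smul_smul, inv_mul_cancel₀ hh, one_smul])
  refine ⟨x, fun t ht => ?_, fun p hp ε hε => ?_⟩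
  · rw [normalTo_iff_weyl (hB0 t ht).2]
    intro h hh
    obtain ⟨j, hj⟩ := hg ht
    have h1 := hx1 ((h : ℝ) • t.1, t.2) ⟨h + j + 1, fun k hk => by
      rw [mem_tests]
      exact ⟨t, ht, h, hh, by omega, ⟨j, by omega, hj⟩, rfl⟩⟩
    refine h1.congr (fun N => ?_)
    congr 2
    apply Finset.sum_congr rfl
    intro m _
    congr 1
    simp only
    rw [smul_dotProduct, smul_eq_mul]
    ring
  · have hp' : p ∈ A' := Or.inl hp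
    rw [hf] at hp'
    obtain ⟨i, hi⟩ := hp'
    rw [frequently_atTop]
    intro N0
    obtain ⟨l, hl⟩ := exists_nat_gt (1 / ε)
    set k := Nat.pair i (N0 + l) with hk
    have hk1 : N0 + l ≤ k := Nat.right_le_pair _ _
    have hσk : σ k = p := by
      simp only [hσ, hk, Nat.unpair_pair]
      exact hi
    obtain ⟨M, hM1, hM2⟩ := hx2 k
    refine ⟨M, by omega, ?_⟩
    simp only [hσk] at hM2
    have h1 : (((range M).filter (fun j => dg p.2 (p.1 ⬝ᵥ x) j = (d p j : ℤ))).card : ℝ) +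
        (((range M).filter (fun j => dg p.2 (p.1 ⬝ᵥ x) j ≠ (d p j : ℤ))).card : ℝ) = M := by
      have := Finset.card_filter_add_card_filter_not (s := range M)
        (fun j => dg p.2 (p.1 ⬝ᵥ x) j = (d p j : ℤ))
      rw [card_range] at this
      exact_mod_cast this
    have h2 : 1 / ((k : ℝ) + 1) ≤ ε := by
      rw [div_le_iff₀ (by positivity)]
      rw [div_lt_iff₀ hε] at hl
      have h3 : (l : ℝ) ≤ k := by exact_mod_cast (by omega : l ≤ k)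
      nlinarith
    have h3 : 1 / ((k : ℝ) + 1) * M ≤ ε * M := mul_le_mul_of_nonneg_right h2 (by positivity)
    linarith

theorem tfaeP {n : ℕ} (hn : 0 < n) (A B : Set ((Fin n → ℝ) × ℕ)) (hA : A.Countable)
    (hB : B.Countable) (hA0 : ∀ p ∈ A, p.1 ≠ 0 ∧ 2 ≤ p.2) (hB0 : ∀ t ∈ B, t.1 ≠ 0 ∧ 2 ≤ t.2) :
    List.TFAE [
      ∀ p ∈ A, ∀ t ∈ B, ∀ c : ℚ, t.1 = (c : ℝ) • p.1 → ¬ MulDep p.2 t.2,
      ∃ x : Fin n → ℝ, (∀ t ∈ B, NormalTo t.2 (t.1 ⬝ᵥ x)) ∧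
        ∀ p ∈ A, ¬ NormalTo p.2 (p.1 ⬝ᵥ x),
      ∀ d : (Fin n → ℝ) × ℕ → ℕ → ℕ, (∀ p j, 2 ≤ p.2 → d p j < p.2) →
        ∃ x : Fin n → ℝ, (∀ t ∈ B, NormalTo t.2 (t.1 ⬝ᵥ x)) ∧
          ∀ p ∈ A, ∀ ε : ℝ, 0 < ε → ∃ᶠ N : ℕ in atTop, (1 - ε) * N ≤
            (((range N).filter (fun j => dg p.2 (p.1 ⬝ᵥ x) j = (d p j : ℤ))).card : ℝ)] := by
  tfae_have 1 → 3 := fun h d hd => main_dir hn A B hA hB hA0 hB0 h d hd
  tfae_have 3 → 2 := by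
    intro h
    obtain ⟨x, h1, h2⟩ := h (fun _ _ => 0) (fun p j hp => by omega)
    refine ⟨x, h1, fun p hp => not_normalTo (hA0 p hp).2 ?_⟩
    have h3 := h2 p hp (1 / 4) (by norm_num)
    refine h3.mono (fun N hN => ?_)
    have h4 : (1 - 1 / 4 : ℝ) = 3 / 4 := by norm_num
    rw [h4] at hN
    simpa using hN
  tfae_have 2 → 1 := by
    rintro ⟨x, h1, h2⟩ p hp t ht c hc hdep
    apply h2 p hp
    have hc0 : c ≠ 0 := by
      rintro rfl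
      apply (hB0 t ht).1
      rw [hc]
      simp
    have h3 := normal_dep (hA0 p hp).2 (hB0 t ht).2 hdep (h1 t ht)
    have h4 := normalTo_rat (hA0 p hp).2 h3 (c := c⁻¹) (inv_ne_zero hc0)
    have h5 : ((c⁻¹ : ℚ) : ℝ) * (t.1 ⬝ᵥ x) = p.1 ⬝ᵥ x := by
      rw [hc, smul_dotProduct, smul_eq_mul]
      push_cast
      have : (c : ℝ) ≠ 0 := by exact_mod_cast hc0
      field_simp
    rw [h5] at h4
    exact h4
  tfae_finish

end MP798203.AB
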