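import Pool.Agent.Lib.MP_798203_nt.AB.Defs

/-!
Generic dual vectors. `a` is linearly independent, so there are `v0 j` with `a i ⬝ᵥ v0 j = [i = j]` (extend to a basis / the linear map
`x ↦ (a i ⬝ᵥ x)_i` is surjective: its image is all of `ℝ^m` since a functional vanishing on it gives a relation `∑ c i a i = 0`).
For real `x` let `u(x) = (x, x², …, x^n)` and `v j = v0 j` for `j ≠ 0`, `v 0 = v0 0 + u(x) - ∑_i (a i ⬝ᵥ u(x)) • v0 i`: still dual.
For `b` with `β i = b ⬝ᵥ v0 i`, `b' = b - ∑ β i • a i`: if `b' = 0` then `b = ∑ β i • a i`, and some `β i` is irrational (else `b` would be a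
rational combination), and `b ⬝ᵥ v i = β i` for any dual family. If `b' ≠ 0`: `b ⬝ᵥ v 0 = β 0 + b' ⬝ᵥ u(x)`, for every rational `c` the
equation `β 0 + b' ⬝ᵥ u(x) = c` is polynomial in `x` of degree `≥ 1`, so only countably many `x` are bad. (Compare `exists_dir`, file `Vec.lean`,
delivered.)
-/

namespace MP798203.AB

open Real Finset

/-- dual vectors of a linearly independent family -/
private theorem exists_dual0 {n m : ℕ} (a : Fin m → Fin n → ℝ) (ha : LinearIndependent ℝ a) :
    ∃ v0 : Fin m → Fin n → ℝ, ∀ i j, a i ⬝ᵥ v0 j = if i = j then 1 else 0 := by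
  have hr : (Matrix.of a).rank = Fintype.card (Fin m) := LinearIndependent.rank_matrix ha
  have hs : LinearMap.range (Matrix.of a).mulVecLin = ⊤ := by
    apply Submodule.eq_top_of_finrank_eq
    rw [Module.finrank_fintype_fun_eq_card]
    exact hr
  rw [LinearMap.range_eq_top] at hs
  choose w hw using fun j : Fin m => hs (Pi.single j 1)
  refine ⟨w, fun i j => ?_⟩
  have h := congrFun (hw j) i
  rw [Matrix.mulVecLin_apply] at h
  have h2 : (Matrix.of a).mulVec (w j) i = a i ⬝ᵥ w j := rfl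
  rw [h2, Pi.single_apply] at h
  exact h

theorem exists_dirJ {n m : ℕ} (hm : 0 < m) (a : Fin m → Fin n → ℝ) (ha : LinearIndependent ℝ a)
    (T : Set (Fin n → ℝ)) (hT : T.Countable) :
    ∃ v : Fin m → Fin n → ℝ, (∀ i j, a i ⬝ᵥ v j = if i = j then 1 else 0) ∧
      ∀ b ∈ T, (∀ c : Fin m → ℚ, b ≠ ∑ i, (c i : ℝ) • a i) → ∃ i, Irrational (b ⬝ᵥ v i) := by
  obtain ⟨v0, hv0⟩ := exists_dual0 a ha
  obtain ⟨o, ho⟩ : ∃ o : Fin m, o = ⟨0, hm⟩ := ⟨_, rfl⟩
  set u : ℝ → Fin n → ℝ := fun x i => x ^ ((i : ℕ) + 1) with hu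
  set v : ℝ → Fin m → Fin n → ℝ := fun x j =>
    if j = o then v0 o + u x - ∑ i, (a i ⬝ᵥ u x) • v0 i else v0 j with hv
  have hvo : ∀ x, v x o = v0 o + u x - ∑ i, (a i ⬝ᵥ u x) • v0 i := by
    intro x
    rw [hv]
    exact if_pos rfl
  have hvj : ∀ x j, j ≠ o → v x j = v0 j := by
    intro x j hj
    rw [hv]
    exact if_neg hj
  have hav : ∀ x i j, a i ⬝ᵥ v x j = if i = j then 1 else 0 := by
    intro x i j
    by_cases hj : j = o
    · rw [hj, hvo, dotProduct_sub, dotProduct_add, dotProduct_sum, hv0]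
      have h1 : ∑ k, a i ⬝ᵥ ((a k ⬝ᵥ u x) • v0 k) = a i ⬝ᵥ u x := by
        rw [Finset.sum_eq_single i]
        · rw [dotProduct_smul, hv0, if_pos rfl, smul_eq_mul, mul_one]
        · intro k _ hk
          rw [dotProduct_smul, hv0, if_neg (Ne.symm hk), smul_zero]
        · intro h
          exact absurd (Finset.mem_univ i) h
      rw [h1]
      ring
    · rw [hvj x j hj, hv0]
  obtain ⟨bp, hbp⟩ : ∃ bp : (Fin n → ℝ) → (Fin n → ℝ),
    bp = fun b => b - ∑ i, (b ⬝ᵥ v0 i) • a i := ⟨_, rfl⟩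
  have hbv : ∀ (b : Fin n → ℝ) (x : ℝ),
      b ⬝ᵥ v x o = b ⬝ᵥ v0 o + bp b ⬝ᵥ u x := by
    intro b x
    rw [hvo, hbp, dotProduct_sub, dotProduct_add, dotProduct_sum, sub_dotProduct, sum_dotProduct]
    have h1 : ∀ i, b ⬝ᵥ ((a i ⬝ᵥ u x) • v0 i) = ((b ⬝ᵥ v0 i) • a i) ⬝ᵥ u x := by
      intro i
      rw [dotProduct_smul, smul_dotProduct, smul_eq_mul, smul_eq_mul, mul_comm]
    rw [Finset.sum_congr rfl fun i _ => h1 i]
    ring
  have hcount : (⋃ b ∈ T, ⋃ c : ℚ,
      {x : ℝ | bp b ≠ 0 ∧ b ⬝ᵥ v x o = (c : ℝ)}).Countable := by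
    apply Set.Countable.biUnion hT
    intro b _
    refine Set.countable_iUnion fun c => ?_
    by_cases hb : bp b = 0
    · have : {x : ℝ | bp b ≠ 0 ∧ b ⬝ᵥ v x o = (c : ℝ)} = ∅ := by
        ext x
        simp [hb]
      rw [this]
      exact Set.countable_empty
    · apply Set.Finite.countable
      obtain ⟨i, hi⟩ : ∃ i, (bp b) i ≠ 0 := by
        by_contra hcon
        push Not at hcon
        exact hb (funext hcon)
      set P : Polynomial ℝ := Polynomial.C (b ⬝ᵥ v0 o - (c : ℝ)) +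
        ∑ j : Fin n, Polynomial.C ((bp b) j) * Polynomial.X ^ ((j : ℕ) + 1) with hP
      have hcoef : P.coeff ((i : ℕ) + 1) = (bp b) i := by
        rw [hP, Polynomial.coeff_add, Polynomial.coeff_C, if_neg (by omega), zero_add,
          Polynomial.finsetSum_coeff, Finset.sum_eq_single i]
        · rw [Polynomial.coeff_C_mul_X_pow, if_pos rfl]
        · intro j _ hj
          rw [Polynomial.coeff_C_mul_X_pow, if_neg]
          intro h
          apply hj
          apply Fin.ext
          omega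
        · intro h
          exact absurd (Finset.mem_univ i) h
      have hP0 : P ≠ 0 := by
        intro h
        rw [h, Polynomial.coeff_zero] at hcoef
        exact hi hcoef.symm
      refine (P.roots.toFinset.finite_toSet).subset ?_
      rintro x ⟨-, hx⟩
      rw [Finset.mem_coe, Multiset.mem_toFinset, Polynomial.mem_roots hP0, Polynomial.IsRoot.def,
        hP, Polynomial.eval_add, Polynomial.eval_C, Polynomial.eval_finsetSum]
      rw [hbv] at hx
      have : ∑ j : Fin n, Polynomial.eval x (Polynomial.C ((bp b) j) *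
          Polynomial.X ^ ((j : ℕ) + 1)) = bp b ⬝ᵥ u x := by
        rw [dotProduct]
        refine Finset.sum_congr rfl fun j _ => ?_
        rw [Polynomial.eval_mul, Polynomial.eval_C, Polynomial.eval_pow, Polynomial.eval_X]
      rw [this]
      linarith
  obtain ⟨x, hx⟩ := (hcount.dense_compl ℝ).nonempty
  refine ⟨v x, hav x, fun b hb hbc => ?_⟩
  by_cases hb0 : bp b = 0
  · have hb1 : b = ∑ i, (b ⬝ᵥ v0 i) • a i := by
      rw [hbp] at hb0
      exact sub_eq_zero.1 hb0
    have hb2 : ∀ j, b ⬝ᵥ v x j = b ⬝ᵥ v0 j := by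
      intro j
      conv_lhs => rw [hb1]
      rw [sum_dotProduct, Finset.sum_eq_single j]
      · rw [smul_dotProduct, hav, if_pos rfl, smul_eq_mul, mul_one]
      · intro k _ hk
        rw [smul_dotProduct, hav, if_neg hk, smul_zero]
      · intro h
        exact absurd (Finset.mem_univ j) h
    by_contra hcon
    push Not at hcon
    have hrat : ∀ i, ∃ c : ℚ, (c : ℝ) = b ⬝ᵥ v0 i := by
      intro i
      have h := hcon i
      rw [hb2, Irrational, not_not] at h
      exact h
    choose c hc using hrat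
    apply hbc c
    rw [Finset.sum_congr rfl fun i _ => by rw [hc i]]
    exact hb1
  · refine ⟨o, ?_⟩
    rintro ⟨c, hc⟩
    apply hx
    simp only [Set.mem_iUnion]
    exact ⟨b, hb, c, hb0, hc.symm⟩

end MP798203.AB
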