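import Pool.Agent.Lib.MP_798203_nt.AB.Bridge

/-!
Integer combinations of numbers whose digits are almost all zero are not normal. Let `K` be so large that
`2 π (∑ |c i|) r^(-K) ≤ 1/2`. If `dg r (y i) j = 0` for `j = n, …, n+K-1` then `fract (y i r^n) < r^(-K)` (`⌊y i r^(n+K)⌋ = r^K ⌊y i r^n⌋`, by induction on `K`:
`⌊y r^(j+1)⌋ = r ⌊y r^j⌋ + dg r y j`), so `r^n y i` is an integer plus an error in `[0, r^(-K))` and
`‖ee (r^n ∑ c i y i) - 1‖ ≤ 1/2` (`ee_add_int`, `norm_ee_sub_le`). The set of `n < N` with a bad digit at some position `n, …, n+K-1` of some `y i` has at most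
`K ∑_i #{j < N+K : bad}` elements, `o(N)`. So `‖∑_{n<N} ee (r^n ∑ c i y i)‖ ≥ N/2 - o(N)` and `normalTo_iff_weyl` (`h = 1`) fails.
-/

namespace MP798203.AB

open Real Finset Filter Topology

private lemma zj_floor {r : ℕ} (hr : 2 ≤ r) (y : ℝ) (n : ℕ) :
    ∀ K : ℕ, (∀ j < K, dg r y (n + j) = 0) →
      ⌊y * (r : ℝ) ^ (n + K)⌋ = (r : ℤ) ^ K * ⌊y * (r : ℝ) ^ n⌋ := by
  have hr0 : (0 : ℝ) < r := by
    have : 0 < r := by omega
    exact_mod_cast this
  have hr1 : (1 : ℝ) ≤ r := by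
    have : 1 ≤ r := by omega
    exact_mod_cast this
  intro K
  induction K with
  | zero => intro _; simp
  | succ K ih =>
    intro h
    have h1 := ih (fun j hj => h j (by omega))
    have h2 := h K (by omega)
    unfold dg at h2
    obtain ⟨q, hq⟩ := Int.dvd_of_emod_eq_zero h2
    have h3 : ⌊y * (r : ℝ) ^ (n + K)⌋ = q := by
      rw [Int.floor_eq_iff]
      have h4 := Int.floor_le (y * (r : ℝ) ^ (n + K + 1))
      have h5 := Int.lt_floor_add_one (y * (r : ℝ) ^ (n + K + 1))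
      rw [hq] at h4 h5
      push_cast at h4 h5
      rw [pow_succ, ← mul_assoc] at h4 h5
      constructor
      · have : (r : ℝ) * q ≤ r * (y * (r : ℝ) ^ (n + K)) := by linarith
        exact le_of_mul_le_mul_left this hr0
      · have : (r : ℝ) * (y * (r : ℝ) ^ (n + K)) < r * (q + 1) := by nlinarith
        exact lt_of_mul_lt_mul_left this hr0.le
    rw [← add_assoc, hq, ← h3, h1, pow_succ]
    ring

private lemma zj_err {r : ℕ} (hr : 2 ≤ r) (y : ℝ) (n K : ℕ)
    (h : ∀ j < K, dg r y (n + j) = 0) :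
    ∃ m : ℤ, |(r : ℝ) ^ n * y - m| ≤ (1 / (r : ℝ)) ^ K := by
  have hr0 : (0 : ℝ) < r := by
    have : 0 < r := by omega
    exact_mod_cast this
  refine ⟨⌊y * (r : ℝ) ^ n⌋, ?_⟩
  have h1 := zj_floor hr y n K h
  have h2 := Int.lt_floor_add_one (y * (r : ℝ) ^ (n + K))
  have h3 := Int.floor_le (y * (r : ℝ) ^ n)
  rw [h1] at h2
  push_cast at h2
  have hK : (0 : ℝ) < (r : ℝ) ^ K := by positivity
  have h4 : (1 / (r : ℝ)) ^ K * (r : ℝ) ^ K = 1 := by
    rw [← mul_pow, one_div_mul_cancel hr0.ne', one_pow]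
  rw [abs_of_nonneg (by linarith)]
  have h5 : (r : ℝ) ^ K * ((r : ℝ) ^ n * y - ⌊y * (r : ℝ) ^ n⌋) ≤ (r : ℝ) ^ K * (1 / (r : ℝ)) ^ K := by
    rw [pow_add] at h2
    nlinarith
  exact le_of_mul_le_mul_left h5 hK

private lemma zj_good {r m : ℕ} (hr : 2 ≤ r) (y : Fin m → ℝ) (c : Fin m → ℤ) (n K : ℕ)
    (hK : 2 * π * ((∑ i, |(c i : ℝ)|) * (1 / (r : ℝ)) ^ K) ≤ 1 / 2)
    (h : ∀ i, ∀ j < K, dg r (y i) (n + j) = 0) :
    ‖ee (((1 : ℕ) : ℝ) * ((r : ℝ) ^ n * ∑ i, (c i : ℝ) * y i)) - 1‖ ≤ 1 / 2 := by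
  choose M hM using fun i => zj_err hr (y i) n K (h i)
  have h1 : ((1 : ℕ) : ℝ) * ((r : ℝ) ^ n * ∑ i, (c i : ℝ) * y i) =
      (∑ i, (c i : ℝ) * ((r : ℝ) ^ n * y i - M i)) + ((∑ i, c i * M i : ℤ) : ℝ) := by
    push_cast
    rw [one_mul, Finset.mul_sum, ← Finset.sum_add_distrib]
    apply Finset.sum_congr rfl
    intro i _
    ring
  rw [h1, ee_add_int, ← ee_zero]
  refine (norm_ee_sub_le _ _).trans ((mul_le_mul_of_nonneg_left ?_ (by positivity)).trans hK)
  rw [sub_zero, Finset.sum_mul]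
  refine (Finset.abs_sum_le_sum_abs _ _).trans (Finset.sum_le_sum ?_)
  intro i _
  rw [abs_mul]
  exact mul_le_mul_of_nonneg_left (hM i) (abs_nonneg _)

private lemma zj_shift {r : ℕ} (y : ℝ) (j N : ℕ) :
    ((range N).filter (fun n => dg r y (n + j) ≠ 0)).card ≤
      ((range N).filter (fun n => dg r y n ≠ 0)).card + j := by
  have h1 : ((range N).filter (fun n => dg r y (n + j) ≠ 0)).card ≤
      ((range (N + j)).filter (fun n => dg r y n ≠ 0)).card := by
    apply Finset.card_le_card_of_injOn (fun n => n + j)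
    · intro n hn
      simp only [Finset.coe_filter, Finset.mem_range, Set.mem_ofPred_eq] at hn ⊢
      exact ⟨by omega, hn.2⟩
    · intro a _ b _ hab
      simpa using hab
  have h2 : (range (N + j)).filter (fun n => dg r y n ≠ 0) ⊆
      (range N).filter (fun n => dg r y n ≠ 0) ∪ (range (N + j) \ range N) := by
    intro n hn
    simp only [Finset.mem_filter, Finset.mem_range, Finset.mem_union, Finset.mem_sdiff] at hn ⊢
    by_cases h : n < N
    · exact Or.inl ⟨h, hn.2⟩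
    · exact Or.inr ⟨hn.1, h⟩
  have h3 : (range (N + j) \ range N).card = j := by
    rw [Finset.card_sdiff_of_subset (Finset.range_mono (by omega)), Finset.card_range,
      Finset.card_range]
    omega
  calc _ ≤ _ := h1
    _ ≤ _ := Finset.card_le_card h2
    _ ≤ _ := Finset.card_union_le _ _
    _ = _ := by rw [h3]

theorem zero_not_normal {r m : ℕ} (hr : 2 ≤ r) (y : Fin m → ℝ)
    (hy : ∀ i, Tendsto (fun N : ℕ => (((range N).filter (fun j => dg r (y i) j ≠ 0)).card : ℝ) / N)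
      atTop (𝓝 0)) (c : Fin m → ℤ) : ¬ NormalTo r (∑ i, (c i : ℝ) * y i) := by
  classical
  intro hn
  have hw := (normalTo_iff_weyl hr _).1 hn 1 le_rfl
  set x : ℝ := ∑ i, (c i : ℝ) * y i with hx
  set C : ℝ := ∑ i, |(c i : ℝ)| with hC
  have hC0 : 0 ≤ C := Finset.sum_nonneg (fun i _ => abs_nonneg _)
  -- choice of `K`
  obtain ⟨K, hK⟩ : ∃ K : ℕ, 2 * π * (C * (1 / (r : ℝ)) ^ K) ≤ 1 / 2 := by
    have hr1 : (1 : ℝ) / r < 1 := by
      have : (1 : ℝ) < r := by
        have : 1 < r := by omega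
        exact_mod_cast this
      rw [div_lt_one (by linarith)]
      exact this
    have ht : Tendsto (fun K : ℕ => 2 * π * (C * (1 / (r : ℝ)) ^ K)) atTop
        (𝓝 (2 * π * (C * 0))) :=
      ((tendsto_pow_atTop_nhds_zero_of_lt_one (by positivity) hr1).const_mul C).const_mul _
    rw [mul_zero, mul_zero] at ht
    have := (ht.eventually (ge_mem_nhds (show (0 : ℝ) < 1 / 2 by norm_num))).exists
    obtain ⟨K, hK⟩ := this
    exact ⟨K, hK⟩
  -- the lower bound
  set a : Fin m → ℕ → ℕ := fun i N => ((range N).filter (fun j => dg r (y i) j ≠ 0)).card with ha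
  have key : ∀ N : ℕ, (1 / 2 : ℝ) * N - 2 * ∑ i, ∑ j ∈ range K, ((a i N : ℝ) + j) ≤
      ‖∑ n ∈ range N, ee (((1 : ℕ) : ℝ) * ((r : ℝ) ^ n * x))‖ := by
    intro N
    set B : Finset ℕ := (range N).filter (fun n => ∃ i, ∃ j ∈ range K, dg r (y i) (n + j) ≠ 0)
      with hB
    have hBc : (B.card : ℝ) ≤ ∑ i, ∑ j ∈ range K, ((a i N : ℝ) + j) := by
      have h1 : B ⊆ (Finset.univ : Finset (Fin m)).biUnion (fun i => (range K).biUnion
          (fun j => (range N).filter (fun n => dg r (y i) (n + j) ≠ 0))) := by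
        intro n hn'
        simp only [hB, Finset.mem_filter, Finset.mem_range, Finset.mem_biUnion,
          Finset.mem_univ, true_and] at hn' ⊢
        obtain ⟨h1, i, j, hj, h2⟩ := hn'
        exact ⟨i, j, hj, h1, h2⟩
      have h2 : B.card ≤ ∑ i, ∑ j ∈ range K, (a i N + j) := by
        refine (Finset.card_le_card h1).trans (Finset.card_biUnion_le.trans ?_)
        apply Finset.sum_le_sum
        intro i _
        refine Finset.card_biUnion_le.trans ?_
        apply Finset.sum_le_sum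
        intro j _
        exact zj_shift (y i) j N
      exact_mod_cast h2
    have h1 : ∀ n ∈ range N, ‖ee (((1 : ℕ) : ℝ) * ((r : ℝ) ^ n * x)) - 1‖ ≤
        1 / 2 + (if n ∈ B then (2 : ℝ) else 0) := by
      intro n hn'
      by_cases hb : n ∈ B
      · rw [if_pos hb]
        refine (norm_sub_le _ _).trans ?_
        rw [norm_ee, norm_one]
        norm_num
      · rw [if_neg hb, add_zero]
        apply zj_good hr y c n K hK
        intro i j hj
        by_contra h2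
        exact hb (by
          rw [hB, Finset.mem_filter]
          exact ⟨hn', i, j, Finset.mem_range.2 hj, h2⟩)
    have h2 : ‖(∑ n ∈ range N, ee (((1 : ℕ) : ℝ) * ((r : ℝ) ^ n * x))) - (N : ℂ)‖ ≤
        1 / 2 * N + 2 * B.card := by
      have h3 : (∑ n ∈ range N, ee (((1 : ℕ) : ℝ) * ((r : ℝ) ^ n * x))) - (N : ℂ) =
          ∑ n ∈ range N, (ee (((1 : ℕ) : ℝ) * ((r : ℝ) ^ n * x)) - 1) := by
        rw [Finset.sum_sub_distrib, Finset.sum_const, Finset.card_range, nsmul_eq_mul, mul_one]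
      rw [h3]
      refine (norm_sum_le _ _).trans ((Finset.sum_le_sum h1).trans (le_of_eq ?_))
      rw [Finset.sum_add_distrib, Finset.sum_const, Finset.card_range, nsmul_eq_mul,
        ← Finset.sum_filter, Finset.sum_const, nsmul_eq_mul]
      have h4 : (range N).filter (fun n => n ∈ B) = B := by
        ext n
        rw [Finset.mem_filter]
        refine ⟨fun h => h.2, fun h => ⟨?_, h⟩⟩
        rw [hB] at h
        exact Finset.filter_subset _ _ h
      rw [h4]
      ring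
    have h5 : (N : ℝ) ≤ ‖∑ n ∈ range N, ee (((1 : ℕ) : ℝ) * ((r : ℝ) ^ n * x))‖ +
        ‖(∑ n ∈ range N, ee (((1 : ℕ) : ℝ) * ((r : ℝ) ^ n * x))) - (N : ℂ)‖ := by
      have h6 : (N : ℝ) = ‖(N : ℂ)‖ := by simp
      calc (N : ℝ) = ‖(N : ℂ)‖ := h6
        _ = ‖(∑ n ∈ range N, ee (((1 : ℕ) : ℝ) * ((r : ℝ) ^ n * x))) -
          ((∑ n ∈ range N, ee (((1 : ℕ) : ℝ) * ((r : ℝ) ^ n * x))) - (N : ℂ))‖ := by
            congr 1; ring
        _ ≤ _ := norm_sub_le _ _
    clear_value a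
    generalize ‖∑ n ∈ range N, ee (((1 : ℕ) : ℝ) * ((r : ℝ) ^ n * x))‖ = s1 at h5 ⊢
    generalize ‖(∑ n ∈ range N, ee (((1 : ℕ) : ℝ) * ((r : ℝ) ^ n * x))) - (N : ℂ)‖ = s2 at h2 h5
    generalize ∑ i, ∑ j ∈ range K, ((a i N : ℝ) + j) = s3 at hBc ⊢
    generalize (B.card : ℝ) = s4 at hBc h2
    linarith
  have hlim : Tendsto (fun N : ℕ => (1 / 2 : ℝ) - 2 * ∑ i, ∑ j ∈ range K,
      ((a i N : ℝ) / N + (j : ℝ) / N)) atTop (𝓝 ((1 / 2 : ℝ) - 2 * ∑ _i : Fin m,
      ∑ _j ∈ range K, ((0 : ℝ) + 0))) := by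
    refine tendsto_const_nhds.sub (Tendsto.const_mul _ (tendsto_finsetSum _ (fun i _ =>
      tendsto_finsetSum _ (fun j _ => ?_))))
    exact (hy i).add (tendsto_const_div_atTop_nhds_zero_nat (j : ℝ))
  have hlim2 : Tendsto (fun N : ℕ => (1 / 2 : ℝ) - 2 * ∑ i, ∑ j ∈ range K,
      ((a i N : ℝ) / N + (j : ℝ) / N)) atTop (𝓝 (1 / 2 : ℝ)) := by
    simpa using hlim
  have hfin : (1 / 2 : ℝ) ≤ 0 := by
    refine le_of_tendsto_of_tendsto hlim2 hw ?_
    filter_upwards [eventually_ge_atTop 1] with N hN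
    have hN0 : (0 : ℝ) < N := by exact_mod_cast hN
    rw [le_div_iff₀ hN0]
    refine le_trans (le_of_eq ?_) (key N)
    rw [sub_mul, mul_assoc 2 _ (N : ℝ), Finset.sum_mul]
    congr 2
    apply Finset.sum_congr rfl
    intro i _
    rw [Finset.sum_mul]
    apply Finset.sum_congr rfl
    intro j _
    field_simp
  linarith

end MP798203.AB
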