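import Pool.Agent.Lib.MP_798203_nt.AB.AsmJ
import Pool.Agent.Lib.MP_798203_nt.AB.VecJ
import Pool.Agent.Lib.MP_798203_nt.AB.ZeroJ
import Pool.Agent.Lib.MP_798203_nt.AB.Main

/-!
Theorem J.
-/

namespace MP798203.AB

open Real Finset Filter Topology

/-- a common denominator -/
theorem common_denom {m : ℕ} (c : Fin m → ℚ) :
    ∃ D : ℕ, 0 < D ∧ ∃ e : Fin m → ℤ, ∀ i, (D : ℚ) * c i = e i := by
  classical
  refine ⟨∏ i, (c i).den, Finset.prod_pos fun i _ => (c i).den_pos,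
    fun i => (∏ j ∈ univ.erase i, ((c j).den : ℤ)) * (c i).num, fun i => ?_⟩
  rw [← Finset.mul_prod_erase univ (fun j => (c j).den) (Finset.mem_univ i)]
  push_cast
  have h := Rat.mul_den_eq_num (c i)
  calc ((c i).den : ℚ) * (∏ j ∈ univ.erase i, ((c j).den : ℚ)) * c i
      = (∏ j ∈ univ.erase i, ((c j).den : ℚ)) * (c i * (c i).den) := by ring
    _ = _ := by rw [h]

theorem main_dirJ {n m r : ℕ} (hm : 0 < m) (hr : 2 ≤ r) (a : Fin m → Fin n → ℝ)
    (ha : LinearIndependent ℝ a) (B : Set ((Fin n → ℝ) × ℕ)) (hB : B.Countable)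
    (hB0 : ∀ t ∈ B, t.1 ≠ 0 ∧ 2 ≤ t.2)
    (hAB : ∀ t ∈ B, ∀ c : Fin m → ℚ, t.1 = ∑ i, (c i : ℝ) • a i → ¬ MulDep r t.2)
    (d : Fin m → ℕ → ℕ) (hd : ∀ i j, d i j < r) :
    ∃ x : Fin n → ℝ, (∀ t ∈ B, NormalTo t.2 (t.1 ⬝ᵥ x)) ∧
      ∀ i, Tendsto (fun N : ℕ => (((range N).filter
        (fun j => dg r (a i ⬝ᵥ x) j ≠ (d i j : ℤ))).card : ℝ) / N) atTop (𝓝 0) := by
  classical
  -- all tests
  obtain ⟨v, hv, hv2⟩ := exists_dirJ hm a ha (Prod.fst '' B) (hB.image _)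
  obtain ⟨g, hg⟩ : ∃ g : ℕ → (Fin n → ℝ) × ℕ, B ⊆ Set.range g :=
    (Set.countable_iff_exists_subset_range).1 hB
  have hadm : ∀ b ∈ B, ∀ h : ℕ, 1 ≤ h →
      ∃ i, Adm r b.2 (((h : ℝ) • b.1) ⬝ᵥ v i) := by
    intro b hb h hh
    have hh0 : (h : ℝ) ≠ 0 := by
      have : h ≠ 0 := by omega
      exact_mod_cast this
    by_cases hrat : ∀ c : Fin m → ℚ, b.1 ≠ ∑ i, (c i : ℝ) • a i
    · obtain ⟨i, hi⟩ := hv2 b.1 ⟨b, hb, rfl⟩ hrat
      refine ⟨i, ?_⟩
      rw [smul_dotProduct, smul_eq_mul]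
      have h1 : Irrational ((h : ℝ) * (b.1 ⬝ᵥ v i)) := by
        have := hi.ratCast_mul (q := (h : ℚ)) (by exact_mod_cast (by omega : h ≠ 0))
        simpa using this
      exact ⟨h1.ne_zero, Or.inl h1⟩
    · push Not at hrat
      obtain ⟨c, hc⟩ := hrat
      have hind := hAB b hb c hc
      -- some coefficient is not zero
      have hex : ∃ i, c i ≠ 0 := by
        by_contra hcon
        push Not at hcon
        apply (hB0 b hb).1
        rw [hc]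
        apply Finset.sum_eq_zero
        intro i _
        rw [hcon i]
        simp
      obtain ⟨i, hi⟩ := hex
      refine ⟨i, ?_, Or.inr hind⟩
      rw [smul_dotProduct, smul_eq_mul, hc, sum_dotProduct]
      have h1 : ∑ j, ((c j : ℝ) • a j) ⬝ᵥ v i = c i := by
        rw [Finset.sum_eq_single i]
        · rw [smul_dotProduct, hv, if_pos rfl, smul_eq_mul, mul_one]
        · intro j _ hj
          rw [smul_dotProduct, hv, if_neg hj, smul_zero]
        · intro h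
          exact absurd (Finset.mem_univ i) h
      rw [h1]
      exact mul_ne_zero hh0 (by exact_mod_cast hi)
  obtain ⟨x, hx1, hx2⟩ := assemblyJ hm a v hv hr d hd (tests B g) (by
      intro k t ht
      rw [mem_tests] at ht
      obtain ⟨b, hb, h, h1, h2, -, rfl⟩ := ht
      exact ⟨(hB0 b hb).2, hadm b hb h h1⟩)
  refine ⟨x, fun t ht => ?_, hx2⟩
  rw [normalTo_iff_weyl (hB0 t ht).2]
  intro h hh
  obtain ⟨j, hj⟩ := hg ht
  have h1 := hx1 ((h : ℝ) • t.1, t.2) ⟨h + j + 1, fun k hk => by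
    rw [mem_tests]
    exact ⟨t, ht, h, hh, by omega, ⟨j, by omega, hj⟩, rfl⟩⟩
  refine h1.congr (fun N => ?_)
  congr 2
  apply Finset.sum_congr rfl
  intro l _
  congr 1
  simp only
  rw [smul_dotProduct, smul_eq_mul]
  ring

theorem iffJ {n m r : ℕ} (hm : 0 < m) (hr : 2 ≤ r) (a : Fin m → Fin n → ℝ)
    (ha : LinearIndependent ℝ a) (B : Set ((Fin n → ℝ) × ℕ)) (hB : B.Countable)
    (hB0 : ∀ t ∈ B, t.1 ≠ 0 ∧ 2 ≤ t.2) :
    (∀ t ∈ B, ∀ c : Fin m → ℚ, t.1 = ∑ i, (c i : ℝ) • a i → ¬ MulDep r t.2) ↔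
      ∀ d : Fin m → ℕ → ℕ, (∀ i j, d i j < r) →
        ∃ x : Fin n → ℝ, (∀ t ∈ B, NormalTo t.2 (t.1 ⬝ᵥ x)) ∧
          ∀ i, Tendsto (fun N : ℕ => (((range N).filter
            (fun j => dg r (a i ⬝ᵥ x) j ≠ (d i j : ℤ))).card : ℝ) / N) atTop (𝓝 0) := by
  constructor
  · intro h d hd
    exact main_dirJ hm hr a ha B hB hB0 h d hd
  · intro h t ht c hc hdep
    obtain ⟨x, h1, h2⟩ := h (fun _ _ => 0) (fun i j => by omega)
    have h3 := normal_dep hr (hB0 t ht).2 hdep (h1 t ht)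
    obtain ⟨D, hD, e, he⟩ := common_denom c
    have h4 := normalTo_rat hr h3 (c := (D : ℚ)) (by exact_mod_cast hD.ne')
    have h5 : ((D : ℚ) : ℝ) * (t.1 ⬝ᵥ x) = ∑ i, (e i : ℝ) * (a i ⬝ᵥ x) := by
      rw [hc, sum_dotProduct, Finset.mul_sum]
      apply Finset.sum_congr rfl
      intro i _
      rw [smul_dotProduct, smul_eq_mul, ← mul_assoc]
      congr 1
      have := he i
      exact_mod_cast this
    rw [h5] at h4
    exact zero_not_normal hr (fun i => a i ⬝ᵥ x) (by simpa using h2) e h4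

end MP798203.AB
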