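import Pool.Agent.Lib.MP_798203_nt.AB.Second

/-!
A good noise pattern for finitely many tests. As `MP798203.exists_noise` in `Moment.lean`: the sum over all `ω` of
`(q/(2H)) #{i : ω i = 0} + ∑_{t ∈ T} ‖…‖² / (τ H)²` is at most `q^H (1/2 + #T τ' / τ²)` (`count_zeros`, `second` with
`τ' = τ²/(2 (#T+1))`), so it is at most `1` for some `ω` (`Finset.exists_le_of_sum_le`). Take `H0 ≥ 1`
larger than the `H0` of all tests.
-/

namespace MP798203.AB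

open Real Finset

theorem noise {ι : Type*} {q r : ℕ} (hq : 2 ≤ q) (hr : 2 ≤ r) (T : Finset ι) (β : ι → ℝ)
    (s : ι → ℕ) (hT : ∀ t ∈ T, 2 ≤ s t ∧ Adm r (s t) (β t)) {τ : ℝ} (hτ : 0 < τ) :
    ∃ H0 : ℕ, ∀ H : ℕ, H0 ≤ H → ∀ (J : ℕ) (w0 : ℝ) (δ : ℕ → ℝ), (∀ i, δ i = 1 ∨ δ i = -1) →
      ∀ φ : ι → ℕ → ℂ, (∀ t n, ‖φ t n‖ ≤ 1) →
      ∃ ω : Fin H → Fin q,
        ((univ.filter (fun i => (ω i : ℕ) = 0)).card : ℝ) ≤ 2 * H / q ∧
        ∀ t ∈ T, ‖∑ n ∈ Ico (cnt (s t) ((r : ℝ) ^ J)) (cnt (s t) ((r : ℝ) ^ (J + H))),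
          φ t n * ee (β t * (s t : ℝ) ^ n / (r : ℝ) ^ J * zz r w0 δ ω)‖ ≤ τ * H := by
  classical
  have hr' : (2 : ℝ) ≤ r := by exact_mod_cast hr
  have hq' : (2 : ℝ) ≤ q := by exact_mod_cast hq
  set τ' : ℝ := τ ^ 2 / (2 * (T.card + 1)) with hτ'
  have hτ'0 : 0 < τ' := by positivity
  have hex : ∀ t : ι, ∃ H0 : ℕ, t ∈ T → ∀ H : ℕ, H0 ≤ H → ∀ (J : ℕ) (w0 : ℝ) (δ : ℕ → ℝ),
      (∀ i, δ i = 1 ∨ δ i = -1) → ∀ φ : ℕ → ℂ, (∀ n, ‖φ n‖ ≤ 1) →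
      ∑ ω : Fin H → Fin q,
        ‖∑ n ∈ Ico (cnt (s t) ((r : ℝ) ^ J)) (cnt (s t) ((r : ℝ) ^ (J + H))),
          φ n * ee (β t * (s t : ℝ) ^ n / (r : ℝ) ^ J * zz r w0 δ ω)‖ ^ 2 ≤
      τ' * (H : ℝ) ^ 2 * (q : ℝ) ^ H := by
    intro t
    by_cases ht : t ∈ T
    · obtain ⟨H0, h⟩ := second hq hr (hT t ht).1 (hT t ht).2 hτ'0
      exact ⟨H0, fun _ => h⟩
    · exact ⟨0, fun h => absurd h ht⟩
  choose H0 hH0 using hex
  refine ⟨T.sup H0 + 1, ?_⟩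
  intro H hH J w0 δ hδ φ hφ
  have hHpos : (0 : ℝ) < H := by
    have : 0 < H := by omega
    exact_mod_cast this
  set F : ι → (Fin H → Fin q) → ℝ := fun t ω =>
    ‖∑ n ∈ Ico (cnt (s t) ((r : ℝ) ^ J)) (cnt (s t) ((r : ℝ) ^ (J + H))),
          φ t n * ee (β t * (s t : ℝ) ^ n / (r : ℝ) ^ J * zz r w0 δ ω)‖ with hF
  have hsec : ∀ t ∈ T, ∑ ω : Fin H → Fin q, F t ω ^ 2 ≤ τ' * (H : ℝ) ^ 2 * (q : ℝ) ^ H := by
    intro t ht
    have h1 : H0 t ≤ T.sup H0 := Finset.le_sup ht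
    exact hH0 t ht H (by omega) J w0 δ hδ (φ t) (hφ t)
  set Φ : (Fin H → Fin q) → ℝ := fun ω =>
    q / (2 * H) * ((univ.filter (fun i => (ω i : ℕ) = 0)).card : ℝ)
      + ∑ t ∈ T, F t ω ^ 2 / (τ * H) ^ 2 with hΦ
  have hsum : ∑ ω : Fin H → Fin q, Φ ω ≤ ∑ _ω : Fin H → Fin q, (1 : ℝ) := by
    rw [hΦ, Finset.sum_add_distrib, ← Finset.mul_sum, Finset.sum_comm]
    have e1 : (q : ℝ) / (2 * H) * ∑ ω : Fin H → Fin q,
        ((univ.filter (fun i => (ω i : ℕ) = 0)).card : ℝ) = (q : ℝ) ^ H / 2 := by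
      have := count_zeros (H := H) (q := q) (by omega)
      have e2 : (q : ℝ) / (2 * H) * ∑ ω : Fin H → Fin q,
        ((univ.filter (fun i => (ω i : ℕ) = 0)).card : ℝ) = (1 / (2 * H)) * ((q : ℝ) *
          ∑ ω : Fin H → Fin q, ((univ.filter (fun i => (ω i : ℕ) = 0)).card : ℝ)) := by ring
      rw [e2, this]
      field_simp
    rw [e1]
    have e3 : ∀ t ∈ T, ∑ ω : Fin H → Fin q, F t ω ^ 2 / (τ * H) ^ 2
        ≤ (q : ℝ) ^ H * (1 / (2 * (T.card + 1))) := by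
      intro t ht
      rw [← Finset.sum_div, div_le_iff₀ (by positivity)]
      refine (hsec t ht).trans (le_of_eq ?_)
      rw [hτ']
      ring
    have e4 := Finset.sum_le_sum e3
    rw [Finset.sum_const, nsmul_eq_mul] at e4
    have e5 : ∑ _ω : Fin H → Fin q, (1 : ℝ) = (q : ℝ) ^ H := by
      simp
    rw [e5]
    have e6 : (T.card : ℝ) * (1 / (2 * (T.card + 1))) ≤ 1 / 2 := by
      rw [mul_one_div, div_le_div_iff₀ (by positivity) (by norm_num)]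
      linarith
    have e8 : (0 : ℝ) < (q : ℝ) ^ H := by positivity
    have e9 : (T.card : ℝ) * ((q : ℝ) ^ H * (1 / (2 * (T.card + 1)))) ≤ (q : ℝ) ^ H / 2 := by
      calc (T.card : ℝ) * ((q : ℝ) ^ H * (1 / (2 * (T.card + 1))))
          = (q : ℝ) ^ H * ((T.card : ℝ) * (1 / (2 * (T.card + 1)))) := by ring
        _ ≤ (q : ℝ) ^ H * (1 / 2) := mul_le_mul_of_nonneg_left e6 e8.le
        _ = (q : ℝ) ^ H / 2 := by ring
    linarith
  have hne : (univ : Finset (Fin H → Fin q)).Nonempty := by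
    refine ⟨fun _ => ⟨0, by omega⟩, mem_univ _⟩
  obtain ⟨ω, -, hω⟩ := Finset.exists_le_of_sum_le hne hsum
  refine ⟨ω, ?_, ?_⟩
  · have h1 : (q : ℝ) / (2 * H) * ((univ.filter (fun i => (ω i : ℕ) = 0)).card : ℝ) ≤ 1 := by
      have h2 : 0 ≤ ∑ t ∈ T, F t ω ^ 2 / (τ * H) ^ 2 :=
        Finset.sum_nonneg (fun _ _ => by positivity)
      simp only [hΦ] at hω
      linarith
    rw [div_mul_eq_mul_div, div_le_iff₀ (by positivity)] at h1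
    rw [le_div_iff₀ (by positivity)]
    linarith
  · intro t ht
    have h2 : F t ω ^ 2 / (τ * H) ^ 2 ≤ 1 := by
      have h3 := Finset.single_le_sum (f := fun t => F t ω ^ 2 / (τ * H) ^ 2)
        (fun _ _ => by positivity) ht
      have h4 : 0 ≤ (q : ℝ) / (2 * H) * ((univ.filter (fun i => (ω i : ℕ) = 0)).card : ℝ) := by
        positivity
      simp only [hΦ] at hω
      linarith
    rw [div_le_one (by positivity)] at h2
    exact le_of_sq_le_sq h2 (by positivity)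

end MP798203.AB
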