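import Pool.Agent.Lib.MP_798203_nt.AB.Second

/-!
A good noise pattern for `m` coordinates at once. As `noise` (file `Noise.lean`, delivered; and `MP798203.exists_noise` in
`Moment.lean`): sum over all `ω : Fin m → Fin H → Fin q` the function
`(q/(2mH)) ∑_i #{j : ω i j = 0} + ∑_{t ∈ T} ‖…‖² / (τ H)²`. First part: `q^(Hm) / 2` (`count_zeros` in the coordinate `i`,
the others are free). Second part: let `i0` be the coordinate with `Adm r (s t) (β t i0)`. Split the functions at `i0`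
(`Equiv.funSplitAt i0`); for fixed other coordinates apply `second` (with `τ' = τ² / (2 (#T + 1))`) to the coordinate `i0` with the
phases `φ t n * ee (∑_{i ≠ i0} β t i * s^n / r^J * zz …)` (norm at most one): at most `τ' H² q^H q^(H(m-1))`. So the
average is at most one and some `ω` has value at most one (`Finset.exists_le_of_sum_le`). Take `H0 ≥ 1`. If `m = 0` then `T = ∅`.
-/

namespace MP798203.AB

open Real Finset

private lemma avg_update {X : Type*} [Fintype X] {m : ℕ} (i0 : Fin m)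
    (g : (Fin m → X) → ℝ) :
    ∑ ω : Fin m → X, ∑ x : X, g (Function.update ω i0 x) = (Fintype.card X : ℝ) * ∑ ω, g ω := by
  classical
  let e : ((Fin m → X) × X) ≃ ((Fin m → X) × X) :=
    { toFun := fun p => (Function.update p.1 i0 p.2, p.1 i0)
      invFun := fun p => (Function.update p.1 i0 p.2, p.1 i0)
      left_inv := by
        intro p
        simp
      right_inv := by
        intro p
        simp }
  have h1 : ∑ ω : Fin m → X, ∑ x : X, g (Function.update ω i0 x) =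
      ∑ p : (Fin m → X) × X, g (Function.update p.1 i0 p.2) := by
    rw [Fintype.sum_prod_type]
  have h2 : ∑ p : (Fin m → X) × X, g (Function.update p.1 i0 p.2) =
      ∑ p : (Fin m → X) × X, g p.1 :=
    Fintype.sum_equiv e _ _ (fun p => rfl)
  rw [h1, h2, Fintype.sum_prod_type]
  simp only [Finset.sum_const, Finset.card_univ, nsmul_eq_mul]
  rw [Finset.mul_sum]

theorem noiseJ {ι : Type*} {m q r : ℕ} (hq : 2 ≤ q) (hr : 2 ≤ r) (T : Finset ι)
    (β : ι → Fin m → ℝ) (s : ι → ℕ) (hT : ∀ t ∈ T, 2 ≤ s t ∧ ∃ i, Adm r (s t) (β t i))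
    {τ : ℝ} (hτ : 0 < τ) :
    ∃ H0 : ℕ, ∀ H : ℕ, H0 ≤ H → ∀ (J : ℕ) (w0 : Fin m → ℝ) (δ : Fin m → ℕ → ℝ),
      (∀ i j, δ i j = 1 ∨ δ i j = -1) →
      ∀ φ : ι → ℕ → ℂ, (∀ t n, ‖φ t n‖ ≤ 1) →
      ∃ ω : Fin m → Fin H → Fin q,
        (∀ i, ((univ.filter (fun j => (ω i j : ℕ) = 0)).card : ℝ) ≤ 2 * m * H / q) ∧
        ∀ t ∈ T, ‖∑ n ∈ Ico (cnt (s t) ((r : ℝ) ^ J)) (cnt (s t) ((r : ℝ) ^ (J + H))),
          φ t n * ee (∑ i, β t i * (s t : ℝ) ^ n / (r : ℝ) ^ J * zz r (w0 i) (δ i) (ω i))‖ ≤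
            τ * H := by
  classical
  have hr' : (2 : ℝ) ≤ r := by exact_mod_cast hr
  have hq' : (2 : ℝ) ≤ q := by exact_mod_cast hq
  set τ' : ℝ := τ ^ 2 / (2 * (T.card + 1)) with hτ'
  have hτ'0 : 0 < τ' := by positivity
  have hex : ∀ t : ι, ∃ H0 : ℕ, t ∈ T → ∃ i0 : Fin m, ∀ H : ℕ, H0 ≤ H →
      ∀ (J : ℕ) (w0 : ℝ) (δ : ℕ → ℝ),
      (∀ i, δ i = 1 ∨ δ i = -1) → ∀ φ : ℕ → ℂ, (∀ n, ‖φ n‖ ≤ 1) →
      ∑ ω : Fin H → Fin q,
        ‖∑ n ∈ Ico (cnt (s t) ((r : ℝ) ^ J)) (cnt (s t) ((r : ℝ) ^ (J + H))),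
          φ n * ee (β t i0 * (s t : ℝ) ^ n / (r : ℝ) ^ J * zz r w0 δ ω)‖ ^ 2 ≤
      τ' * (H : ℝ) ^ 2 * (q : ℝ) ^ H := by
    intro t
    by_cases ht : t ∈ T
    · obtain ⟨hs, i0, hi0⟩ := hT t ht
      obtain ⟨H0, h⟩ := second hq hr hs hi0 hτ'0
      exact ⟨H0, fun _ => ⟨i0, h⟩⟩
    · exact ⟨0, fun h => absurd h ht⟩
  choose H0 hH0 using hex
  refine ⟨T.sup H0 + 1, ?_⟩
  intro H hH J w0 δ hδ φ hφ
  have hHpos : (0 : ℝ) < H := by
    have : 0 < H := by omega
    exact_mod_cast this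
  have hcX : (Fintype.card (Fin H → Fin q) : ℝ) = (q : ℝ) ^ H := by
    simp
  have hXpos : (0 : ℝ) < (q : ℝ) ^ H := by positivity
  have hcXm : (Fintype.card (Fin m → Fin H → Fin q) : ℝ) = ((q : ℝ) ^ H) ^ m := by
    simp
  set F : ι → (Fin m → Fin H → Fin q) → ℝ := fun t ω =>
    ‖∑ n ∈ Ico (cnt (s t) ((r : ℝ) ^ J)) (cnt (s t) ((r : ℝ) ^ (J + H))),
          φ t n * ee (∑ i, β t i * (s t : ℝ) ^ n / (r : ℝ) ^ J * zz r (w0 i) (δ i) (ω i))‖ with hF
  have hsec : ∀ t ∈ T, ∑ ω : Fin m → Fin H → Fin q, F t ω ^ 2 ≤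
      τ' * (H : ℝ) ^ 2 * ((q : ℝ) ^ H) ^ m := by
    intro t ht
    obtain ⟨i0, hi0⟩ := hH0 t ht
    have h1 : H0 t ≤ T.sup H0 := Finset.le_sup ht
    have h2 : ∀ ω : Fin m → Fin H → Fin q,
        ∑ x : Fin H → Fin q, F t (Function.update ω i0 x) ^ 2 ≤
          τ' * (H : ℝ) ^ 2 * (q : ℝ) ^ H := by
      intro ω
      have h3 := hi0 H (by omega) J (w0 i0) (δ i0) (hδ i0)
        (fun n => φ t n * ee (∑ i ∈ univ.erase i0,
          β t i * (s t : ℝ) ^ n / (r : ℝ) ^ J * zz r (w0 i) (δ i) (ω i)))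
        (fun n => by
          rw [norm_mul, norm_ee, mul_one]
          exact hφ t n)
      refine le_trans (le_of_eq ?_) h3
      refine Finset.sum_congr rfl fun x _ => ?_
      rw [hF]
      dsimp only
      congr 2
      refine Finset.sum_congr rfl fun n _ => ?_
      rw [mul_assoc, ← ee_add]
      congr 2
      rw [← Finset.sum_erase_add _ _ (Finset.mem_univ i0)]
      congr 1
      · refine Finset.sum_congr rfl fun i hi => ?_
        rw [Function.update_of_ne (Finset.ne_of_mem_erase hi)]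
      · rw [Function.update_self]
    have h4 := avg_update i0 (fun ω : Fin m → Fin H → Fin q => F t ω ^ 2)
    have h5 : ∑ ω : Fin m → Fin H → Fin q, ∑ x : Fin H → Fin q,
        F t (Function.update ω i0 x) ^ 2 ≤
        ∑ _ω : Fin m → Fin H → Fin q, τ' * (H : ℝ) ^ 2 * (q : ℝ) ^ H :=
      Finset.sum_le_sum fun ω _ => h2 ω
    rw [Finset.sum_const, Finset.card_univ, nsmul_eq_mul, hcXm] at h5
    have h4' : ∑ ω : Fin m → Fin H → Fin q, ∑ x : Fin H → Fin q,
        F t (Function.update ω i0 x) ^ 2 =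
        (Fintype.card (Fin H → Fin q) : ℝ) * ∑ ω : Fin m → Fin H → Fin q, F t ω ^ 2 := h4
    rw [h4', hcX] at h5
    have h6 : (q : ℝ) ^ H * ∑ ω : Fin m → Fin H → Fin q, F t ω ^ 2 ≤
        (q : ℝ) ^ H * (τ' * (H : ℝ) ^ 2 * ((q : ℝ) ^ H) ^ m) := by
      refine h5.trans (le_of_eq ?_)
      ring
    exact le_of_mul_le_mul_left h6 hXpos
  have hzero : ∀ i : Fin m, (q : ℝ) * ∑ ω : Fin m → Fin H → Fin q,
      ((univ.filter (fun j => (ω i j : ℕ) = 0)).card : ℝ) = H * ((q : ℝ) ^ H) ^ m := by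
    intro i
    have h4 : ∑ ω : Fin m → Fin H → Fin q, ∑ x : Fin H → Fin q,
        ((univ.filter (fun j => ((Function.update ω i x) i j : ℕ) = 0)).card : ℝ) =
        (Fintype.card (Fin H → Fin q) : ℝ) * ∑ ω : Fin m → Fin H → Fin q,
          ((univ.filter (fun j => (ω i j : ℕ) = 0)).card : ℝ) :=
      avg_update i (fun ω : Fin m → Fin H → Fin q =>
        ((univ.filter (fun j => (ω i j : ℕ) = 0)).card : ℝ))
    simp only [Function.update_self] at h4
    rw [Finset.sum_const, Finset.card_univ, nsmul_eq_mul, hcXm, hcX] at h4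
    have h5 := count_zeros (H := H) (q := q) (by omega)
    have h6 : (q : ℝ) ^ H * ((q : ℝ) * ∑ ω : Fin m → Fin H → Fin q,
        ((univ.filter (fun j => (ω i j : ℕ) = 0)).card : ℝ)) =
        (q : ℝ) ^ H * (H * ((q : ℝ) ^ H) ^ m) := by
      calc (q : ℝ) ^ H * ((q : ℝ) * ∑ ω : Fin m → Fin H → Fin q,
            ((univ.filter (fun j => (ω i j : ℕ) = 0)).card : ℝ))
          = (q : ℝ) * ((q : ℝ) ^ H * ∑ ω : Fin m → Fin H → Fin q,
            ((univ.filter (fun j => (ω i j : ℕ) = 0)).card : ℝ)) := by ring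
        _ = ((q : ℝ) ^ H) ^ m * ((q : ℝ) * ∑ ω : Fin H → Fin q,
            ((univ.filter (fun j => (ω j : ℕ) = 0)).card : ℝ)) := by rw [← h4]; ring
        _ = (q : ℝ) ^ H * (H * ((q : ℝ) ^ H) ^ m) := by rw [h5]; ring
    exact mul_left_cancel₀ hXpos.ne' h6
  set Φ : (Fin m → Fin H → Fin q) → ℝ := fun ω =>
    q / (2 * m * H) * (∑ i, ((univ.filter (fun j => (ω i j : ℕ) = 0)).card : ℝ))
      + ∑ t ∈ T, F t ω ^ 2 / (τ * H) ^ 2 with hΦ
  have hsum : ∑ ω : Fin m → Fin H → Fin q, Φ ω ≤ ∑ _ω : Fin m → Fin H → Fin q, (1 : ℝ) := by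
    rw [hΦ, Finset.sum_add_distrib, ← Finset.mul_sum, Finset.sum_comm,
      Finset.sum_comm (s := (univ : Finset (Fin m → Fin H → Fin q))) (t := T)]
    have e1 : (q : ℝ) / (2 * m * H) * ∑ i : Fin m, ∑ ω : Fin m → Fin H → Fin q,
        ((univ.filter (fun j => (ω i j : ℕ) = 0)).card : ℝ) ≤ ((q : ℝ) ^ H) ^ m / 2 := by
      rcases Nat.eq_zero_or_pos m with hm | hm
      · subst hm
        simp
      · have hm' : (0 : ℝ) < m := by exact_mod_cast hm
        have e2 : (q : ℝ) / (2 * m * H) * ∑ i : Fin m, ∑ ω : Fin m → Fin H → Fin q,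
            ((univ.filter (fun j => (ω i j : ℕ) = 0)).card : ℝ) = (1 / (2 * m * H)) *
            ∑ i : Fin m, ((q : ℝ) * ∑ ω : Fin m → Fin H → Fin q,
              ((univ.filter (fun j => (ω i j : ℕ) = 0)).card : ℝ)) := by
          rw [← Finset.mul_sum]
          ring
        rw [e2]
        simp only [hzero]
        rw [Finset.sum_const, Finset.card_univ, Fintype.card_fin, nsmul_eq_mul]
        refine le_of_eq ?_
        field_simp
    have e3 : ∀ t ∈ T, ∑ ω : Fin m → Fin H → Fin q, F t ω ^ 2 / (τ * H) ^ 2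
        ≤ ((q : ℝ) ^ H) ^ m * (1 / (2 * (T.card + 1))) := by
      intro t ht
      rw [← Finset.sum_div, div_le_iff₀ (by positivity)]
      refine (hsec t ht).trans (le_of_eq ?_)
      rw [hτ']
      ring
    have e4 := Finset.sum_le_sum e3
    rw [Finset.sum_const, nsmul_eq_mul] at e4
    have e5 : ∑ _ω : Fin m → Fin H → Fin q, (1 : ℝ) = ((q : ℝ) ^ H) ^ m := by
      rw [Finset.sum_const, Finset.card_univ, nsmul_eq_mul, hcXm, mul_one]
    rw [e5]
    have e6 : (T.card : ℝ) * (1 / (2 * (T.card + 1))) ≤ 1 / 2 := by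
      rw [mul_one_div, div_le_div_iff₀ (by positivity) (by norm_num)]
      linarith
    have e8 : (0 : ℝ) < ((q : ℝ) ^ H) ^ m := by positivity
    have e9 : (T.card : ℝ) * (((q : ℝ) ^ H) ^ m * (1 / (2 * (T.card + 1)))) ≤
        ((q : ℝ) ^ H) ^ m / 2 := by
      calc (T.card : ℝ) * (((q : ℝ) ^ H) ^ m * (1 / (2 * (T.card + 1))))
          = ((q : ℝ) ^ H) ^ m * ((T.card : ℝ) * (1 / (2 * (T.card + 1)))) := by ring
        _ ≤ ((q : ℝ) ^ H) ^ m * (1 / 2) := mul_le_mul_of_nonneg_left e6 e8.le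
        _ = ((q : ℝ) ^ H) ^ m / 2 := by ring
    linarith
  have hne : (univ : Finset (Fin m → Fin H → Fin q)).Nonempty := by
    refine ⟨fun _ _ => ⟨0, by omega⟩, mem_univ _⟩
  obtain ⟨ω, -, hω⟩ := Finset.exists_le_of_sum_le hne hsum
  refine ⟨ω, ?_, ?_⟩
  · intro i
    have hm : 0 < m := lt_of_le_of_lt (Nat.zero_le _) i.2
    have hm' : (0 : ℝ) < m := by exact_mod_cast hm
    have h1 : (q : ℝ) / (2 * m * H) *
        (∑ i, ((univ.filter (fun j => (ω i j : ℕ) = 0)).card : ℝ)) ≤ 1 := by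
      have h2 : 0 ≤ ∑ t ∈ T, F t ω ^ 2 / (τ * H) ^ 2 :=
        Finset.sum_nonneg (fun _ _ => by positivity)
      simp only [hΦ] at hω
      linarith
    have h3 : ((univ.filter (fun j => (ω i j : ℕ) = 0)).card : ℝ) ≤
        ∑ i, ((univ.filter (fun j => (ω i j : ℕ) = 0)).card : ℝ) :=
      Finset.single_le_sum (f := fun i => ((univ.filter (fun j => (ω i j : ℕ) = 0)).card : ℝ))
        (fun _ _ => Nat.cast_nonneg _) (Finset.mem_univ i)
    rw [div_mul_eq_mul_div, div_le_iff₀ (by positivity)] at h1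
    rw [le_div_iff₀ (by positivity)]
    have h4 := mul_le_mul_of_nonneg_left h3 (by positivity : (0 : ℝ) ≤ q)
    linarith
  · intro t ht
    have h2 : F t ω ^ 2 / (τ * H) ^ 2 ≤ 1 := by
      have h3 := Finset.single_le_sum (f := fun t => F t ω ^ 2 / (τ * H) ^ 2)
        (fun _ _ => by positivity) ht
      have h5 : 0 ≤ (q : ℝ) / (2 * m * H) := by positivity
      have h4 : 0 ≤ (q : ℝ) / (2 * m * H) *
          (∑ i, ((univ.filter (fun j => (ω i j : ℕ) = 0)).card : ℝ)) :=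
        mul_nonneg h5 (Finset.sum_nonneg fun _ _ => Nat.cast_nonneg _)
      simp only [hΦ] at hω
      linarith
    rw [div_le_one (by positivity)] at h2
    exact le_of_sq_le_sq h2 (by positivity)

end MP798203.AB
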