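import Pool.Agent.Lib.MP_798203_nt.AB.FF

/-!
The products `QL q r L u = ∏_{m < L} ff q (u r^m)`.
`QL_anti`: factors in `[0,1]`. `QL_succ_le`: `QL (L+1) u = ff q u * QL L (u r)` (`Finset.prod_range_succ'`).
`QL_lip`: induction on `L`: `|a b - a' b'| ≤ |a - a'| + |b - b'|` for `a, a', b, b' ∈ [0,1]`, the factor number `m`
is `2π r^m`-Lipschitz in `u`, and `r^m ≤ r^L`.
`QL_tendsto`: for irrational `u`: `irr_count` gives for every `G` a set `T ⊆ range K` with `G ≤ #T` and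
`Far (1/(2r)) (u r^s)` for `s ∈ T`; so `QL L u ≤ QL K u ≤ θ^G` for `L ≥ K`, `θ = theta q (1/(2r)) < 1` (`theta_lt_one`).
-/

namespace MP798203.AB

open Real Finset Filter Topology

theorem QL_nonneg (q r L : ℕ) (u : ℝ) : 0 ≤ QL q r L u := by
  unfold QL
  exact Finset.prod_nonneg fun m _ => ff_nonneg q _

theorem QL_le_one {q : ℕ} (hq : 1 ≤ q) (r L : ℕ) (u : ℝ) : QL q r L u ≤ 1 := by
  unfold QL
  exact Finset.prod_le_one (fun m _ => ff_nonneg q _) (fun m _ => ff_le_one hq _)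

private theorem QL_succ (q r L : ℕ) (u : ℝ) :
    QL q r (L + 1) u = QL q r L u * ff q (u * (r : ℝ) ^ L) := by
  unfold QL
  rw [Finset.prod_range_succ]

theorem QL_anti {q : ℕ} (hq : 1 ≤ q) (r : ℕ) {L L' : ℕ} (h : L ≤ L') (u : ℝ) :
    QL q r L' u ≤ QL q r L u := by
  induction L', h using Nat.le_induction with
  | base => exact le_rfl
  | succ n hn ih =>
    rw [QL_succ]
    refine le_trans ?_ ih
    exact mul_le_of_le_one_right (QL_nonneg q r n u) (ff_le_one hq _)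

theorem QL_succ_le {q : ℕ} (hq : 1 ≤ q) (r L : ℕ) (u : ℝ) :
    QL q r (L + 1) u ≤ QL q r L (u * r) := by
  unfold QL
  rw [Finset.prod_range_succ']
  have h1 : ∏ m ∈ range L, ff q (u * (r : ℝ) ^ (m + 1)) = ∏ m ∈ range L, ff q (u * r * (r : ℝ) ^ m) := by
    refine Finset.prod_congr rfl fun m _ => ?_
    congr 1
    rw [pow_succ]
    ring
  rw [h1]
  exact mul_le_of_le_one_right (Finset.prod_nonneg fun m _ => ff_nonneg q _) (ff_le_one hq _)

theorem QL_lip {q r : ℕ} (hq : 1 ≤ q) (hr : 1 ≤ r) (L : ℕ) (u u' : ℝ) :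
    |QL q r L u - QL q r L u'| ≤ 2 * π * L * (r : ℝ) ^ L * |u - u'| := by
  induction L with
  | zero =>
    unfold QL
    simp
  | succ L ih =>
    rw [QL_succ, QL_succ]
    have hr' : (1 : ℝ) ≤ r := by exact_mod_cast hr
    have hrL : (0 : ℝ) < (r : ℝ) ^ L := by positivity
    have h1 := ff_lip hq (u * (r : ℝ) ^ L) (u' * (r : ℝ) ^ L)
    rw [← sub_mul, abs_mul, abs_of_pos hrL] at h1
    have e : QL q r L u * ff q (u * (r : ℝ) ^ L) - QL q r L u' * ff q (u' * (r : ℝ) ^ L) =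
        (QL q r L u - QL q r L u') * ff q (u * (r : ℝ) ^ L) +
          QL q r L u' * (ff q (u * (r : ℝ) ^ L) - ff q (u' * (r : ℝ) ^ L)) := by ring
    rw [e]
    refine (abs_add_le _ _).trans ?_
    rw [abs_mul, abs_mul, abs_of_nonneg (ff_nonneg q _), abs_of_nonneg (QL_nonneg q r L u')]
    have h2 : |QL q r L u - QL q r L u'| * ff q (u * (r : ℝ) ^ L) ≤
        2 * π * L * (r : ℝ) ^ L * |u - u'| :=
      (mul_le_of_le_one_right (abs_nonneg _) (ff_le_one hq _)).trans ih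
    have h3 : QL q r L u' * |ff q (u * (r : ℝ) ^ L) - ff q (u' * (r : ℝ) ^ L)| ≤
        2 * π * (|u - u'| * (r : ℝ) ^ L) :=
      (mul_le_of_le_one_left (abs_nonneg _) (QL_le_one hq r L u')).trans h1
    have h4 : (r : ℝ) ^ L ≤ (r : ℝ) ^ (L + 1) := pow_le_pow_right₀ hr' (Nat.le_succ L)
    have h5 : 0 ≤ 2 * π * ((L : ℝ) + 1) * |u - u'| := by positivity
    push_cast
    calc |QL q r L u - QL q r L u'| * ff q (u * (r : ℝ) ^ L) +
          QL q r L u' * |ff q (u * (r : ℝ) ^ L) - ff q (u' * (r : ℝ) ^ L)|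
        ≤ 2 * π * L * (r : ℝ) ^ L * |u - u'| + 2 * π * (|u - u'| * (r : ℝ) ^ L) := add_le_add h2 h3
      _ = 2 * π * ((L : ℝ) + 1) * |u - u'| * (r : ℝ) ^ L := by ring
      _ ≤ 2 * π * ((L : ℝ) + 1) * |u - u'| * (r : ℝ) ^ (L + 1) := mul_le_mul_of_nonneg_left h4 h5
      _ = 2 * π * ((L : ℝ) + 1) * (r : ℝ) ^ (L + 1) * |u - u'| := by ring

theorem QL_cont (q r L : ℕ) : Continuous (QL q r L) := by
  unfold QL
  refine continuous_finsetProd _ fun m _ => ?_
  exact (ff_cont q).comp (continuous_id.mul continuous_const)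

theorem QL_tendsto {q r : ℕ} (hq : 2 ≤ q) (hr : 2 ≤ r) {u : ℝ} (hu : Irrational u) :
    Tendsto (fun L => QL q r L u) atTop (𝓝 0) := by
  have hq1 : 1 ≤ q := by omega
  have hr0 : (0 : ℝ) < r := by
    have : 0 < r := by omega
    exact_mod_cast this
  obtain ⟨κ, hκ⟩ : ∃ κ : ℝ, κ = 1 / (2 * r) := ⟨_, rfl⟩
  have hκ0 : 0 < κ := by rw [hκ]; positivity
  obtain ⟨θ, hθ⟩ : ∃ θ : ℝ, θ = theta q κ := ⟨_, rfl⟩
  have hθ0 : 0 ≤ θ := by rw [hθ]; exact theta_nonneg _ _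
  have hθ1 : θ < 1 := by rw [hθ]; exact theta_lt_one hq hκ0
  rw [Metric.tendsto_atTop]
  intro ε hε
  obtain ⟨G, hG⟩ := exists_pow_lt_of_lt_one hε hθ1
  obtain ⟨K, T, hT, hTG, hF⟩ := irr_count hr hu G
  refine ⟨K, fun L hL => ?_⟩
  rw [Real.dist_eq, sub_zero, abs_of_nonneg (QL_nonneg q r L u)]
  refine lt_of_le_of_lt (QL_anti hq1 r hL u) (lt_of_le_of_lt ?_ hG)
  unfold QL
  have h1 : ∏ m ∈ range K, ff q (u * (r : ℝ) ^ m) ≤ ∏ m ∈ range K, (if m ∈ T then θ else 1) := by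
    refine Finset.prod_le_prod (fun m _ => ff_nonneg q _) fun m _ => ?_
    split_ifs with hm
    · rw [hθ]
      refine ff_far hq hκ0.le ?_
      rw [hκ]
      exact hF m hm
    · exact ff_le_one hq1 _
  refine h1.trans ?_
  rw [Finset.prod_ite, Finset.prod_const, Finset.prod_const_one, mul_one,
    Finset.filter_mem_eq_inter, Finset.inter_eq_right.2 hT]
  exact pow_le_pow_of_le_one hθ0 hθ1.le hTG

end MP798203.AB
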