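import Pool.Agent.Lib.MP_798203_nt.AB.Corr
import Pool.Agent.Lib.MP_798203_nt.AB.LD
import Pool.Agent.Lib.MP_798203_nt.AB.Cnt
import Pool.Agent.Lib.MP_798203_nt.Moment

/-!
Second moment. Compare `MP798203.second_moment` in `Moment.lean` (one base). Let `W = Ico (cnt s r^J) (cnt s r^(J+H))`
(so `r^J ≤ s^n < r^(J+H)` for `n ∈ W`, `lt_cnt_iff`), `c_n = β s^n / r^J`, `E(n,n') = ‖∑_ω ee ((c_n - c_n') zz)‖ ≤ q^H`, symmetric.
Expanding the square, the left side is at most `∑_{n,n' ∈ W} E(n,n') ≤ 2 ∑_{n ∈ W} ∑_{n' ∈ W, n' ≤ n} E(n,n')` (`‖φ n‖ ≤ 1`).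
For fixed `n`: the (at most `D`) `n'` with `n < n' + D` contribute `≤ D q^H`. The others: if `s^n < r^(J+L)` (at most
`2 L log r + 1` such `n` in `W`, `cnt_diff`), `≤ |W| q^H`; else (`corr_bound`) `≤ |W| q^H (QL(lead n) + η₀)`, `η₀ = 2πL r^L |β| r / 2^D`.
With `lead_avg` for `ε₀`: the sum of `QL (lead n)` over `Ico (cnt s r^(J+L)) (cnt s r^(J+H))` is at most `ε₀ |W| + N0`.
Total `≤ 2 q^H |W| (D + 2 L log r + 1 + N0 + (ε₀ + η₀) |W|)`, and `|W| ≤ 2 H log r + 1 ≤ κ H`, `κ = 2 log r + 1`.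
Choose `ε₀ = τ/(8κ²)`, then `L, N0`, then `D` with `η₀ ≤ τ/(8κ²)`, then `H0 ≥ max(L, 1, 4 κ (D + 2 L log r + 1 + N0) / τ)`.
-/

namespace MP798203.AB

open Real Finset

private lemma sec_symm {q r H : ℕ} (w0 : ℝ) (δ : ℕ → ℝ) (x y : ℝ) :
    ‖∑ ω : Fin H → Fin q, ee ((x - y) * zz r w0 δ ω)‖ =
      ‖∑ ω : Fin H → Fin q, ee ((y - x) * zz r w0 δ ω)‖ := by
  have h2 : ∀ ω : Fin H → Fin q, ee ((x - y) * zz r w0 δ ω)
      = (starRingEnd ℂ) (ee ((y - x) * zz r w0 δ ω)) := by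
    intro ω
    rw [← ee_neg]
    congr 1
    ring
  simp_rw [h2]
  rw [← map_sum, Complex.norm_conj]

private lemma sec_expand {q r H : ℕ} (w0 : ℝ) (δ : ℕ → ℝ) (W : Finset ℕ) (c : ℕ → ℝ) (φ : ℕ → ℂ)
    (hφ : ∀ n, ‖φ n‖ ≤ 1) :
    ∑ ω : Fin H → Fin q, ‖∑ n ∈ W, φ n * ee (c n * zz r w0 δ ω)‖ ^ 2 ≤
      ∑ n ∈ W, ∑ n' ∈ W, ‖∑ ω : Fin H → Fin q, ee ((c n - c n') * zz r w0 δ ω)‖ := by
  classical
  have h1 : ((∑ ω : Fin H → Fin q, ‖∑ n ∈ W, φ n * ee (c n * zz r w0 δ ω)‖ ^ 2 : ℝ) : ℂ)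
      = ∑ n ∈ W, ∑ n' ∈ W, (φ n * (starRingEnd ℂ) (φ n')) *
        ∑ ω : Fin H → Fin q, ee ((c n - c n') * zz r w0 δ ω) := by
    push_cast
    have h2 : ∀ ω : Fin H → Fin q,
        ((‖∑ n ∈ W, φ n * ee (c n * zz r w0 δ ω)‖ : ℂ)) ^ 2
        = ∑ n ∈ W, ∑ n' ∈ W, (φ n * (starRingEnd ℂ) (φ n')) *
          ee ((c n - c n') * zz r w0 δ ω) := by
      intro ω
      rw [← Complex.mul_conj']
      rw [map_sum, Finset.sum_mul_sum]
      apply Finset.sum_congr rfl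
      intro p _
      apply Finset.sum_congr rfl
      intro p' _
      rw [map_mul, sub_mul, ee_sub]
      ring
    simp_rw [h2]
    rw [Finset.sum_comm]
    apply Finset.sum_congr rfl
    intro p _
    rw [Finset.sum_comm]
    apply Finset.sum_congr rfl
    intro p' _
    rw [Finset.mul_sum]
  have h3 : 0 ≤ ∑ ω : Fin H → Fin q, ‖∑ n ∈ W, φ n * ee (c n * zz r w0 δ ω)‖ ^ 2 :=
    Finset.sum_nonneg (fun _ _ => by positivity)
  have h4 : ∑ ω : Fin H → Fin q, ‖∑ n ∈ W, φ n * ee (c n * zz r w0 δ ω)‖ ^ 2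
      = ‖∑ n ∈ W, ∑ n' ∈ W, (φ n * (starRingEnd ℂ) (φ n')) *
        ∑ ω : Fin H → Fin q, ee ((c n - c n') * zz r w0 δ ω)‖ := by
    rw [← h1, Complex.norm_real, Real.norm_eq_abs, abs_of_nonneg h3]
  rw [h4]
  refine (norm_sum_le _ _).trans (Finset.sum_le_sum fun n _ => ?_)
  refine (norm_sum_le _ _).trans (Finset.sum_le_sum fun n' _ => ?_)
  rw [norm_mul, norm_mul, Complex.norm_conj]
  have h5 : ‖φ n‖ * ‖φ n'‖ ≤ 1 := by
    have := hφ n
    have := hφ n'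
    have h6 := norm_nonneg (φ n)
    have h7 := norm_nonneg (φ n')
    nlinarith
  exact mul_le_of_le_one_left (norm_nonneg _) h5

private lemma sec_pair {q r s H : ℕ} (hq : 2 ≤ q) (hr : 2 ≤ r) (hs : 2 ≤ s) (β w0 : ℝ) (δ : ℕ → ℝ)
    (hδ : ∀ i, δ i = 1 ∨ δ i = -1) {J L D n n' : ℕ}
    (h2 : (s : ℝ) ^ n < (r : ℝ) ^ (J + H)) (h3 : n' + D ≤ n) :
    ‖∑ ω : Fin H → Fin q, ee ((β * (s : ℝ) ^ n / (r : ℝ) ^ J - β * (s : ℝ) ^ n' / (r : ℝ) ^ J) *
        zz r w0 δ ω)‖ ≤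
      (q : ℝ) ^ H * (if (s : ℝ) ^ n < (r : ℝ) ^ (J + L) then 1 else (QL q r L (lead r s β n) +
        2 * π * L * (r : ℝ) ^ L * (|β| * r / 2 ^ D))) := by
  have e : β * (s : ℝ) ^ n / (r : ℝ) ^ J - β * (s : ℝ) ^ n' / (r : ℝ) ^ J =
      β * ((s : ℝ) ^ n - (s : ℝ) ^ n') / (r : ℝ) ^ J := by ring
  rw [e]
  split_ifs with h
  · rw [mul_one]
    exact corr_trivial w0 δ _
  · rw [not_lt] at h
    exact corr_bound hq hr hs β w0 δ hδ h h2 h3

private lemma sec_choose (C : ℝ) {ε : ℝ} (hε : 0 < ε) : ∃ D : ℕ, C / 2 ^ D ≤ ε := by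
  obtain ⟨D, hD⟩ := pow_unbounded_of_one_lt (C / ε) (by norm_num : (1 : ℝ) < 2)
  refine ⟨D, ?_⟩
  rw [div_lt_iff₀ hε] at hD
  rw [div_le_iff₀ (by positivity)]
  linarith

theorem second {q r s : ℕ} (hq : 2 ≤ q) (hr : 2 ≤ r) (hs : 2 ≤ s) {β : ℝ} (hβ : Adm r s β)
    {τ : ℝ} (hτ : 0 < τ) :
    ∃ H0 : ℕ, ∀ H : ℕ, H0 ≤ H → ∀ (J : ℕ) (w0 : ℝ) (δ : ℕ → ℝ), (∀ i, δ i = 1 ∨ δ i = -1) →
      ∀ φ : ℕ → ℂ, (∀ n, ‖φ n‖ ≤ 1) →
      ∑ ω : Fin H → Fin q,
        ‖∑ n ∈ Ico (cnt s ((r : ℝ) ^ J)) (cnt s ((r : ℝ) ^ (J + H))),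
          φ n * ee (β * (s : ℝ) ^ n / (r : ℝ) ^ J * zz r w0 δ ω)‖ ^ 2 ≤
      τ * (H : ℝ) ^ 2 * (q : ℝ) ^ H := by
  classical
  have hr2 : (2 : ℝ) ≤ r := by exact_mod_cast hr
  have hr0 : (0 : ℝ) < r := by linarith
  have hq0 : (0 : ℝ) < q := by exact_mod_cast (by omega : 0 < q)
  have hlr : 0 ≤ Real.log r := Real.log_nonneg (by linarith)
  set κ : ℝ := 2 * Real.log r + 1 with hκ
  have hκ1 : 1 ≤ κ := by rw [hκ]; linarith
  have hκ0 : 0 < κ := by linarith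
  set ε₀ : ℝ := τ / (8 * κ ^ 2) with hε₀
  have hε₀p : 0 < ε₀ := by positivity
  obtain ⟨L, N0, hLN⟩ := lead_avg hq hr hs hβ hε₀p
  obtain ⟨D, hD⟩ := sec_choose (2 * π * L * (r : ℝ) ^ L * (|β| * r)) hε₀p
  set η₀ : ℝ := 2 * π * L * (r : ℝ) ^ L * (|β| * r / 2 ^ D) with hη₀
  have hη₀le : η₀ ≤ ε₀ := by
    refine le_trans (le_of_eq ?_) hD
    rw [hη₀]
    ring
  have hη₀0 : 0 ≤ η₀ := by positivity
  set M : ℝ := D + 2 * L * Real.log r + 1 + N0 with hM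
  have hM0 : 0 ≤ M := by positivity
  obtain ⟨H1, hH1⟩ := exists_nat_ge (4 * κ * M / τ)
  refine ⟨max (max L 1) H1, ?_⟩
  intro H hH J w0 δ hδ φ hφ
  have hHL : L ≤ H := le_trans (le_trans (le_max_left _ _) (le_max_left _ _)) hH
  have hH1' : 1 ≤ H := le_trans (le_trans (le_max_right _ _) (le_max_left _ _)) hH
  have hHH1 : H1 ≤ H := le_trans (le_max_right _ _) hH
  have hHr : (1 : ℝ) ≤ H := by exact_mod_cast hH1'
  have hHM : 4 * κ * M ≤ τ * H := by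
    have h1 : 4 * κ * M / τ ≤ H := hH1.trans (by exact_mod_cast hHH1)
    rw [div_le_iff₀ hτ] at h1
    linarith
  obtain ⟨a, ha⟩ : ∃ a, a = cnt s ((r : ℝ) ^ J) := ⟨_, rfl⟩
  obtain ⟨b, hb⟩ : ∃ b, b = cnt s ((r : ℝ) ^ (J + H)) := ⟨_, rfl⟩
  obtain ⟨m, hm⟩ : ∃ m, m = cnt s ((r : ℝ) ^ (J + L)) := ⟨_, rfl⟩
  have hr1 : (1 : ℝ) ≤ r := by linarith
  have ham : a ≤ m := by
    rw [ha, hm]
    exact cnt_mono hs (pow_le_pow_right₀ hr1 (by omega))
  have hmb : m ≤ b := by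
    rw [hb, hm]
    exact cnt_mono hs (pow_le_pow_right₀ hr1 (by omega))
  have hab : a ≤ b := ham.trans hmb
  have hratio : ∀ K : ℕ, (cnt s ((r : ℝ) ^ (J + K)) : ℝ) ≤ a + 2 * K * Real.log r + 1 := by
    intro K
    have h1 := cnt_diff hs (X := (r : ℝ) ^ J) (Y := (r : ℝ) ^ (J + K)) (by positivity)
      (pow_le_pow_right₀ hr1 (by omega))
    have h2 : (r : ℝ) ^ (J + K) / (r : ℝ) ^ J = (r : ℝ) ^ K := by
      rw [pow_add]
      field_simp
    rw [h2, Real.log_pow, ← ha] at h1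
    linarith
  have hbW : (b : ℝ) - a ≤ κ * H := by
    have h1 := hratio H
    rw [← hb] at h1
    rw [hκ]
    nlinarith
  have hmW : (m : ℝ) - a ≤ 2 * L * Real.log r + 1 := by
    have h1 := hratio L
    rw [← hm] at h1
    linarith
  have hW0 : (0 : ℝ) ≤ (b : ℝ) - a := by
    have : (a : ℝ) ≤ b := by exact_mod_cast hab
    linarith
  rw [← ha, ← hb]
  refine (sec_expand w0 δ (Ico a b) (fun n => β * (s : ℝ) ^ n / (r : ℝ) ^ J) φ hφ).trans ?_
  -- the bound of one pair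
  obtain ⟨g, hg⟩ : ∃ g : ℕ → ℝ, g = fun n => (if (s : ℝ) ^ n < (r : ℝ) ^ (J + L) then 1 else
      (QL q r L (lead r s β n) + η₀)) := ⟨_, rfl⟩
  have hg0 : ∀ n, 0 ≤ g n := by
    intro n
    rw [hg]
    dsimp only
    split_ifs
    · norm_num
    · have := QL_nonneg q r L (lead r s β n)
      linarith
  have hlt : ∀ n ∈ Ico a b, (s : ℝ) ^ n < (r : ℝ) ^ (J + H) := by
    intro n hn
    rw [mem_Ico, hb] at hn
    exact (lt_cnt_iff hs _ _).1 hn.2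
  have hpair : ∀ n ∈ Ico a b, ∀ n' ∈ Ico a b,
      ‖∑ ω : Fin H → Fin q, ee ((β * (s : ℝ) ^ n / (r : ℝ) ^ J - β * (s : ℝ) ^ n' / (r : ℝ) ^ J) *
        zz r w0 δ ω)‖ ≤ (q : ℝ) ^ H * ((if n' ∈ Ico (n + 1 - D) (n + D) then 1 else 0) + g n + g n') := by
    intro n hn n' hn'
    have hqH : (0 : ℝ) < (q : ℝ) ^ H := by positivity
    by_cases h1 : n' + D ≤ n
    · have h2 := sec_pair hq hr hs β w0 δ hδ (J := J) (L := L) (hlt n hn) h1
      refine h2.trans (mul_le_mul_of_nonneg_left ?_ hqH.le)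
      have h3 : (if (s : ℝ) ^ n < (r : ℝ) ^ (J + L) then 1 else (QL q r L (lead r s β n) +
        2 * π * L * (r : ℝ) ^ L * (|β| * r / 2 ^ D))) = g n := by rw [hg]
      rw [h3]
      have h4 := hg0 n'
      have h5 : (0 : ℝ) ≤ (if n' ∈ Ico (n + 1 - D) (n + D) then 1 else 0) := by
        split_ifs <;> norm_num
      linarith
    · by_cases h1' : n + D ≤ n'
      · have h2 := sec_pair hq hr hs β w0 δ hδ (J := J) (L := L) (hlt n' hn') h1'
        rw [sec_symm]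
        refine h2.trans (mul_le_mul_of_nonneg_left ?_ hqH.le)
        have h3 : (if (s : ℝ) ^ n' < (r : ℝ) ^ (J + L) then 1 else (QL q r L (lead r s β n') +
          2 * π * L * (r : ℝ) ^ L * (|β| * r / 2 ^ D))) = g n' := by rw [hg]
        rw [h3]
        have h4 := hg0 n
        have h5 : (0 : ℝ) ≤ (if n' ∈ Ico (n + 1 - D) (n + D) then 1 else 0) := by
          split_ifs <;> norm_num
        linarith
      · have h2 : n' ∈ Ico (n + 1 - D) (n + D) := by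
          rw [mem_Ico]
          omega
        rw [if_pos h2]
        refine (corr_trivial w0 δ _).trans ?_
        have h4 := hg0 n
        have h5 := hg0 n'
        nlinarith
  have hsum : ∑ n ∈ Ico a b, ∑ n' ∈ Ico a b,
      ‖∑ ω : Fin H → Fin q, ee ((β * (s : ℝ) ^ n / (r : ℝ) ^ J - β * (s : ℝ) ^ n' / (r : ℝ) ^ J) *
        zz r w0 δ ω)‖ ≤ (q : ℝ) ^ H * (((b : ℝ) - a) * (2 * D) + 2 * (((b : ℝ) - a) *
          ∑ n ∈ Ico a b, g n)) := by
    have hcard : (((Ico a b).card : ℕ) : ℝ) = (b : ℝ) - a := by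
      rw [Nat.card_Ico, Nat.cast_sub hab]
    calc _ ≤ ∑ n ∈ Ico a b, ∑ n' ∈ Ico a b, (q : ℝ) ^ H *
          ((if n' ∈ Ico (n + 1 - D) (n + D) then 1 else 0) + g n + g n') :=
          Finset.sum_le_sum fun n hn => Finset.sum_le_sum fun n' hn' => hpair n hn n' hn'
      _ = (q : ℝ) ^ H * (∑ n ∈ Ico a b, ((((Ico a b) ∩ Ico (n + 1 - D) (n + D)).card : ℝ) +
            ((b : ℝ) - a) * g n + ∑ n' ∈ Ico a b, g n')) := by
          rw [Finset.mul_sum]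
          apply Finset.sum_congr rfl
          intro n _
          rw [← Finset.mul_sum, Finset.sum_add_distrib, Finset.sum_add_distrib, Finset.sum_const,
            nsmul_eq_mul, hcard, Finset.sum_ite_mem, Finset.sum_const, nsmul_eq_mul, mul_one]
      _ ≤ (q : ℝ) ^ H * (∑ n ∈ Ico a b, ((2 * D : ℝ) +
            ((b : ℝ) - a) * g n + ∑ n' ∈ Ico a b, g n')) := by
          apply mul_le_mul_of_nonneg_left _ (by positivity)
          apply Finset.sum_le_sum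
          intro n _
          have h8 : ((Ico a b) ∩ Ico (n + 1 - D) (n + D)).card ≤ 2 * D := by
            calc _ ≤ (Ico (n + 1 - D) (n + D)).card := Finset.card_le_card (Finset.inter_subset_right)
              _ ≤ 2 * D := by rw [Nat.card_Ico]; omega
          have h9 : (((Ico a b) ∩ Ico (n + 1 - D) (n + D)).card : ℝ) ≤ 2 * D := by exact_mod_cast h8
          linarith
      _ = _ := by
          rw [Finset.sum_add_distrib, Finset.sum_add_distrib, Finset.sum_const, Finset.sum_const,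
            nsmul_eq_mul, nsmul_eq_mul, hcard, ← Finset.mul_sum]
          ring
  refine hsum.trans ?_
  -- the sum of `g`
  have hgsum : ∑ n ∈ Ico a b, g n ≤ (2 * L * Real.log r + 1) + (N0 + ε₀ * ((b : ℝ) - a)) +
      η₀ * ((b : ℝ) - a) := by
    rw [← Finset.sum_Ico_consecutive g ham hmb]
    have e1 : ∑ n ∈ Ico a m, g n ≤ 2 * L * Real.log r + 1 := by
      have : ∑ n ∈ Ico a m, g n ≤ ∑ n ∈ Ico a m, (1 : ℝ) := by
        apply Finset.sum_le_sum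
        intro n hn
        rw [mem_Ico, hm] at hn
        have := (lt_cnt_iff hs _ _).1 hn.2
        rw [hg]
        dsimp only
        rw [if_pos this]
      refine this.trans ?_
      rw [Finset.sum_const, Nat.card_Ico, nsmul_eq_mul, mul_one, Nat.cast_sub ham]
      exact hmW
    have e2 : ∑ n ∈ Ico m b, g n ≤ ∑ n ∈ Ico m b, QL q r L (lead r s β n) +
        η₀ * ((b : ℝ) - m) := by
      have : ∑ n ∈ Ico m b, g n ≤ ∑ n ∈ Ico m b, (QL q r L (lead r s β n) + η₀) := by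
        apply Finset.sum_le_sum
        intro n hn
        rw [mem_Ico, hm] at hn
        have : ¬ (s : ℝ) ^ n < (r : ℝ) ^ (J + L) := by
          intro h
          have := (lt_cnt_iff hs _ _).2 h
          omega
        rw [hg]
        dsimp only
        rw [if_neg this]
      refine this.trans (le_of_eq ?_)
      rw [Finset.sum_add_distrib, Finset.sum_const, Nat.card_Ico, nsmul_eq_mul, Nat.cast_sub hmb]
      ring
    have e3 : ∑ n ∈ Ico m b, QL q r L (lead r s β n) ≤ N0 + ε₀ * ((b : ℝ) - a) := by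
      have ham' : (a : ℝ) ≤ m := by exact_mod_cast ham
      have hmb' : (m : ℝ) ≤ b := by exact_mod_cast hmb
      have hba : (b : ℝ) - m ≤ (b : ℝ) - a := by linarith
      by_cases hN : N0 ≤ b - m
      · have h1 := hLN m (b - m) hN
        rw [Nat.add_sub_cancel' hmb, Nat.cast_sub hmb] at h1
        have h2 := mul_le_mul_of_nonneg_left hba hε₀p.le
        have h3 : (0 : ℝ) ≤ N0 := Nat.cast_nonneg _
        linarith
      · have h1 : ∑ n ∈ Ico m b, QL q r L (lead r s β n) ≤ ∑ n ∈ Ico m b, (1 : ℝ) :=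
          Finset.sum_le_sum fun n _ => QL_le_one (by omega) r L _
        rw [Finset.sum_const, Nat.card_Ico, nsmul_eq_mul, mul_one] at h1
        have h2 : ((b - m : ℕ) : ℝ) ≤ N0 := by
          have : b - m ≤ N0 := by omega
          exact_mod_cast this
        have h3 : 0 ≤ ε₀ * ((b : ℝ) - a) := mul_nonneg hε₀p.le hW0
        linarith
    have e4 : η₀ * ((b : ℝ) - m) ≤ η₀ * ((b : ℝ) - a) := by
      have ham' : (a : ℝ) ≤ m := by exact_mod_cast ham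
      exact mul_le_mul_of_nonneg_left (by linarith) hη₀0
    linarith
  set Wr : ℝ := (b : ℝ) - a with hWr
  have hg1 : ∑ n ∈ Ico a b, g n ≤ (2 * L * Real.log r + 1 + N0) + 2 * ε₀ * (κ * H) := by
    have h1 : ε₀ * Wr ≤ ε₀ * (κ * H) := mul_le_mul_of_nonneg_left hbW hε₀p.le
    have h2 : η₀ * Wr ≤ ε₀ * (κ * H) := by
      calc η₀ * Wr ≤ ε₀ * Wr := mul_le_mul_of_nonneg_right hη₀le hW0
        _ ≤ _ := h1
    linarith
  have hgs0 : 0 ≤ ∑ n ∈ Ico a b, g n := Finset.sum_nonneg fun n _ => hg0 n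
  have hfin : Wr * (2 * D) + 2 * (Wr * ∑ n ∈ Ico a b, g n) ≤ τ * (H : ℝ) ^ 2 := by
    have h1 : Wr * (2 * D) + 2 * (Wr * ∑ n ∈ Ico a b, g n) =
        2 * Wr * (D + ∑ n ∈ Ico a b, g n) := by ring
    have h2 : D + ∑ n ∈ Ico a b, g n ≤ M + 2 * ε₀ * (κ * H) := by
      rw [hM]
      linarith
    have h3 : 0 ≤ (D : ℝ) + ∑ n ∈ Ico a b, g n := by positivity
    have h4 : 2 * Wr * (D + ∑ n ∈ Ico a b, g n) ≤ 2 * (κ * H) * (M + 2 * ε₀ * (κ * H)) := by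
      apply mul_le_mul (by linarith) h2 h3 (by positivity)
    have h5 : 2 * (κ * H) * (2 * ε₀ * (κ * H)) = τ / 2 * (H : ℝ) ^ 2 := by
      rw [hε₀]
      field_simp
      ring
    have h6 : 2 * (κ * H) * M ≤ τ / 2 * (H : ℝ) ^ 2 := by
      nlinarith
    rw [h1]
    refine h4.trans ?_
    rw [mul_add, h5]
    linarith
  calc (q : ℝ) ^ H * (Wr * (2 * D) + 2 * (Wr * ∑ n ∈ Ico a b, g n)) ≤
        (q : ℝ) ^ H * (τ * (H : ℝ) ^ 2) := mul_le_mul_of_nonneg_left hfin (by positivity)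
    _ = _ := by ring

end MP798203.AB
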