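import Pool.Agent.Lib.MP_798203_nt.AB.Noise
import Pool.Agent.Lib.MP_798203_nt.AB.Digit

/-!
One block. Take `H0` from `noise` for `τ/2` and also `H0 ≥ 8 π |β t| / τ` for all `t ∈ T`.
Given `J, m, d, φ`: `w0 = m + ∑_{i<H} d(J+i) / r^(i+1)`, `δ i = -1` if `d(J+i) = r - 1`, else `δ i = 1`; `ω` from `noise`;
`e i = d(J+i) + (δ i if ω i = 0, else 0) ∈ [0, r-1]` and `m' = m r^H + ∑_{i<H} e_i r^(H-1-i)` (`di_sum`). Then
`zz r w0 δ ω = m' / r^H`. Digits: `di r (J+H) m' (J+i) = e i ≠ d(J+i)` only if `ω i = 0`.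
For `y` with `|y - m'/r^(J+H)| ≤ r^(-J-H)`: the terms `φ ee (β s^n y)` and `φ ee (β s^n / r^J zz)` differ by at most
`2 π |β| s^n / r^(J+H)` (`norm_ee_sub_le`), in total at most `4 π |β|` (`sum_pow_le` with `X = r^(J+H)`) `≤ (τ/2) H`.
-/

namespace MP798203.AB

open Real Finset

/-- the direction of the change of the digit `c` -/
private def sd (r c : ℕ) : ℤ := if c + 1 = r then -1 else 1

private lemma sd_cases (r c : ℕ) : sd r c = 1 ∨ sd r c = -1 := by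
  unfold sd
  split_ifs
  · right; rfl
  · left; rfl

private lemma sd_bound {r c : ℕ} (hr : 2 ≤ r) (hc : c < r) :
    0 ≤ (c : ℤ) + sd r c ∧ (c : ℤ) + sd r c < r := by
  unfold sd
  split_ifs <;> omega

theorem step {ι : Type*} {q r : ℕ} (hq : 2 ≤ q) (hr : 2 ≤ r) (T : Finset ι) (β : ι → ℝ)
    (s : ι → ℕ) (hT : ∀ t ∈ T, 2 ≤ s t ∧ Adm r (s t) (β t)) {τ : ℝ} (hτ : 0 < τ) :
    ∃ H0 : ℕ, ∀ H : ℕ, H0 ≤ H → ∀ (J : ℕ) (m : ℤ) (d : ℕ → ℕ), (∀ j, d j < r) →
      ∀ φ : ι → ℕ → ℂ, (∀ t n, ‖φ t n‖ ≤ 1) →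
      ∃ m' : ℤ, m * (r : ℤ) ^ H ≤ m' ∧ m' < (m + 1) * (r : ℤ) ^ H ∧
        (((range H).filter (fun i => di r (J + H) m' (J + i) ≠ (d (J + i) : ℤ))).card : ℝ) ≤
          2 * H / q ∧
        ∀ t ∈ T, ∀ y : ℝ, (m' : ℝ) / (r : ℝ) ^ (J + H) ≤ y →
          y ≤ ((m' : ℝ) + 1) / (r : ℝ) ^ (J + H) →
          ‖∑ n ∈ Ico (cnt (s t) ((r : ℝ) ^ J)) (cnt (s t) ((r : ℝ) ^ (J + H))),
            φ t n * ee (β t * (s t : ℝ) ^ n * y)‖ ≤ τ * H := by
  classical
  obtain ⟨H1, hH1⟩ := noise hq hr T β s hT (half_pos hτ)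
  refine ⟨max H1 (T.sup fun t => ⌈8 * π * |β t| / τ⌉₊), ?_⟩
  intro H hH J m d hd φ hφ
  have hr0 : (0 : ℝ) < r := by exact_mod_cast (by omega : 0 < r)
  set δ : ℕ → ℝ := fun i => ((sd r (d (J + i)) : ℤ) : ℝ) with hδ
  have hδ1 : ∀ i, δ i = 1 ∨ δ i = -1 := by
    intro i
    rcases sd_cases r (d (J + i)) with h | h
    · left; simp [hδ, h]
    · right; simp [hδ, h]
  set w0 : ℝ := m + ∑ i ∈ range H, (d (J + i) : ℝ) / (r : ℝ) ^ (i + 1) with hw0
  obtain ⟨ω, hω1, hω2⟩ := hH1 H ((le_max_left _ _).trans hH) J w0 δ hδ1 φ hφ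
  set e : ℕ → ℤ := fun i => (d (J + i) : ℤ) +
    (if h : i < H then (if (ω ⟨i, h⟩ : ℕ) = 0 then sd r (d (J + i)) else 0) else 0) with he
  have heb : ∀ i, i < H → 0 ≤ e i ∧ e i < r := by
    intro i hi
    simp only [he, dif_pos hi]
    split_ifs with h
    · exact sd_bound hr (hd _)
    · have := hd (J + i)
      constructor <;> omega
  obtain ⟨hm1, hm2, hdi⟩ := di_sum hr J H m e heb
  set m' : ℤ := m * (r : ℤ) ^ H + ∑ i ∈ range H, e i * (r : ℤ) ^ (H - 1 - i) with hm'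
  refine ⟨m', hm1, hm2, ?_, ?_⟩
  · refine le_trans ?_ hω1
    have h1 : (range H).filter (fun i => di r (J + H) m' (J + i) ≠ (d (J + i) : ℤ)) ⊆
        (univ.filter (fun i : Fin H => (ω i : ℕ) = 0)).image (fun i : Fin H => (i : ℕ)) := by
      intro i hi
      rw [mem_filter, mem_range] at hi
      obtain ⟨hi1, hi2⟩ := hi
      rw [hdi i hi1] at hi2
      rw [mem_image]
      refine ⟨⟨i, hi1⟩, ?_, rfl⟩
      rw [mem_filter]
      refine ⟨mem_univ _, ?_⟩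
      by_contra hcon
      apply hi2
      simp only [he, dif_pos hi1, if_neg hcon, add_zero]
    have h2 := (Finset.card_le_card h1).trans Finset.card_image_le
    exact_mod_cast h2
  · intro t ht y hy1 hy2
    have hzz : zz r w0 δ ω = (m' : ℝ) / (r : ℝ) ^ H := by
      have e1 : (m' : ℝ) / (r : ℝ) ^ H = m + ∑ i ∈ range H, (e i : ℝ) / (r : ℝ) ^ (i + 1) := by
        rw [hm']
        push_cast
        rw [add_div, mul_div_assoc, div_self (by positivity), mul_one, Finset.sum_div]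
        congr 1
        apply Finset.sum_congr rfl
        intro i hi
        rw [mem_range] at hi
        have e2 : (r : ℝ) ^ H = (r : ℝ) ^ (H - 1 - i) * (r : ℝ) ^ (i + 1) := by
          rw [← pow_add]
          congr 1
          omega
        rw [e2]
        field_simp
      rw [e1, zz, hw0, add_assoc]
      congr 1
      have e3 : ∑ i : Fin H, (if (ω i : ℕ) = 0 then δ i / (r : ℝ) ^ ((i : ℕ) + 1) else 0) =
          ∑ i ∈ range H, (if h : i < H then (if (ω ⟨i, h⟩ : ℕ) = 0 then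
            δ i / (r : ℝ) ^ (i + 1) else 0) else 0) := by
        rw [← Fin.sum_univ_eq_sum_range (fun i => (if h : i < H then (if (ω ⟨i, h⟩ : ℕ) = 0 then
            δ i / (r : ℝ) ^ (i + 1) else 0) else 0)) H]
        apply Finset.sum_congr rfl
        intro i _
        rw [dif_pos i.2]
      rw [e3, ← Finset.sum_add_distrib]
      apply Finset.sum_congr rfl
      intro i hi
      rw [mem_range] at hi
      simp only [he, hδ, dif_pos hi]
      split_ifs with h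
      · push_cast
        ring
      · push_cast
        ring
    have hs2 : 2 ≤ s t := (hT t ht).1
    have hmain := hω2 t ht
    have hterm : ∀ n, ‖φ t n * ee (β t * (s t : ℝ) ^ n * y) -
        φ t n * ee (β t * (s t : ℝ) ^ n / (r : ℝ) ^ J * zz r w0 δ ω)‖ ≤
        2 * π * |β t| / (r : ℝ) ^ (J + H) * (s t : ℝ) ^ n := by
      intro n
      rw [← mul_sub, norm_mul]
      have e1 : ‖ee (β t * (s t : ℝ) ^ n * y) -
          ee (β t * (s t : ℝ) ^ n / (r : ℝ) ^ J * zz r w0 δ ω)‖ ≤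
          2 * π * |β t| / (r : ℝ) ^ (J + H) * (s t : ℝ) ^ n := by
        refine (norm_ee_sub_le _ _).trans ?_
        have e2 : β t * (s t : ℝ) ^ n * y - β t * (s t : ℝ) ^ n / (r : ℝ) ^ J * zz r w0 δ ω =
            β t * ((s t : ℝ) ^ n * (y - (m' : ℝ) / (r : ℝ) ^ (J + H))) := by
          rw [hzz, pow_add]
          field_simp
        have e3 : |y - (m' : ℝ) / (r : ℝ) ^ (J + H)| ≤ 1 / (r : ℝ) ^ (J + H) := by
          rw [abs_of_nonneg (by linarith)]
          rw [add_div] at hy2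
          linarith
        rw [e2, abs_mul, abs_mul, abs_of_nonneg (by positivity : (0 : ℝ) ≤ (s t : ℝ) ^ n)]
        calc 2 * π * (|β t| * ((s t : ℝ) ^ n * |y - (m' : ℝ) / (r : ℝ) ^ (J + H)|))
            ≤ 2 * π * (|β t| * ((s t : ℝ) ^ n * (1 / (r : ℝ) ^ (J + H)))) := by
              gcongr
          _ = 2 * π * |β t| / (r : ℝ) ^ (J + H) * (s t : ℝ) ^ n := by ring
      calc ‖φ t n‖ * ‖ee (β t * (s t : ℝ) ^ n * y) -
          ee (β t * (s t : ℝ) ^ n / (r : ℝ) ^ J * zz r w0 δ ω)‖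
          ≤ 1 * (2 * π * |β t| / (r : ℝ) ^ (J + H) * (s t : ℝ) ^ n) :=
            mul_le_mul (hφ t n) e1 (norm_nonneg _) (by norm_num)
        _ = _ := one_mul _
    set I := Ico (cnt (s t) ((r : ℝ) ^ J)) (cnt (s t) ((r : ℝ) ^ (J + H))) with hI
    have hdiff : ‖∑ n ∈ I, φ t n * ee (β t * (s t : ℝ) ^ n * y) -
        ∑ n ∈ I, φ t n * ee (β t * (s t : ℝ) ^ n / (r : ℝ) ^ J * zz r w0 δ ω)‖ ≤
        4 * π * |β t| := by
      rw [← Finset.sum_sub_distrib]
      refine (norm_sum_le _ _).trans ?_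
      refine (Finset.sum_le_sum fun n _ => hterm n).trans ?_
      rw [← Finset.mul_sum]
      have e1 : ∑ n ∈ I, (s t : ℝ) ^ n ≤ 2 * (r : ℝ) ^ (J + H) := by
        refine le_trans (Finset.sum_le_sum_of_subset_of_nonneg (t := range (cnt (s t) ((r : ℝ) ^ (J + H))))
          ?_ fun _ _ _ => by positivity) (sum_pow_le hs2 (by positivity))
        intro n hn
        rw [hI, mem_Ico] at hn
        rw [mem_range]
        exact hn.2
      calc 2 * π * |β t| / (r : ℝ) ^ (J + H) * ∑ n ∈ I, (s t : ℝ) ^ n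
          ≤ 2 * π * |β t| / (r : ℝ) ^ (J + H) * (2 * (r : ℝ) ^ (J + H)) := by gcongr
        _ = 4 * π * |β t| := by
            field_simp
            ring
    have hH2 : 8 * π * |β t| / τ ≤ H := by
      have e1 : ⌈8 * π * |β t| / τ⌉₊ ≤ T.sup fun t => ⌈8 * π * |β t| / τ⌉₊ :=
        Finset.le_sup (f := fun t => ⌈8 * π * |β t| / τ⌉₊) ht
      have e2 : ⌈8 * π * |β t| / τ⌉₊ ≤ H := e1.trans ((le_max_right _ _).trans hH)
      exact (Nat.le_ceil _).trans (by exact_mod_cast e2)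
    rw [div_le_iff₀ hτ] at hH2
    have hfin : ‖∑ n ∈ I, φ t n * ee (β t * (s t : ℝ) ^ n * y)‖ ≤
        ‖∑ n ∈ I, φ t n * ee (β t * (s t : ℝ) ^ n / (r : ℝ) ^ J * zz r w0 δ ω)‖ +
        ‖∑ n ∈ I, φ t n * ee (β t * (s t : ℝ) ^ n * y) -
        ∑ n ∈ I, φ t n * ee (β t * (s t : ℝ) ^ n / (r : ℝ) ^ J * zz r w0 δ ω)‖ := by
      have := norm_add_le (∑ n ∈ I, φ t n * ee (β t * (s t : ℝ) ^ n / (r : ℝ) ^ J * zz r w0 δ ω))
        (∑ n ∈ I, φ t n * ee (β t * (s t : ℝ) ^ n * y) -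
        ∑ n ∈ I, φ t n * ee (β t * (s t : ℝ) ^ n / (r : ℝ) ^ J * zz r w0 δ ω))
      rwa [add_sub_cancel] at this
    nlinarith

end MP798203.AB
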