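import Pool.Agent.Lib.MP_798203_nt.AB.NoiseJ
import Pool.Agent.Lib.MP_798203_nt.AB.Digit

/-!
One block for `m` coordinates: the proof of `step` (file `StepA.lean`, delivered) in every coordinate, with `noiseJ`.
`H0 ≥ 8 π (∑_i |β t i|) / τ` for all `t ∈ T`; the terms for `y` and for the left end point differ by at most
`2 π (∑_i |β t i|) s^n / r^(J+H)`.
-/

namespace MP798203.AB

open Real Finset

/-- the direction of the change of the digit `c` -/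
private def sdJ (r c : ℕ) : ℤ := if c + 1 = r then -1 else 1

private lemma sdJ_cases (r c : ℕ) : sdJ r c = 1 ∨ sdJ r c = -1 := by
  unfold sdJ
  split_ifs
  · right; rfl
  · left; rfl

private lemma sdJ_bound {r c : ℕ} (hr : 2 ≤ r) (hc : c < r) :
    0 ≤ (c : ℤ) + sdJ r c ∧ (c : ℤ) + sdJ r c < r := by
  unfold sdJ
  split_ifs <;> omega

/-- one coordinate: the noisy digits -/
private lemma coordJ {q r : ℕ} (hr : 2 ≤ r) (H J : ℕ) (m : ℤ) (d : ℕ → ℕ) (hd : ∀ j, d j < r)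
    (ω : Fin H → Fin q) :
    ∃ m' : ℤ, (m * (r : ℤ) ^ H ≤ m' ∧ m' < (m + 1) * (r : ℤ) ^ H) ∧
      (((range H).filter (fun i => di r (J + H) m' (J + i) ≠ (d (J + i) : ℤ))).card : ℝ) ≤
        ((univ.filter (fun j => (ω j : ℕ) = 0)).card : ℝ) ∧
      zz r (m + ∑ i ∈ range H, (d (J + i) : ℝ) / (r : ℝ) ^ (i + 1))
        (fun i => ((sdJ r (d (J + i)) : ℤ) : ℝ)) ω = (m' : ℝ) / (r : ℝ) ^ H := by
  classical
  have hr0 : (0 : ℝ) < r := by exact_mod_cast (by omega : 0 < r)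
  set e : ℕ → ℤ := fun i => (d (J + i) : ℤ) +
    (if h : i < H then (if (ω ⟨i, h⟩ : ℕ) = 0 then sdJ r (d (J + i)) else 0) else 0) with he
  have heb : ∀ i, i < H → 0 ≤ e i ∧ e i < r := by
    intro i hi
    simp only [he, dif_pos hi]
    split_ifs with h
    · exact sdJ_bound hr (hd _)
    · have := hd (J + i)
      constructor <;> omega
  obtain ⟨hm1, hm2, hdi⟩ := di_sum hr J H m e heb
  set m' : ℤ := m * (r : ℤ) ^ H + ∑ i ∈ range H, e i * (r : ℤ) ^ (H - 1 - i) with hm'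
  refine ⟨m', ⟨hm1, hm2⟩, ?_, ?_⟩
  · have h1 : (range H).filter (fun i => di r (J + H) m' (J + i) ≠ (d (J + i) : ℤ)) ⊆
        (univ.filter (fun i : Fin H => (ω i : ℕ) = 0)).image (fun i : Fin H => (i : ℕ)) := by
      intro i hi
      rw [mem_filter, mem_range] at hi
      obtain ⟨hi1, hi2⟩ := hi
      rw [hdi i hi1] at hi2
      rw [mem_image]
      refine ⟨⟨i, hi1⟩, ?_, rfl⟩
      rw [mem_filter]
      refine ⟨mem_univ _, ?_⟩
      by_contra hcon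
      apply hi2
      simp only [he, dif_pos hi1, if_neg hcon, add_zero]
    have h2 := (Finset.card_le_card h1).trans Finset.card_image_le
    exact_mod_cast h2
  · have e1 : (m' : ℝ) / (r : ℝ) ^ H = m + ∑ i ∈ range H, (e i : ℝ) / (r : ℝ) ^ (i + 1) := by
      rw [hm']
      push_cast
      rw [add_div, mul_div_assoc, div_self (by positivity), mul_one, Finset.sum_div]
      congr 1
      apply Finset.sum_congr rfl
      intro i hi
      rw [mem_range] at hi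
      have e2 : (r : ℝ) ^ H = (r : ℝ) ^ (H - 1 - i) * (r : ℝ) ^ (i + 1) := by
        rw [← pow_add]
        congr 1
        omega
      rw [e2]
      field_simp
    rw [e1, zz, add_assoc]
    congr 1
    have e3 : ∑ i : Fin H, (if (ω i : ℕ) = 0 then
        (fun i => ((sdJ r (d (J + i)) : ℤ) : ℝ)) (i : ℕ) / (r : ℝ) ^ ((i : ℕ) + 1) else 0) =
        ∑ i ∈ range H, (if h : i < H then (if (ω ⟨i, h⟩ : ℕ) = 0 then
          ((sdJ r (d (J + i)) : ℤ) : ℝ) / (r : ℝ) ^ (i + 1) else 0) else 0) := by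
      rw [← Fin.sum_univ_eq_sum_range (fun i => (if h : i < H then (if (ω ⟨i, h⟩ : ℕ) = 0 then
          ((sdJ r (d (J + i)) : ℤ) : ℝ) / (r : ℝ) ^ (i + 1) else 0) else 0)) H]
      apply Finset.sum_congr rfl
      intro i _
      rw [dif_pos i.2]
    rw [e3, ← Finset.sum_add_distrib]
    apply Finset.sum_congr rfl
    intro i hi
    rw [mem_range] at hi
    simp only [he, dif_pos hi]
    split_ifs with h
    · push_cast
      ring
    · push_cast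
      ring

theorem stepJ {ι : Type*} {m q r : ℕ} (hq : 2 ≤ q) (hr : 2 ≤ r) (T : Finset ι)
    (β : ι → Fin m → ℝ) (s : ι → ℕ) (hT : ∀ t ∈ T, 2 ≤ s t ∧ ∃ i, Adm r (s t) (β t i))
    {τ : ℝ} (hτ : 0 < τ) :
    ∃ H0 : ℕ, ∀ H : ℕ, H0 ≤ H → ∀ (J : ℕ) (z : Fin m → ℤ) (d : Fin m → ℕ → ℕ),
      (∀ i j, d i j < r) → ∀ φ : ι → ℕ → ℂ, (∀ t n, ‖φ t n‖ ≤ 1) →
      ∃ z' : Fin m → ℤ, (∀ i, z i * (r : ℤ) ^ H ≤ z' i ∧ z' i < (z i + 1) * (r : ℤ) ^ H) ∧
        (∀ i, (((range H).filter (fun j => di r (J + H) (z' i) (J + j) ≠ (d i (J + j) : ℤ))).card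
          : ℝ) ≤ 2 * m * H / q) ∧
        ∀ t ∈ T, ∀ y : Fin m → ℝ, (∀ i, (z' i : ℝ) / (r : ℝ) ^ (J + H) ≤ y i ∧
          y i ≤ ((z' i : ℝ) + 1) / (r : ℝ) ^ (J + H)) →
          ‖∑ n ∈ Ico (cnt (s t) ((r : ℝ) ^ J)) (cnt (s t) ((r : ℝ) ^ (J + H))),
            φ t n * ee ((s t : ℝ) ^ n * ∑ i, β t i * y i)‖ ≤ τ * H := by
  classical
  obtain ⟨H1, hH1⟩ := noiseJ hq hr T β s hT (half_pos hτ)
  refine ⟨max H1 (T.sup fun t => ⌈8 * π * (∑ i, |β t i|) / τ⌉₊), ?_⟩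
  intro H hH J m0 d hd φ hφ
  have hr0 : (0 : ℝ) < r := by exact_mod_cast (by omega : 0 < r)
  obtain ⟨ω, hω1, hω2⟩ := hH1 H ((le_max_left _ _).trans hH) J
    (fun i => (m0 i : ℝ) + ∑ j ∈ range H, (d i (J + j) : ℝ) / (r : ℝ) ^ (j + 1))
    (fun i j => ((sdJ r (d i (J + j)) : ℤ) : ℝ))
    (by
      intro i j
      rcases sdJ_cases r (d i (J + j)) with h | h
      · left; simp [h]
      · right; simp [h]) φ hφ
  have hco := fun i => coordJ hr H J (m0 i) (d i) (hd i) (ω i)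
  choose z' hz1 hz2 hz3 using hco
  refine ⟨z', hz1, fun i => (hz2 i).trans (hω1 i), ?_⟩
  intro t ht y hy
  set B : ℝ := ∑ i, |β t i| with hB
  have hB0 : 0 ≤ B := Finset.sum_nonneg fun _ _ => abs_nonneg _
  have hs2 : 2 ≤ s t := (hT t ht).1
  have hmain := hω2 t ht
  have hZ : ∀ n : ℕ, (∑ i, β t i * (s t : ℝ) ^ n / (r : ℝ) ^ J *
      zz r ((m0 i : ℝ) + ∑ j ∈ range H, (d i (J + j) : ℝ) / (r : ℝ) ^ (j + 1))
        (fun j => ((sdJ r (d i (J + j)) : ℤ) : ℝ)) (ω i)) =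
      (s t : ℝ) ^ n * ∑ i, β t i * ((z' i : ℝ) / (r : ℝ) ^ (J + H)) := by
    intro n
    rw [Finset.mul_sum]
    apply Finset.sum_congr rfl
    intro i _
    rw [hz3 i, pow_add]
    field_simp
  have hterm : ∀ n, ‖φ t n * ee ((s t : ℝ) ^ n * ∑ i, β t i * y i) -
      φ t n * ee ((s t : ℝ) ^ n * ∑ i, β t i * ((z' i : ℝ) / (r : ℝ) ^ (J + H)))‖ ≤
      2 * π * B / (r : ℝ) ^ (J + H) * (s t : ℝ) ^ n := by
    intro n
    rw [← mul_sub, norm_mul]
    have e1 : ‖ee ((s t : ℝ) ^ n * ∑ i, β t i * y i) -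
        ee ((s t : ℝ) ^ n * ∑ i, β t i * ((z' i : ℝ) / (r : ℝ) ^ (J + H)))‖ ≤
        2 * π * B / (r : ℝ) ^ (J + H) * (s t : ℝ) ^ n := by
      refine (norm_ee_sub_le _ _).trans ?_
      have e2 : (s t : ℝ) ^ n * ∑ i, β t i * y i -
          (s t : ℝ) ^ n * ∑ i, β t i * ((z' i : ℝ) / (r : ℝ) ^ (J + H)) =
          (s t : ℝ) ^ n * ∑ i, β t i * (y i - (z' i : ℝ) / (r : ℝ) ^ (J + H)) := by
        rw [← mul_sub, ← Finset.sum_sub_distrib]
        congr 1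
        apply Finset.sum_congr rfl
        intro i _
        ring
      have e3 : |∑ i, β t i * (y i - (z' i : ℝ) / (r : ℝ) ^ (J + H))| ≤
          B * (1 / (r : ℝ) ^ (J + H)) := by
        refine (Finset.abs_sum_le_sum_abs _ _).trans ?_
        rw [hB, Finset.sum_mul]
        apply Finset.sum_le_sum
        intro i _
        rw [abs_mul]
        have hyi := hy i
        have e4 : |y i - (z' i : ℝ) / (r : ℝ) ^ (J + H)| ≤ 1 / (r : ℝ) ^ (J + H) := by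
          rw [abs_of_nonneg (by linarith [hyi.1])]
          have h2 := hyi.2
          rw [add_div] at h2
          linarith
        exact mul_le_mul_of_nonneg_left e4 (abs_nonneg _)
      rw [e2, abs_mul, abs_of_nonneg (by positivity : (0 : ℝ) ≤ (s t : ℝ) ^ n)]
      calc 2 * π * ((s t : ℝ) ^ n * |∑ i, β t i * (y i - (z' i : ℝ) / (r : ℝ) ^ (J + H))|)
          ≤ 2 * π * ((s t : ℝ) ^ n * (B * (1 / (r : ℝ) ^ (J + H)))) := by
            gcongr
        _ = 2 * π * B / (r : ℝ) ^ (J + H) * (s t : ℝ) ^ n := by ring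
    calc ‖φ t n‖ * ‖ee ((s t : ℝ) ^ n * ∑ i, β t i * y i) -
        ee ((s t : ℝ) ^ n * ∑ i, β t i * ((z' i : ℝ) / (r : ℝ) ^ (J + H)))‖
        ≤ 1 * (2 * π * B / (r : ℝ) ^ (J + H) * (s t : ℝ) ^ n) :=
          mul_le_mul (hφ t n) e1 (norm_nonneg _) (by norm_num)
      _ = _ := one_mul _
  set I := Ico (cnt (s t) ((r : ℝ) ^ J)) (cnt (s t) ((r : ℝ) ^ (J + H))) with hI
  have hmain' : ‖∑ n ∈ I, φ t n *
      ee ((s t : ℝ) ^ n * ∑ i, β t i * ((z' i : ℝ) / (r : ℝ) ^ (J + H)))‖ ≤ τ / 2 * H := by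
    refine le_trans (le_of_eq ?_) hmain
    congr 1
    apply Finset.sum_congr rfl
    intro n _
    rw [← hZ n]
  have hdiff : ‖∑ n ∈ I, φ t n * ee ((s t : ℝ) ^ n * ∑ i, β t i * y i) -
      ∑ n ∈ I, φ t n * ee ((s t : ℝ) ^ n * ∑ i, β t i * ((z' i : ℝ) / (r : ℝ) ^ (J + H)))‖ ≤
      4 * π * B := by
    rw [← Finset.sum_sub_distrib]
    refine (norm_sum_le _ _).trans ?_
    refine (Finset.sum_le_sum fun n _ => hterm n).trans ?_
    rw [← Finset.mul_sum]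
    have e1 : ∑ n ∈ I, (s t : ℝ) ^ n ≤ 2 * (r : ℝ) ^ (J + H) := by
      refine le_trans (Finset.sum_le_sum_of_subset_of_nonneg
        (t := range (cnt (s t) ((r : ℝ) ^ (J + H))))
        ?_ fun _ _ _ => by positivity) (sum_pow_le hs2 (by positivity))
      intro n hn
      rw [hI, mem_Ico] at hn
      rw [mem_range]
      exact hn.2
    calc 2 * π * B / (r : ℝ) ^ (J + H) * ∑ n ∈ I, (s t : ℝ) ^ n
        ≤ 2 * π * B / (r : ℝ) ^ (J + H) * (2 * (r : ℝ) ^ (J + H)) := by gcongr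
      _ = 4 * π * B := by
          field_simp
          ring
  have hH2 : 8 * π * B / τ ≤ H := by
    have e1 : ⌈8 * π * B / τ⌉₊ ≤ T.sup fun t => ⌈8 * π * (∑ i, |β t i|) / τ⌉₊ :=
      Finset.le_sup (f := fun t => ⌈8 * π * (∑ i, |β t i|) / τ⌉₊) ht
    have e2 : ⌈8 * π * B / τ⌉₊ ≤ H := e1.trans ((le_max_right _ _).trans hH)
    exact (Nat.le_ceil _).trans (by exact_mod_cast e2)
  rw [div_le_iff₀ hτ] at hH2
  have hfin : ‖∑ n ∈ I, φ t n * ee ((s t : ℝ) ^ n * ∑ i, β t i * y i)‖ ≤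
      ‖∑ n ∈ I, φ t n *
        ee ((s t : ℝ) ^ n * ∑ i, β t i * ((z' i : ℝ) / (r : ℝ) ^ (J + H)))‖ +
      ‖∑ n ∈ I, φ t n * ee ((s t : ℝ) ^ n * ∑ i, β t i * y i) -
      ∑ n ∈ I, φ t n *
        ee ((s t : ℝ) ^ n * ∑ i, β t i * ((z' i : ℝ) / (r : ℝ) ^ (J + H)))‖ := by
    have := norm_add_le (∑ n ∈ I, φ t n *
        ee ((s t : ℝ) ^ n * ∑ i, β t i * ((z' i : ℝ) / (r : ℝ) ^ (J + H))))
      (∑ n ∈ I, φ t n * ee ((s t : ℝ) ^ n * ∑ i, β t i * y i) -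
      ∑ n ∈ I, φ t n *
        ee ((s t : ℝ) ^ n * ∑ i, β t i * ((z' i : ℝ) / (r : ℝ) ^ (J + H))))
    rwa [add_sub_cancel] at this
  nlinarith

end MP798203.AB
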