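import Pool.Agent.Lib.MP_798203_nt.Weyl

/-!
Uniform equidistribution of an irrational rotation.
For `G = fourier h`, `h ≠ 0`: `∑_{n ∈ Ico a (a+N)} ee (h n θ)` is a geometric sum of norm at most
`2 / ‖1 - ee (h θ)‖` (`ee (h θ) ≠ 1` as `h θ` is not an integer; `ee_eq_one`-like argument), and the integral is `0`
(`integral_fourier_ne`). For `h = 0` both sides are equal. Linear combinations: as in `avg_span`
(`Submodule.span_induction`, for the statement `∀ ε > 0, ∃ N0, …`). General `G`: the span of the `fourier h` is dense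
(`span_fourier_closure_eq_top`, see `avg_tendsto` in `Weyl.lean`): choose `f` in the span with `‖G - f‖ ≤ ε / 3`; then
the sums differ by at most `N ε / 3` and the integrals by at most `ε / 3` (`norm_integral_le_norm`).
-/

namespace MP798203.AB

open Real Finset MeasureTheory

local instance : Fact ((0 : ℝ) < 1) := ⟨one_pos⟩

/-- the discrepancy of the window `[a, a + N)` -/
noncomputable def UEd (θ : ℝ) (G : C(TT, ℂ)) (a N : ℕ) : ℂ :=
  ∑ n ∈ Ico a (a + N), G (((n : ℝ) * θ : ℝ) : TT) - N * ∫ t : TT, G t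

lemma UEd_add (θ : ℝ) (f g : C(TT, ℂ)) (a N : ℕ) :
    UEd θ (f + g) a N = UEd θ f a N + UEd θ g a N := by
  unfold UEd
  have h1 : ∫ t : TT, (f + g) t = (∫ t : TT, f t) + ∫ t : TT, g t := by
    simp only [ContinuousMap.add_apply]
    exact integral_add (integrable_cont f) (integrable_cont g)
  rw [h1]
  simp only [ContinuousMap.add_apply]
  rw [Finset.sum_add_distrib]
  ring

lemma UEd_smul (θ : ℝ) (c : ℂ) (f : C(TT, ℂ)) (a N : ℕ) :
    UEd θ (c • f) a N = c * UEd θ f a N := by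
  unfold UEd
  have h1 : ∫ t : TT, (c • f) t = c * (∫ t : TT, f t) := by
    simp only [ContinuousMap.smul_apply, smul_eq_mul]
    exact integral_const_mul c _
  rw [h1]
  simp only [ContinuousMap.smul_apply, smul_eq_mul]
  rw [← Finset.mul_sum]
  ring

lemma norm_UEd_le (θ : ℝ) (f : C(TT, ℂ)) (a N : ℕ) : ‖UEd θ f a N‖ ≤ 2 * ‖f‖ * N := by
  unfold UEd
  have h1 : ‖∑ n ∈ Ico a (a + N), f (((n : ℝ) * θ : ℝ) : TT)‖ ≤ N * ‖f‖ := by
    refine (norm_sum_le _ _).trans ?_
    calc ∑ n ∈ Ico a (a + N), ‖f (((n : ℝ) * θ : ℝ) : TT)‖ ≤ ∑ _n ∈ Ico a (a + N), ‖f‖ :=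
          Finset.sum_le_sum (fun n _ => f.norm_coe_le_norm _)
      _ = N * ‖f‖ := by
          rw [Finset.sum_const, Nat.card_Ico, nsmul_eq_mul]
          congr 2
          omega
  have h2 : ‖(N : ℂ) * ∫ t : TT, f t‖ ≤ N * ‖f‖ := by
    rw [norm_mul, Complex.norm_natCast]
    exact mul_le_mul_of_nonneg_left (norm_integral_le_norm f) (Nat.cast_nonneg N)
  calc _ ≤ ‖∑ n ∈ Ico a (a + N), f (((n : ℝ) * θ : ℝ) : TT)‖ + ‖(N : ℂ) * ∫ t : TT, f t‖ :=
        norm_sub_le _ _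
    _ ≤ 2 * ‖f‖ * N := by linarith

lemma ee_ne_one_of_irrational {x : ℝ} (hx : Irrational x) : ee x ≠ 1 := by
  intro h
  unfold ee at h
  rw [Complex.exp_eq_one_iff] at h
  obtain ⟨m, hm⟩ := h
  have h1 : ((2 * π * x : ℝ) : ℂ) = (m : ℂ) * (2 * π) := by
    have h2 : (((2 * π * x : ℝ) : ℂ) - (m : ℂ) * (2 * π)) * Complex.I = 0 := by
      rw [sub_mul, hm]
      ring
    rcases mul_eq_zero.mp h2 with h3 | h3
    · exact sub_eq_zero.mp h3
    · exact absurd h3 Complex.I_ne_zero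
  have h2 : 2 * π * x = (m : ℝ) * (2 * π) := by exact_mod_cast h1
  have h3 : x = m := by
    have := Real.pi_pos
    have h4 : 2 * π ≠ 0 := by positivity
    apply mul_left_cancel₀ h4
    rw [h2]
    ring
  exact hx.ne_int m h3

lemma ee_nat_mul (n : ℕ) (x : ℝ) : ee (n * x) = ee x ^ n := by
  induction n with
  | zero => simp [ee_zero]
  | succ n ih =>
    rw [pow_succ, ← ih, ← ee_add]
    congr 1
    push_cast
    ring

lemma norm_geom_le {z : ℂ} (hz : ‖z‖ = 1) (hz1 : z ≠ 1) (a N : ℕ) :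
    ‖∑ n ∈ Ico a (a + N), z ^ n‖ ≤ 2 / ‖z - 1‖ := by
  have hpos : 0 < ‖z - 1‖ := norm_pos_iff.mpr (sub_ne_zero.mpr hz1)
  rw [geom_sum_Ico hz1 (by omega), norm_div]
  apply div_le_div_of_nonneg_right _ hpos.le
  calc ‖z ^ (a + N) - z ^ a‖ ≤ ‖z ^ (a + N)‖ + ‖z ^ a‖ := norm_sub_le _ _
    _ = 2 := by rw [norm_pow, norm_pow, hz]; norm_num

lemma UEd_span {θ : ℝ} (hθ : Irrational θ) (f : C(TT, ℂ))
    (hf : f ∈ Submodule.span ℂ (Set.range (@fourier (1:ℝ)))) :
    ∃ C : ℝ, 0 ≤ C ∧ ∀ a N : ℕ, ‖UEd θ f a N‖ ≤ C := by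
  induction hf using Submodule.span_induction with
  | mem f hf =>
    obtain ⟨h, rfl⟩ := hf
    by_cases hh : h = 0
    · subst hh
      refine ⟨0, le_rfl, fun a N => ?_⟩
      have h1 : ∀ t : TT, fourier 0 t = 1 := fun t => fourier_zero
      have h2 : UEd θ (fourier 0) a N = 0 := by
        unfold UEd
        simp only [h1]
        simp [Measure.real]
      rw [h2, norm_zero]
    · have hx : Irrational ((h : ℝ) * θ) := by
        have := hθ.intCast_mul hh
        exact this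
      refine ⟨2 / ‖ee ((h : ℝ) * θ) - 1‖, by positivity, fun a N => ?_⟩
      have h2 : UEd θ (fourier h) a N = ∑ n ∈ Ico a (a + N), ee ((h : ℝ) * θ) ^ n := by
        unfold UEd
        rw [integral_fourier_ne hh, mul_zero, sub_zero]
        apply Finset.sum_congr rfl
        intro n _
        rw [fourier_eq, ← ee_nat_mul]
        congr 1
        ring
      rw [h2]
      exact norm_geom_le (norm_ee _) (ee_ne_one_of_irrational hx) a N
  | zero =>
    refine ⟨0, le_rfl, fun a N => ?_⟩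
    have h2 : UEd θ 0 a N = 0 := by
      unfold UEd
      simp
    rw [h2, norm_zero]
  | add f g _ _ hf hg =>
    obtain ⟨C, hC, h1⟩ := hf
    obtain ⟨D, hD, h2⟩ := hg
    refine ⟨C + D, by positivity, fun a N => ?_⟩
    rw [UEd_add]
    exact (norm_add_le _ _).trans (add_le_add (h1 a N) (h2 a N))
  | smul c f _ hf =>
    obtain ⟨C, hC, h1⟩ := hf
    refine ⟨‖c‖ * C, by positivity, fun a N => ?_⟩
    rw [UEd_smul, norm_mul]
    exact mul_le_mul_of_nonneg_left (h1 a N) (norm_nonneg c)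

theorem unif_equi {θ : ℝ} (hθ : Irrational θ) (G : C(TT, ℂ)) {ε : ℝ} (hε : 0 < ε) :
    ∃ N0 : ℕ, ∀ a N : ℕ, N0 ≤ N →
      ‖∑ n ∈ Ico a (a + N), G (((n : ℝ) * θ : ℝ) : TT) - N * ∫ t : TT, G t‖ ≤ ε * N := by
  have hf : G ∈ (Submodule.span ℂ (Set.range (@fourier (1:ℝ)))).topologicalClosure := by
    rw [span_fourier_closure_eq_top]; trivial
  rw [← SetLike.mem_coe, Submodule.topologicalClosure_coe, Metric.mem_closure_iff] at hf
  obtain ⟨P, hP, hd⟩ := hf (ε / 4) (by positivity)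
  obtain ⟨C, hC, hb⟩ := UEd_span hθ P hP
  obtain ⟨N0, hN0⟩ := exists_nat_ge (2 * C / ε)
  refine ⟨N0, fun a N hN => ?_⟩
  have h1 : UEd θ G a N = UEd θ (G - P) a N + UEd θ P a N := by
    rw [← UEd_add]
    congr 1
    simp
  have h2 : ‖UEd θ (G - P) a N‖ ≤ 2 * (ε / 4) * N := by
    refine (norm_UEd_le θ (G - P) a N).trans ?_
    rw [dist_eq_norm] at hd
    gcongr
  have h3 : C ≤ ε / 2 * N := by
    have h4 : 2 * C / ε ≤ N := hN0.trans (by exact_mod_cast hN)
    rw [div_le_iff₀ hε] at h4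
    linarith
  have h4 : ‖UEd θ G a N‖ ≤ ε * N := by
    rw [h1]
    calc _ ≤ ‖UEd θ (G - P) a N‖ + ‖UEd θ P a N‖ := norm_add_le _ _
      _ ≤ 2 * (ε / 4) * N + C := add_le_add h2 (hb a N)
      _ ≤ ε * N := by linarith
  exact h4

end MP798203.AB
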